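import Pool.Agent.Lib.MP_f3090c_an.K.Carpet

/-! words. -/

open Set Filter Topology

namespace CarpetLib

/-- integer abscissa of the bottom left corner of the cell `w` at scale `3^{-|w|}` -/
def ix : List Dig → ℕ
  | [] => 0
  | d :: w => (d.1.1 : ℕ) * 3 ^ w.length + ix w

def iy : List Dig → ℕ
  | [] => 0
  | d :: w => (d.1.2 : ℕ) * 3 ^ w.length + iy w

/-- the word of the cell reflected in `y = 1/2` -/
def ryW (w : List Dig) : List Dig := ((w.map Dig.sw).map Dig.rx).map Dig.sw

end CarpetLib
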