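import Pool.Agent.Lib.MP_f3090c_an.K.Carpet

/-!
# Self-similar Dirichlet forms on the Sierpinski carpet

`CarpetForm μ` collects the defining properties of the canonical form of Brownian motion on the
carpet.
-/

open Set Filter Topology MeasureTheory

namespace CarpetLib

instance : MeasurableSpace K := borel K
instance : BorelSpace K := ⟨rfl⟩

/-- A closed, Markovian, regular, conservative, irreducible symmetric form on `L²(K, μ)` with
domain contained in `C(K)`, self-similar with scaling factor `ρ` and invariant under the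
symmetries of the square. -/
structure CarpetForm (μ : Measure K) where
  /-- the domain `F` (continuous versions) -/
  dom : Submodule ℝ C(K, ℝ)
  /-- the form -/
  E : dom →ₗ[ℝ] dom →ₗ[ℝ] ℝ
  symm : ∀ f g, E f g = E g f
  nonneg : ∀ f, 0 ≤ E f f
  /-- closedness: `dom` is complete for the norm `(E(f,f) + ∫ f² dμ)^{1/2}` -/
  closed : ∀ u : ℕ → dom,
    (∀ ε > 0, ∃ N, ∀ m ≥ N, ∀ n ≥ N,
      E (u m - u n) (u m - u n) + ∫ x, ((u m).1 x - (u n).1 x) ^ 2 ∂μ < ε) →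
    ∃ f : dom, Tendsto (fun n => E (u n - f) (u n - f) + ∫ x, ((u n).1 x - f.1 x) ^ 2 ∂μ)
      atTop (𝓝 0)
  /-- Markov property: every normal contraction operates -/
  markov : ∀ f : dom, ∀ φ : C(ℝ, ℝ), LipschitzWith 1 φ → φ 0 = 0 →
    ∃ h : φ.comp f.1 ∈ dom, E ⟨φ.comp f.1, h⟩ ⟨φ.comp f.1, h⟩ ≤ E f f
  /-- regularity -/
  regular : Dense (dom : Set C(K, ℝ))
  /-- conservativeness -/
  one_mem : (1 : C(K, ℝ)) ∈ dom
  E_one : E ⟨1, one_mem⟩ ⟨1, one_mem⟩ = 0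
  /-- irreducibility -/
  irreducible : ∀ f : dom, E f f = 0 → ∀ x y, f.1 x = f.1 y
  /-- the energy scaling factor -/
  ρ : ℝ
  ρ_pos : 0 < ρ
  /-- self-similarity of the domain -/
  mem_iff : ∀ f : C(K, ℝ), f ∈ dom ↔ ∀ d, f.comp (psiK d) ∈ dom
  /-- self-similarity of the form -/
  selfSimilar : ∀ f : dom, E f f =
    ρ * ∑ d, E ⟨f.1.comp (psiK d), (mem_iff f.1).1 f.2 d⟩ ⟨f.1.comp (psiK d), (mem_iff f.1).1 f.2 d⟩
  /-- invariance under the two reflections generating the symmetry group of the square -/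
  rx_mem : ∀ f : dom, f.1.comp rxK ∈ dom
  rx_inv : ∀ f : dom, E ⟨f.1.comp rxK, rx_mem f⟩ ⟨f.1.comp rxK, rx_mem f⟩ = E f f
  sw_mem : ∀ f : dom, f.1.comp swK ∈ dom
  sw_inv : ∀ f : dom, E ⟨f.1.comp swK, sw_mem f⟩ ⟨f.1.comp swK, sw_mem f⟩ = E f f

namespace CarpetForm
variable {μ : Measure K} (𝓔 : CarpetForm μ)

/-- `h` is harmonic on `K \ V_0`: `E(h, v) = 0` for all `v ∈ F` vanishing on `V_0`. -/
def Harmonic (h : 𝓔.dom) : Prop := ∀ v : 𝓔.dom, (∀ z ∈ V0, v.1 z = 0) → 𝓔.E h v = 0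

/-- `ν` is the energy measure `Γ(h,h)`:
`∫ f dν = 2 E(hf, h) - E(h², f)` for all `f ∈ F`. -/
def IsEnergyMeasure (h : 𝓔.dom) (ν : Measure K) : Prop :=
  ∀ f : 𝓔.dom, ∃ (h1 : h.1 * f.1 ∈ 𝓔.dom) (h2 : h.1 * h.1 ∈ 𝓔.dom),
    ∫ x, f.1 x ∂ν = 2 * 𝓔.E ⟨h.1 * f.1, h1⟩ h - 𝓔.E ⟨h.1 * h.1, h2⟩ f

end CarpetForm

/-- The main theorem. -/
def MainStatement : Prop :=
  ∀ (μ : Measure K) [IsFiniteMeasure μ], (∀ U : Set K, IsOpen U → U.Nonempty → 0 < μ U) →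
    ∀ 𝓔 : CarpetForm μ, ∃ h : 𝓔.dom, 𝓔.Harmonic h ∧
      (∃ ν : Measure K, IsFiniteMeasure ν ∧ 𝓔.IsEnergyMeasure h ν) ∧
      ∀ ν : Measure K, IsFiniteMeasure ν → 𝓔.IsEnergyMeasure h ν →
        ∀ U : Set K, IsOpen U → U.Nonempty → 0 < ν U

end CarpetLib
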