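import Mathlib

/-! K03: the sup norm oscillation is controlled by the energy. -/

open Set Filter Topology MeasureTheory

namespace CarpetLib

/-- Nested closed convex sets with points of bounded norm intersect. -/
private theorem poincare_nested {H : Type*} [NormedAddCommGroup H] [InnerProductSpace ℝ H]
    [CompleteSpace H] (K : ℕ → Set H) (anti : Antitone K) (conv : ∀ n, Convex ℝ (K n))
    (clo : ∀ n, IsClosed (K n)) (B : ℝ) (bdd : ∀ n, ∃ h ∈ K n, ‖h‖ ≤ B) :
    ∃ h, ∀ n, h ∈ K n := by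
  have hex : ∀ n, ∃ v ∈ K n, ∀ w ∈ K n, ‖v‖ ≤ ‖w‖ := by
    intro n
    obtain ⟨v, hv, hv'⟩ := exists_norm_eq_iInf_of_complete_convex
      (K := K n) ⟨_, (bdd n).choose_spec.1⟩ (clo n).isComplete (conv n) 0
    refine ⟨v, hv, fun w hw => ?_⟩
    have h1 : ‖(0 : H) - v‖ ≤ ‖(0 : H) - w‖ := by
      rw [hv']
      exact ciInf_le ⟨0, by rintro _ ⟨y, rfl⟩; exact norm_nonneg _⟩ (⟨w, hw⟩ : K n)
    simpa using h1
  choose v hvK hvmin using hex
  have hmono : Monotone (fun n => ‖v n‖) := by
    intro m n hmn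
    exact hvmin m (v n) (anti hmn (hvK n))
  have hbd : ∀ n, ‖v n‖ ≤ B := by
    intro n
    obtain ⟨h, hh, hB⟩ := bdd n
    exact (hvmin n h hh).trans hB
  have hmono2 : Monotone (fun n => ‖v n‖ ^ 2) := by
    intro m n hmn
    exact pow_le_pow_left₀ (norm_nonneg _) (hmono hmn) 2
  have hbd2 : BddAbove (Set.range (fun n => ‖v n‖ ^ 2)) := by
    refine ⟨B ^ 2, ?_⟩
    rintro _ ⟨n, rfl⟩
    exact pow_le_pow_left₀ (norm_nonneg _) (hbd n) 2
  have hlim := tendsto_atTop_ciSup hmono2 hbd2
  have hcau : CauchySeq (fun n => ‖v n‖ ^ 2) := hlim.cauchySeq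
  have hv_cau : CauchySeq v := by
    rw [Metric.cauchySeq_iff'] at hcau ⊢
    intro ε hε
    obtain ⟨N, hN⟩ := hcau (ε ^ 2 / 2) (by positivity)
    refine ⟨N, fun n hn => ?_⟩
    have h1 := hN n hn
    rw [Real.dist_eq] at h1
    have h2 : ‖v N‖ ^ 2 ≤ ‖v n‖ ^ 2 := hmono2 hn
    rw [abs_of_nonneg (by linarith)] at h1
    have h3 : (1 / 2 : ℝ) • v N + (1 / 2 : ℝ) • v n ∈ K N :=
      conv N (hvK N) (anti hn (hvK n)) (by norm_num) (by norm_num) (by norm_num)
    have h4 := hvmin N _ h3
    have h5 : ‖(1 / 2 : ℝ) • v N + (1 / 2 : ℝ) • v n‖ = (1 / 2) * ‖v n + v N‖ := by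
      rw [← smul_add, norm_smul, add_comm (v N) (v n)]
      norm_num
    rw [h5] at h4
    have h6 := parallelogram_law_with_norm ℝ (v n) (v N)
    have h7 : ‖v N‖ ^ 2 ≤ ((1 / 2) * ‖v n + v N‖) ^ 2 :=
      pow_le_pow_left₀ (norm_nonneg _) h4 2
    have h8 : ‖v n - v N‖ ^ 2 < ε ^ 2 := by nlinarith
    rw [dist_eq_norm]
    exact lt_of_pow_lt_pow_left₀ 2 hε.le h8
  obtain ⟨h, hh⟩ := cauchySeq_tendsto_of_complete hv_cau
  refine ⟨h, fun n => ?_⟩
  exact (clo n).mem_of_tendsto hh (eventually_atTop.2 ⟨n, fun m hm => anti hm (hvK m)⟩)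

private theorem poincare_integrable {X : Type*} [MetricSpace X] [CompactSpace X]
    [MeasurableSpace X] [BorelSpace X] (μ : Measure X) [IsFiniteMeasure μ] (f : X → ℝ)
    (hf : Continuous f) : Integrable f μ :=
  hf.integrable_of_hasCompactSupport (HasCompactSupport.of_compactSpace f)

private theorem poincare_zero {X : Type*} [MetricSpace X] [CompactSpace X]
    [MeasurableSpace X] [BorelSpace X] (μ : Measure X) [IsFiniteMeasure μ]
    (hμ : ∀ U : Set X, IsOpen U → U.Nonempty → 0 < μ U) (f : C(X, ℝ))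
    (h : ∫ x, (f x) ^ 2 ∂μ = 0) : f = 0 := by
  have : μ.IsOpenPosMeasure := ⟨fun U hU hne => (hμ U hU hne).ne'⟩
  have hc : Continuous (fun x => (f x) ^ 2) := by fun_prop
  have h1 : (fun x => (f x) ^ 2) =ᵐ[μ] 0 :=
    (integral_eq_zero_iff_of_nonneg (fun x => sq_nonneg _) (poincare_integrable μ _ hc)).1 h
  have h2 : (fun x => (f x) ^ 2) = 0 := (hc.ae_eq_iff_eq μ continuous_zero).1 h1
  ext x
  have h3 := congrFun h2 x
  simpa using h3

private theorem poincare_abs {X : Type*} [MetricSpace X] [CompactSpace X] [Nonempty X]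
    [MeasurableSpace X]
    [BorelSpace X] (μ : Measure X) [IsFiniteMeasure μ]
    (hμ : ∀ U : Set X, IsOpen U → U.Nonempty → 0 < μ U)
    {H : Type*} [AddCommGroup H] [Module ℝ H] (i : H →ₗ[ℝ] C(X, ℝ))
    (hinj : ∀ f, i f = 0 → f = 0)
    (E : H →ₗ[ℝ] H →ₗ[ℝ] ℝ) (symm : ∀ f g, E f g = E g f)
    (nonneg : ∀ f, 0 ≤ E f f)
    (closed : ∀ u : ℕ → H,
      (∀ ε > 0, ∃ N, ∀ m ≥ N, ∀ n ≥ N,
        E (u m - u n) (u m - u n) + ∫ x, (i (u m) x - i (u n) x) ^ 2 ∂μ < ε) →
      ∃ f : H, Tendsto (fun n => E (u n - f) (u n - f) + ∫ x, (i (u n) x - i f x) ^ 2 ∂μ)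
        atTop (𝓝 0))
    (one : H) (hone : i one = 1) (E_one : E one one = 0)
    (irreducible : ∀ f : H, E f f = 0 → ∀ x y, i f x = i f y) :
    ∃ R : ℝ, 0 < R ∧ ∀ f : H, ∀ x y, (i f x - i f y) ^ 2 ≤ R * E f f := by
  -- the Hilbert space
  let core : InnerProductSpace.Core ℝ H :=
    { inner := fun f g => E f g + ∫ x, i f x * i g x ∂μ
      conj_inner_symm := by
        intro f g
        simp only [conj_trivial]
        rw [symm g f]
        congr 1
        refine integral_congr_ae (Eventually.of_forall fun x => ?_)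
        simp only
        ring
      re_inner_nonneg := by
        intro f
        simp only [RCLike.re_to_real]
        refine add_nonneg (nonneg f) (integral_nonneg fun x => ?_)
        exact mul_self_nonneg _
      add_left := by
        intro f g h
        simp only [map_add, LinearMap.add_apply, ContinuousMap.add_apply, add_mul]
        rw [integral_add (poincare_integrable μ _ (by fun_prop))
          (poincare_integrable μ _ (by fun_prop))]
        ring
      smul_left := by
        intro f g r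
        simp only [map_smul, LinearMap.smul_apply, ContinuousMap.smul_apply, smul_eq_mul,
          conj_trivial, mul_assoc]
        rw [integral_const_mul, mul_add]
      definite := by
        intro f hf
        have h1 : 0 ≤ ∫ x, i f x * i f x ∂μ := integral_nonneg fun x => mul_self_nonneg _
        have h2 := nonneg f
        have h3 : ∫ x, (i f x) ^ 2 ∂μ = 0 := by
          have h4 : ∫ x, (i f x) ^ 2 ∂μ = ∫ x, i f x * i f x ∂μ := by
            refine integral_congr_ae (Eventually.of_forall fun x => ?_)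
            simp only
            ring
          rw [h4]
          have hf' : E f f + ∫ x, i f x * i f x ∂μ = 0 := hf
          linarith
        exact hinj f (poincare_zero μ hμ (i f) h3) }
  let _ : NormedAddCommGroup H := @InnerProductSpace.Core.toNormedAddCommGroup ℝ H _ _ _ core
  let _ : InnerProductSpace ℝ H := InnerProductSpace.ofCore core.toCore
  have hnorm : ∀ f : H, ‖f‖ ^ 2 = E f f + ∫ x, (i f x) ^ 2 ∂μ := by
    intro f
    have h1 : ‖f‖ ^ 2 = inner ℝ f f := (real_inner_self_eq_norm_sq f).symm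
    rw [h1]
    have h2 : inner ℝ f f = E f f + ∫ x, i f x * i f x ∂μ := rfl
    rw [h2]
    congr 1
    refine integral_congr_ae (Eventually.of_forall fun x => ?_)
    simp only
    ring
  have hE_le : ∀ f : H, E f f ≤ ‖f‖ ^ 2 := by
    intro f
    rw [hnorm]
    have : 0 ≤ ∫ x, (i f x) ^ 2 ∂μ := integral_nonneg fun x => sq_nonneg _
    linarith
  have hI_le : ∀ f : H, ∫ x, (i f x) ^ 2 ∂μ ≤ ‖f‖ ^ 2 := by
    intro f
    rw [hnorm]
    linarith [nonneg f]
  have hsub : ∀ f g : H, ‖f - g‖ ^ 2 = E (f - g) (f - g) + ∫ x, (i f x - i g x) ^ 2 ∂μ := by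
    intro f g
    rw [hnorm]
    simp only [map_sub, ContinuousMap.sub_apply]
  have _ : CompleteSpace H := by
    apply Metric.complete_of_cauchySeq_tendsto
    intro u hu
    obtain ⟨f, hf⟩ := closed u (by
      intro ε hε
      obtain ⟨N, hN⟩ := (Metric.cauchySeq_iff.1 hu) (√ε) (Real.sqrt_pos.2 hε)
      refine ⟨N, fun m hm n hn => ?_⟩
      rw [← hsub]
      have h1 := hN m hm n hn
      rw [dist_eq_norm] at h1
      calc ‖u m - u n‖ ^ 2 < (√ε) ^ 2 := pow_lt_pow_left₀ h1 (norm_nonneg _) (by norm_num)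
        _ = ε := Real.sq_sqrt hε.le)
    refine ⟨f, ?_⟩
    rw [tendsto_iff_norm_sub_tendsto_zero]
    have h1 : Tendsto (fun n => ‖u n - f‖ ^ 2) atTop (𝓝 0) := by
      simp_rw [hsub]
      exact hf
    have h2 : Tendsto (fun n => √(‖u n - f‖ ^ 2)) atTop (𝓝 (√0)) :=
      (Real.continuous_sqrt.tendsto 0).comp h1
    simpa [Real.sqrt_sq (norm_nonneg _)] using h2
  -- closed graph
  have hcont : Continuous i := by
    apply LinearMap.continuous_of_seq_closed_graph
    intro u f y hu hy
    have h0 : ∀ n, ∫ x, (i f x - y x) ^ 2 ∂μ ≤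
        2 * ‖u n - f‖ ^ 2 + 2 * (‖i (u n) - y‖ ^ 2 * μ.real univ) := by
      intro n
      have h1 : ∫ x, (i f x - y x) ^ 2 ∂μ ≤
          ∫ x, (2 * (i (u n) x - i f x) ^ 2 + 2 * (i (u n) x - y x) ^ 2) ∂μ := by
        refine integral_mono (poincare_integrable μ _ (by fun_prop))
          (poincare_integrable μ _ (by fun_prop)) fun x => ?_
        simp only
        nlinarith [sq_nonneg ((i (u n) x - i f x) + (i (u n) x - y x))]
      rw [integral_add (poincare_integrable μ _ (by fun_prop))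
        (poincare_integrable μ _ (by fun_prop)), integral_const_mul, integral_const_mul] at h1
      have h2 : ∫ x, (i (u n) x - i f x) ^ 2 ∂μ ≤ ‖u n - f‖ ^ 2 := by
        rw [hsub]
        linarith [nonneg (u n - f)]
      have h3 : ∫ x, (i (u n) x - y x) ^ 2 ∂μ ≤ ‖i (u n) - y‖ ^ 2 * μ.real univ := by
        have h4 : ∫ x, (i (u n) x - y x) ^ 2 ∂μ ≤ ∫ _x, ‖i (u n) - y‖ ^ 2 ∂μ := by
          refine integral_mono (poincare_integrable μ _ (by fun_prop)) (integrable_const _)
            fun x => ?_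
          simp only
          have h5 := (i (u n) - y).norm_coe_le_norm x
          rw [ContinuousMap.sub_apply, Real.norm_eq_abs] at h5
          calc (i (u n) x - y x) ^ 2 = |i (u n) x - y x| ^ 2 := (sq_abs _).symm
            _ ≤ ‖i (u n) - y‖ ^ 2 := pow_le_pow_left₀ (abs_nonneg _) h5 2
        rw [integral_const, smul_eq_mul, mul_comm] at h4
        exact h4
      linarith
    have h1 : Tendsto (fun n => 2 * ‖u n - f‖ ^ 2 + 2 * (‖i (u n) - y‖ ^ 2 * μ.real univ))
        atTop (𝓝 (2 * 0 ^ 2 + 2 * (0 ^ 2 * μ.real univ))) := by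
      have h2 := tendsto_iff_norm_sub_tendsto_zero.1 hu
      have h3 := tendsto_iff_norm_sub_tendsto_zero.1 hy
      exact ((h2.pow 2).const_mul 2).add (((h3.pow 2).mul_const _).const_mul 2)
    have h2 : ∫ x, (i f x - y x) ^ 2 ∂μ ≤ 2 * 0 ^ 2 + 2 * (0 ^ 2 * μ.real univ) :=
      ge_of_tendsto' h1 h0
    have h3 : 0 ≤ ∫ x, (i f x - y x) ^ 2 ∂μ := integral_nonneg fun x => sq_nonneg _
    have h4 : ∫ x, ((i f - y) x) ^ 2 ∂μ = 0 := by
      simp only [ContinuousMap.sub_apply]
      linarith
    have h5 := poincare_zero μ hμ _ h4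
    exact (sub_eq_zero.1 h5).symm
  obtain ⟨C, hC0, hC⟩ : ∃ C : ℝ, 0 ≤ C ∧ ∀ f, ‖i f‖ ≤ C * ‖f‖ := by
    obtain ⟨C, h0, h1⟩ := (⟨i, hcont⟩ : H →L[ℝ] C(X, ℝ)).bound
    exact ⟨C, h0.le, h1⟩
  -- Cauchy-Schwarz for E
  have hCS : ∀ f g, (E f g) ^ 2 ≤ E f f * E g g := by
    intro f g
    have h1 : ∀ t : ℝ, 0 ≤ E f f * (t * t) + (2 * E f g) * t + E g g := by
      intro t
      have h2 := nonneg (t • f + g)
      simp only [map_add, map_smul, LinearMap.add_apply, LinearMap.smul_apply, smul_eq_mul] at h2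
      rw [symm g f] at h2
      linarith
    have h2 := discrim_le_zero h1
    rw [discrim] at h2
    linarith
  have hEcont : Continuous (fun f : H => E f f) := by
    have h1 : ∀ f g, ‖E f g‖ ≤ 1 * ‖f‖ * ‖g‖ := by
      intro f g
      rw [one_mul, Real.norm_eq_abs]
      apply abs_le_of_sq_le_sq _ (by positivity)
      calc (E f g) ^ 2 ≤ E f f * E g g := hCS f g
        _ ≤ ‖f‖ ^ 2 * ‖g‖ ^ 2 := mul_le_mul (hE_le f) (hE_le g) (nonneg g) (by positivity)
        _ = (‖f‖ * ‖g‖) ^ 2 := by ring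
    have h2 : Continuous (fun p : H × H => (E.mkContinuous₂ 1 h1) p.1 p.2) :=
      (E.mkContinuous₂ 1 h1).continuous₂
    exact h2.comp (continuous_id.prodMk continuous_id)
  have heval : ∀ x : X, Continuous (fun f : H => i f x) := fun x =>
    (continuous_eval_const x).comp hcont
  obtain ⟨x0⟩ := ‹Nonempty X›
  -- the L2 Poincare inequality
  obtain ⟨P, hP⟩ : ∃ P : ℝ, ∀ f : H, i f x0 = 0 → ∫ x, (i f x) ^ 2 ∂μ ≤ P * E f f := by
    by_contra hcon
    push Not at hcon
    have hcon' : ∀ n : ℕ, ∃ g : H, i g x0 = 0 ∧ ∫ x, (i g x) ^ 2 ∂μ = 1 ∧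
        E g g ≤ 1 / ((n : ℝ) + 1) := by
      intro n
      obtain ⟨f, hf0, hf⟩ := hcon ((n : ℝ) + 1)
      have hn : (0 : ℝ) < (n : ℝ) + 1 := by positivity
      set I := ∫ x, (i f x) ^ 2 ∂μ with hI
      have hIpos : 0 < I := lt_of_le_of_lt (mul_nonneg hn.le (nonneg f)) hf
      have hsq : (√I) ^ 2 = I := Real.sq_sqrt hIpos.le
      have hspos : 0 < √I := Real.sqrt_pos.2 hIpos
      refine ⟨(√I)⁻¹ • f, ?_, ?_, ?_⟩
      · simp [hf0]
      · simp only [map_smul, ContinuousMap.smul_apply, smul_eq_mul, mul_pow]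
        rw [integral_const_mul, ← hI, inv_pow, hsq, inv_mul_cancel₀ hIpos.ne']
      · simp only [map_smul, LinearMap.smul_apply, smul_eq_mul]
        have h1 : (√I)⁻¹ * ((√I)⁻¹ * E f f) = E f f / I := by
          rw [← mul_assoc, ← mul_inv, ← sq, hsq]
          field_simp
        rw [h1, div_le_div_iff₀ hIpos hn]
        linarith
    choose g hg0 hg1 hgE using hcon'
    have hgn : ∀ n, ‖g n‖ ≤ 2 := by
      intro n
      have h1 := hnorm (g n)
      rw [hg1] at h1
      have h2 := hgE n
      have h3 : 1 / ((n : ℝ) + 1) ≤ 1 := by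
        rw [div_le_one (by positivity)]
        linarith [(Nat.cast_nonneg n : (0 : ℝ) ≤ n)]
      have h4 : ‖g n‖ ^ 2 ≤ 2 ^ 2 := by nlinarith
      exact le_of_sq_le_sq h4 (by norm_num)
    have hpt : ∀ x, Tendsto (fun n => i (g n) x) atTop (𝓝 0) := by
      intro x
      by_contra hnot
      rw [Metric.tendsto_atTop] at hnot
      push Not at hnot
      obtain ⟨δ, hδ, hfreq⟩ := hnot
      let K : ℕ → Set H := fun m => {h | i h x0 = 0 ∧ δ ≤ i h x ∧ E h h ≤ 1 / ((m : ℝ) + 1)}
      obtain ⟨h, hh⟩ := poincare_nested K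
        (by
          intro m n hmn h hh
          refine ⟨hh.1, hh.2.1, hh.2.2.trans ?_⟩
          apply one_div_le_one_div_of_le (by positivity)
          have : (m : ℝ) ≤ n := by exact_mod_cast hmn
          linarith)
        (by
          intro n a ha b hb s t hs ht hst
          refine ⟨?_, ?_, ?_⟩
          · simp [ha.1, hb.1]
          · simp only [map_add, map_smul, ContinuousMap.add_apply, ContinuousMap.smul_apply,
              smul_eq_mul]
            have h1 := mul_le_mul_of_nonneg_left ha.2.1 hs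
            have h2 := mul_le_mul_of_nonneg_left hb.2.1 ht
            calc δ = s * δ + t * δ := by rw [← add_mul, hst, one_mul]
              _ ≤ _ := add_le_add h1 h2
          · have h1 := nonneg (a - b)
            simp only [map_sub, map_add, map_smul, LinearMap.sub_apply, LinearMap.add_apply,
              LinearMap.smul_apply, smul_eq_mul] at h1 ⊢
            rw [symm b a] at h1 ⊢
            have h2 : s * (s * E a a + t * E a b) + t * (s * E a b + t * E b b) ≤
                s * E a a + t * E b b := by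
              have h3 : t = 1 - s := by linarith
              subst h3
              nlinarith [mul_nonneg hs ht]
            have h4 := mul_le_mul_of_nonneg_left ha.2.2 hs
            have h5 := mul_le_mul_of_nonneg_left hb.2.2 ht
            have h6 : s * (1 / ((n : ℝ) + 1)) + t * (1 / ((n : ℝ) + 1)) = 1 / ((n : ℝ) + 1) := by
              rw [← add_mul, hst, one_mul]
            linarith)
        (by
          intro n
          exact (isClosed_eq (heval x0) continuous_const).inter
            ((isClosed_le continuous_const (heval x)).inter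
              (isClosed_le hEcont continuous_const)))
        2
        (by
          intro m
          obtain ⟨n, hn, hd⟩ := hfreq m
          rw [Real.dist_eq, sub_zero] at hd
          have hle : 1 / ((n : ℝ) + 1) ≤ 1 / ((m : ℝ) + 1) := by
            apply one_div_le_one_div_of_le (by positivity)
            have : (m : ℝ) ≤ n := by exact_mod_cast hn
            linarith
          rcases le_total 0 (i (g n) x) with h | h
          · rw [abs_of_nonneg h] at hd
            exact ⟨g n, ⟨hg0 n, hd, (hgE n).trans hle⟩, hgn n⟩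
          · rw [abs_of_nonpos h] at hd
            refine ⟨-g n, ⟨by simp [hg0 n], by simpa using hd, ?_⟩, by simpa using hgn n⟩
            simp only [map_neg, LinearMap.neg_apply, neg_neg]
            exact (hgE n).trans hle)
      have hE0 : E h h = 0 := by
        apply le_antisymm _ (nonneg h)
        have h1 : Tendsto (fun m : ℕ => 1 / ((m : ℝ) + 1)) atTop (𝓝 0) :=
          tendsto_one_div_add_atTop_nhds_zero_nat
        exact ge_of_tendsto' h1 fun m => (hh m).2.2
      have h1 := irreducible h hE0 x x0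
      rw [(hh 0).1] at h1
      have h2 := (hh 0).2.1
      linarith
    have hlim : Tendsto (fun n => ∫ x, (i (g n) x) ^ 2 ∂μ) atTop (𝓝 (∫ _x, (0 : ℝ) ∂μ)) := by
      refine tendsto_integral_of_dominated_convergence (fun _ => (C * 2) ^ 2) (fun n => ?_)
        (integrable_const _) (fun n => ?_) ?_
      · exact (show Continuous (fun x => (i (g n) x) ^ 2) by fun_prop).aestronglyMeasurable
      · refine Eventually.of_forall fun x => ?_
        rw [Real.norm_eq_abs, abs_pow]
        apply pow_le_pow_left₀ (abs_nonneg _)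
        have h1 := (i (g n)).norm_coe_le_norm x
        rw [Real.norm_eq_abs] at h1
        calc |i (g n) x| ≤ ‖i (g n)‖ := h1
          _ ≤ C * ‖g n‖ := hC _
          _ ≤ C * 2 := mul_le_mul_of_nonneg_left (hgn n) hC0
      · refine Eventually.of_forall fun x => ?_
        have h1 := (hpt x).pow 2
        simpa using h1
    simp only [hg1, integral_zero] at hlim
    have h1 := tendsto_nhds_unique hlim tendsto_const_nhds
    norm_num at h1
  -- conclusion
  have hE1 : ∀ g, E one g = 0 := by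
    intro g
    have h1 := hCS one g
    rw [E_one, zero_mul] at h1
    exact pow_eq_zero_iff (two_ne_zero) |>.1 (le_antisymm h1 (sq_nonneg _))
  refine ⟨4 * C ^ 2 * (1 + |P|) + 1, by positivity, fun f x y => ?_⟩
  set g : H := f - (i f x0) • one with hg
  have hgx : ∀ z, i g z = i f z - i f x0 := by
    intro z
    rw [hg]
    simp [hone]
  have hgE : E g g = E f f := by
    rw [hg]
    simp only [map_sub, map_smul, LinearMap.sub_apply, LinearMap.smul_apply, smul_eq_mul, hE1,
      symm f one]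
    ring
  have h1 := hP g (by rw [hgx]; ring)
  have h2 : ‖g‖ ^ 2 ≤ (1 + |P|) * E f f := by
    rw [hnorm, hgE]
    rw [hgE] at h1
    have h3 : P * E f f ≤ |P| * E f f := mul_le_mul_of_nonneg_right (le_abs_self P) (nonneg f)
    linarith
  have h3 : ∀ z, (i g z) ^ 2 ≤ C ^ 2 * ((1 + |P|) * E f f) := by
    intro z
    have h4 := (i g).norm_coe_le_norm z
    rw [Real.norm_eq_abs] at h4
    calc (i g z) ^ 2 = |i g z| ^ 2 := (sq_abs _).symm
      _ ≤ (C * ‖g‖) ^ 2 := pow_le_pow_left₀ (abs_nonneg _) (h4.trans (hC g)) 2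
      _ = C ^ 2 * ‖g‖ ^ 2 := by ring
      _ ≤ _ := mul_le_mul_of_nonneg_left h2 (sq_nonneg C)
  have h4 : i f x - i f y = i g x - i g y := by
    rw [hgx, hgx]
    ring
  rw [h4]
  have h5 := h3 x
  have h6 := h3 y
  have h7 := nonneg f
  nlinarith [sq_nonneg (i g x + i g y)]

/-- Let `V ⊆ C(X)` carry a nonnegative symmetric form `E` which is closed in `L²(X, μ)`,
conservative and irreducible. Then the oscillation is bounded by the energy. -/
theorem poincare {X : Type*} [MetricSpace X] [CompactSpace X] [Nonempty X] [MeasurableSpace X]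
    [BorelSpace X] (μ : Measure X) [IsFiniteMeasure μ]
    (hμ : ∀ U : Set X, IsOpen U → U.Nonempty → 0 < μ U)
    (V : Submodule ℝ C(X, ℝ)) (E : V →ₗ[ℝ] V →ₗ[ℝ] ℝ) (symm : ∀ f g, E f g = E g f)
    (nonneg : ∀ f, 0 ≤ E f f)
    (closed : ∀ u : ℕ → V,
      (∀ ε > 0, ∃ N, ∀ m ≥ N, ∀ n ≥ N,
        E (u m - u n) (u m - u n) + ∫ x, ((u m).1 x - (u n).1 x) ^ 2 ∂μ < ε) →
      ∃ f : V, Tendsto (fun n => E (u n - f) (u n - f) + ∫ x, ((u n).1 x - f.1 x) ^ 2 ∂μ)
        atTop (𝓝 0))
    (one_mem : (1 : C(X, ℝ)) ∈ V) (E_one : E ⟨1, one_mem⟩ ⟨1, one_mem⟩ = 0)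
    (irreducible : ∀ f : V, E f f = 0 → ∀ x y, f.1 x = f.1 y) :
    ∃ R : ℝ, 0 < R ∧ ∀ f : V, ∀ x y, (f.1 x - f.1 y) ^ 2 ≤ R * E f f :=
  poincare_abs μ hμ V.subtype (fun _ hf => Subtype.ext hf) E symm nonneg closed ⟨1, one_mem⟩ rfl
    E_one irreducible

end CarpetLib
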