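import Pool.Agent.Lib.MP_f3090c_an.K.Sym
import Pool.Agent.Lib.MP_f3090c_an.K.Form
import Pool.Agent.Lib.MP_f3090c_an.K.Poincare

/-! K04: every `CarpetForm` is a `SymForm`. -/

open Set Filter Topology MeasureTheory

namespace CarpetLib

/-- the contractions of words are uniformly small -/
private theorem toSym_dist (w : List Dig) (a b : K) :
    dist (psiW w a) (psiW w b) ≤ (1 / 3 : ℝ) ^ w.length * dist a b := by
  induction w with
  | nil => simp [psiW]
  | cons d w ih =>
    have h1 : dist (psiK d (psiW w a)) (psiK d (psiW w b)) =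
        (1 / 3 : ℝ) * dist (psiW w a) (psiW w b) := by
      rw [Subtype.dist_eq, Subtype.dist_eq, Prod.dist_eq, Prod.dist_eq]
      simp only [psiK, ContinuousMap.coe_mk, psi, Real.dist_eq]
      rw [mul_max_of_nonneg _ _ (by norm_num : (0:ℝ) ≤ 1 / 3)]
      have h3 : ∀ s t c : ℝ, |(s + c) / 3 - (t + c) / 3| = 1 / 3 * |s - t| := by
        intro s t c
        have h4 : (s + c) / 3 - (t + c) / 3 = 1 / 3 * (s - t) := by ring
        rw [h4, abs_mul]
        norm_num
      rw [h3, h3]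
    calc dist (psiW (d :: w) a) (psiW (d :: w) b)
        = dist (psiK d (psiW w a)) (psiK d (psiW w b)) := rfl
      _ = (1 / 3 : ℝ) * dist (psiW w a) (psiW w b) := h1
      _ ≤ (1 / 3 : ℝ) * ((1 / 3 : ℝ) ^ w.length * dist a b) := by
          apply mul_le_mul_of_nonneg_left ih (by norm_num)
      _ = (1 / 3 : ℝ) ^ (d :: w).length * dist a b := by
          rw [List.length_cons, pow_succ]; ring

/-- two disjoint closed sets are separated by the cells of some level -/
private theorem toSym_sep {s t : Set K} (hs : IsClosed s) (ht : IsClosed t) (hst : Disjoint s t) :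
    ∃ n : ℕ, ∀ w : List Dig, w.length = n → (∀ a, psiW w a ∉ s) ∨ (∀ a, psiW w a ∉ t) := by
  obtain ⟨δ, hδ, hdis⟩ := hst.exists_thickenings hs.isCompact ht
  set D := Metric.diam (univ : Set K)
  have hD : ∀ a b : K, dist a b ≤ D := fun a b =>
    Metric.dist_le_diam_of_mem isCompact_univ.isBounded (mem_univ a) (mem_univ b)
  have hD0 : 0 ≤ D := Metric.diam_nonneg
  obtain ⟨n, hn⟩ := exists_pow_lt_of_lt_one (show 0 < δ / (D + 1) by positivity)
    (by norm_num : (1 / 3 : ℝ) < 1)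
  refine ⟨n, fun w hw => ?_⟩
  by_contra hcon
  push Not at hcon
  obtain ⟨⟨a, ha⟩, b, hb⟩ := hcon
  have h1 : dist (psiW w a) (psiW w b) < δ := by
    calc dist (psiW w a) (psiW w b) ≤ (1 / 3 : ℝ) ^ w.length * dist a b := toSym_dist w a b
      _ ≤ (1 / 3 : ℝ) ^ n * (D + 1) := by
          rw [hw]
          apply mul_le_mul_of_nonneg_left _ (by positivity)
          linarith [hD a b]
      _ < δ / (D + 1) * (D + 1) := by
          apply mul_lt_mul_of_pos_right hn
          linarith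
      _ = δ := by field_simp
  have h2 : psiW w b ∈ Metric.thickening δ s :=
    Metric.mem_thickening_iff.2 ⟨_, ha, by rwa [dist_comm]⟩
  have h3 : psiW w b ∈ Metric.thickening δ t :=
    Metric.mem_thickening_iff.2 ⟨_, hb, by rwa [dist_self]⟩
  exact (Set.disjoint_left.1 hdis h2) h3

theorem exists_symForm {μ : Measure K} [IsFiniteMeasure μ]
    (hμ : ∀ U : Set K, IsOpen U → U.Nonempty → 0 < μ U) (𝓔 : CarpetForm μ) :
    ∃ S : SymForm, S.dom = 𝓔.dom ∧ ∀ f g : 𝓔.dom, S.E f.1 g.1 = 𝓔.E f g := by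
  obtain ⟨p, hp⟩ := LinearMap.exists_leftInverse_of_injective 𝓔.dom.subtype
    (Submodule.ker_subtype _)
  have hp' : ∀ f : 𝓔.dom, p f.1 = f := fun f => LinearMap.congr_fun hp f
  obtain ⟨E, hE, hsymm, hnonneg⟩ : ∃ E : C(K, ℝ) →ₗ[ℝ] C(K, ℝ) →ₗ[ℝ] ℝ,
      (∀ f g : 𝓔.dom, E f.1 g.1 = 𝓔.E f g) ∧ (∀ f g, E f g = E g f) ∧ (∀ f, 0 ≤ E f f) := by
    refine ⟨𝓔.E.compl₁₂ p p, ?_, ?_, ?_⟩
    · intro f g
      rw [LinearMap.compl₁₂_apply, hp', hp']
    · intro f g
      rw [LinearMap.compl₁₂_apply, LinearMap.compl₁₂_apply]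
      exact 𝓔.symm _ _
    · intro f
      rw [LinearMap.compl₁₂_apply]
      exact 𝓔.nonneg _
  have hE' : ∀ (f g : C(K, ℝ)) (hf : f ∈ 𝓔.dom) (hg : g ∈ 𝓔.dom), E f g = 𝓔.E ⟨f, hf⟩ ⟨g, hg⟩ :=
    fun f g hf hg => hE ⟨f, hf⟩ ⟨g, hg⟩
  -- the constants
  have hE11 : E 1 1 = 0 := by rw [hE' 1 1 𝓔.one_mem 𝓔.one_mem]; exact 𝓔.E_one
  have hEr : ∀ f, E f 1 = 0 := by
    intro f
    by_contra hne
    have h1 := hnonneg (f + (-(E f f + 1) / (2 * E f 1)) • (1 : C(K, ℝ)))
    simp only [map_add, map_smul, LinearMap.add_apply, LinearMap.smul_apply, smul_eq_mul,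
      hsymm 1 f, hE11] at h1
    have h2 : (-(E f f + 1) / (2 * E f 1)) * E f 1 = -(E f f + 1) / 2 := by
      field_simp
    rw [h2] at h1
    linarith
  have hEl : ∀ f, E 1 f = 0 := fun f => by rw [hsymm, hEr]
  have hEc : ∀ (f : C(K, ℝ)) (c : ℝ), E (f + c • (1 : C(K, ℝ))) (f + c • (1 : C(K, ℝ))) = E f f := by
    intro f c
    simp only [map_add, map_smul, LinearMap.add_apply, LinearMap.smul_apply, smul_eq_mul,
      hEr, hEl]
    ring
  -- polarisation
  have hpol : ∀ (D : Submodule ℝ C(K, ℝ)) (B : C(K, ℝ) →ₗ[ℝ] C(K, ℝ) →ₗ[ℝ] ℝ),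
      (∀ f g, B f g = B g f) → (∀ f ∈ D, B f f = E f f) → ∀ f ∈ D, ∀ g ∈ D, B f g = E f g := by
    intro D B hB hBE f hf g hg
    have h1 := hBE (f + g) (D.add_mem hf hg)
    have h2 := hBE f hf
    have h3 := hBE g hg
    simp only [map_add, LinearMap.add_apply, hsymm g f, hB g f] at h1
    linarith
  have hcompLin : ∀ s : C(K, K), ∃ L : C(K, ℝ) →ₗ[ℝ] C(K, ℝ), ∀ f, L f = f.comp s := by
    intro s
    exact ⟨{ toFun := fun f => f.comp s, map_add' := fun _ _ => rfl, map_smul' := fun _ _ => rfl },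
      fun f => rfl⟩
  -- self-similarity
  have hself : ∀ f ∈ 𝓔.dom, ∀ g ∈ 𝓔.dom, E f g = 𝓔.ρ * ∑ d, E (f.comp (psiK d))
      (g.comp (psiK d)) := by
    choose L hL using hcompLin
    have := hpol 𝓔.dom (𝓔.ρ • ∑ d : Dig, E.compl₁₂ (L (psiK d)) (L (psiK d)))
      (by
        intro f g
        simp only [LinearMap.smul_apply, LinearMap.sum_apply, LinearMap.compl₁₂_apply]
        congr 1
        exact Finset.sum_congr rfl (fun d _ => hsymm _ _))
      (by
        intro f hf
        simp only [LinearMap.smul_apply, LinearMap.sum_apply, LinearMap.compl₁₂_apply, hL,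
          smul_eq_mul]
        rw [hE' f f hf hf, 𝓔.selfSimilar ⟨f, hf⟩]
        congr 1
        exact Finset.sum_congr rfl (fun d _ => hE' _ _ _ _))
    intro f hf g hg
    rw [← this f hf g hg]
    simp only [LinearMap.smul_apply, LinearMap.sum_apply, LinearMap.compl₁₂_apply, hL, smul_eq_mul]
  have hinv : ∀ s : C(K, K), (∀ f : 𝓔.dom, ∃ h : f.1.comp s ∈ 𝓔.dom,
      𝓔.E ⟨f.1.comp s, h⟩ ⟨f.1.comp s, h⟩ = 𝓔.E f f) →
      ∀ f ∈ 𝓔.dom, ∀ g ∈ 𝓔.dom, E (f.comp s) (g.comp s) = E f g := by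
    intro s hs
    obtain ⟨L, hL⟩ := hcompLin s
    have := hpol 𝓔.dom (E.compl₁₂ L L)
      (by
        intro f g
        simp only [LinearMap.compl₁₂_apply]
        exact hsymm _ _)
      (by
        intro f hf
        obtain ⟨h, h'⟩ := hs ⟨f, hf⟩
        simp only [LinearMap.compl₁₂_apply, hL]
        rw [hE' f f hf hf, hE' _ _ h h]
        exact h')
    intro f hf g hg
    rw [← this f hf g hg]
    simp only [LinearMap.compl₁₂_apply, hL]
  -- words
  have hword : ∀ (n : ℕ) (f : C(K, ℝ)), (∀ w : List Dig, w.length = n →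
      f.comp (psiW w) ∈ 𝓔.dom) → f ∈ 𝓔.dom := by
    intro n
    induction n with
    | zero =>
      intro f hf
      exact hf [] rfl
    | succ n ih =>
      intro f hf
      rw [𝓔.mem_iff]
      intro d
      apply ih
      intro w hw
      exact hf (d :: w) (by simp [hw])
  have hword' : ∀ (w : List Dig) (f : C(K, ℝ)), f ∈ 𝓔.dom → f.comp (psiW w) ∈ 𝓔.dom := by
    intro w
    induction w with
    | nil => intro f hf; exact hf
    | cons d w ih =>
      intro f hf
      exact ih _ ((𝓔.mem_iff f).1 hf d)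
  have hzero : ∀ (n : ℕ) (f g : C(K, ℝ)), f ∈ 𝓔.dom → g ∈ 𝓔.dom → (∀ w : List Dig, w.length = n →
      f.comp (psiW w) = 0 ∨ g.comp (psiW w) = 0) → E f g = 0 := by
    intro n
    induction n with
    | zero =>
      intro f g hf hg h
      rcases h [] rfl with h0 | h0
      · have : f = 0 := h0
        rw [this]; simp
      · have : g = 0 := h0
        rw [this]; simp
    | succ n ih =>
      intro f g hf hg h
      rw [hself f hf g hg]
      rw [Finset.sum_eq_zero, mul_zero]
      intro d _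
      exact ih _ _ ((𝓔.mem_iff f).1 hf d) ((𝓔.mem_iff g).1 hg d)
        (fun w hw => h (d :: w) (by simp [hw]))
  -- the bound
  obtain ⟨R, hR, hbound⟩ := poincare μ hμ 𝓔.dom 𝓔.E 𝓔.symm 𝓔.nonneg 𝓔.closed 𝓔.one_mem 𝓔.E_one
    𝓔.irreducible
  have hbound' : ∀ f ∈ 𝓔.dom, ∀ x y, (f x - f y) ^ 2 ≤ R * E f f := by
    intro f hf x y
    rw [hE' f f hf hf]
    exact hbound ⟨f, hf⟩ x y
  -- completeness
  have hcomplete : ∀ u : ℕ → C(K, ℝ), (∀ n, u n ∈ 𝓔.dom) →
      (∀ ε > 0, ∃ N, ∀ m ≥ N, ∀ n ≥ N, E (u m - u n) (u m - u n) < ε) →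
      ∃ f ∈ 𝓔.dom, Tendsto (fun n => E (u n - f) (u n - f)) atTop (𝓝 0) := by
    intro u hu hc
    obtain ⟨x0⟩ : Nonempty K := inferInstance
    let v : ℕ → 𝓔.dom := fun n => ⟨u n + (-(u n x0)) • (1 : C(K, ℝ)),
      𝓔.dom.add_mem (hu n) (𝓔.dom.smul_mem _ 𝓔.one_mem)⟩
    have hv : ∀ m n, (v m - v n).1 = (u m - u n) + (-(u m x0) + u n x0) • (1 : C(K, ℝ)) := by
      intro m n
      simp only [v, Submodule.coe_sub]
      ext x
      simp
      ring
    have hEv : ∀ m n, 𝓔.E (v m - v n) (v m - v n) = E (u m - u n) (u m - u n) := by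
      intro m n
      rw [← hE, hv, hEc]
    have hsup : ∀ m n x, ((v m).1 x - (v n).1 x) ^ 2 ≤ R * E (u m - u n) (u m - u n) := by
      intro m n x
      have h1 := hbound' (u m - u n) (𝓔.dom.sub_mem (hu m) (hu n)) x x0
      have h2 : (v m).1 x - (v n).1 x = (u m - u n) x - (u m - u n) x0 := by
        simp only [v, ContinuousMap.add_apply, ContinuousMap.smul_apply, ContinuousMap.one_apply,
          ContinuousMap.sub_apply, smul_eq_mul]
        ring
      rw [h2]
      exact h1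
    have hint : ∀ m n, ∫ x, ((v m).1 x - (v n).1 x) ^ 2 ∂μ ≤
        R * E (u m - u n) (u m - u n) * μ.real univ := by
      intro m n
      calc ∫ x, ((v m).1 x - (v n).1 x) ^ 2 ∂μ
          ≤ ∫ _, R * E (u m - u n) (u m - u n) ∂μ := by
            apply integral_mono_of_nonneg
            · exact Eventually.of_forall (fun x => sq_nonneg _)
            · exact integrable_const _
            · exact Eventually.of_forall (fun x => hsup m n x)
        _ = R * E (u m - u n) (u m - u n) * μ.real univ := by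
            rw [integral_const, smul_eq_mul, mul_comm]
    obtain ⟨f, hf⟩ := 𝓔.closed v (by
      intro ε hε
      obtain ⟨N, hN⟩ := hc (ε / (1 + R * μ.real univ)) (by positivity)
      refine ⟨N, fun m hm n hn => ?_⟩
      have h1 := hN m hm n hn
      have h2 := hint m n
      have h3 : (0 : ℝ) < 1 + R * μ.real univ := by positivity
      rw [lt_div_iff₀ h3] at h1
      rw [hEv]
      calc E (u m - u n) (u m - u n) + ∫ x, ((v m).1 x - (v n).1 x) ^ 2 ∂μ
          ≤ E (u m - u n) (u m - u n) + R * E (u m - u n) (u m - u n) * μ.real univ := by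
            linarith
        _ = E (u m - u n) (u m - u n) * (1 + R * μ.real univ) := by ring
        _ < ε := h1)
    refine ⟨f.1, f.2, ?_⟩
    have h1 : ∀ n, E (u n - f.1) (u n - f.1) = 𝓔.E (v n - f) (v n - f) := by
      intro n
      rw [← hE]
      have : (v n - f).1 = (u n - f.1) + (-(u n x0)) • (1 : C(K, ℝ)) := by
        simp only [v, Submodule.coe_sub]
        ext x
        simp
        ring
      rw [this, hEc]
    refine squeeze_zero (fun n => hnonneg _) (fun n => ?_) hf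
    rw [h1]
    have : 0 ≤ ∫ x, ((v n).1 x - f.1 x) ^ 2 ∂μ := integral_nonneg (fun x => sq_nonneg _)
    linarith
  -- Markov property
  have hmarkov : ∀ f ∈ 𝓔.dom, ∀ φ : C(ℝ, ℝ), LipschitzWith 1 φ →
      φ.comp f ∈ 𝓔.dom ∧ E (φ.comp f) (φ.comp f) ≤ E f f := by
    intro f hf φ hφ
    let ψ : C(ℝ, ℝ) := ⟨fun t => φ t - φ 0, by fun_prop⟩
    have hψ : LipschitzWith 1 ψ := by
      apply LipschitzWith.of_dist_le_mul
      intro x y
      have := hφ.dist_le_mul x y
      simp only [ψ, ContinuousMap.coe_mk, Real.dist_eq] at this ⊢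
      have h2 : φ x - φ 0 - (φ y - φ 0) = φ x - φ y := by ring
      rw [h2]
      exact this
    obtain ⟨h1, h2⟩ := 𝓔.markov ⟨f, hf⟩ ψ hψ (by simp [ψ])
    have he : φ.comp f = ψ.comp f + (φ 0) • (1 : C(K, ℝ)) := by
      ext x
      simp [ψ]
    rw [he]
    refine ⟨𝓔.dom.add_mem h1 (𝓔.dom.smul_mem _ 𝓔.one_mem), ?_⟩
    rw [hEc, hE' _ _ h1 h1, hE' _ _ hf hf]
    exact h2
  -- locality
  have hloc : ∀ f g : C(K, ℝ), f + g ∈ 𝓔.dom → Disjoint (tsupport f) (tsupport g) →
      f ∈ 𝓔.dom ∧ g ∈ 𝓔.dom ∧ E f g = 0 := by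
    intro f g hfg hdis
    obtain ⟨n, hn⟩ := toSym_sep (isClosed_tsupport f) (isClosed_tsupport g) hdis
    have hcase : ∀ w : List Dig, w.length = n → f.comp (psiW w) = 0 ∨ g.comp (psiW w) = 0 := by
      intro w hw
      rcases hn w hw with h | h
      · left
        ext a
        have := image_eq_zero_of_notMem_tsupport (h a)
        simpa using this
      · right
        ext a
        have := image_eq_zero_of_notMem_tsupport (h a)
        simpa using this
    have hf : f ∈ 𝓔.dom := by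
      apply hword n
      intro w hw
      rcases hcase w hw with h | h
      · rw [h]; exact 𝓔.dom.zero_mem
      · have h1 : f.comp (psiW w) = (f + g).comp (psiW w) := by
          have : (f + g).comp (psiW w) = f.comp (psiW w) + g.comp (psiW w) := rfl
          rw [this, h, add_zero]
        rw [h1]
        exact hword' w _ hfg
    have hg : g ∈ 𝓔.dom := by
      have : g = (f + g) - f := by ring
      rw [this]
      exact 𝓔.dom.sub_mem hfg hf
    exact ⟨hf, hg, hzero n f g hf hg hcase⟩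
  let R0 : RForm K :=
    { dom := 𝓔.dom
      E := E
      symm := hsymm
      nonneg := hnonneg
      one_mem := 𝓔.one_mem
      E_one := hE11
      const_of_zero := fun f hf h0 => 𝓔.irreducible ⟨f, hf⟩ (by rw [← hE' f f hf hf]; exact h0)
      bound := ⟨R, hR, hbound'⟩
      complete := hcomplete
      markov := hmarkov
      dense := 𝓔.regular
      loc := hloc }
  refine ⟨{ toRForm := R0
            ρ := 𝓔.ρ
            ρ_pos := 𝓔.ρ_pos
            mem_iff := 𝓔.mem_iff
            selfSim := hself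
            rx_inv := ⟨fun f hf => 𝓔.rx_mem ⟨f, hf⟩,
              hinv rxK (fun f => ⟨𝓔.rx_mem f, 𝓔.rx_inv f⟩)⟩
            sw_inv := ⟨fun f hf => 𝓔.sw_mem ⟨f, hf⟩,
              hinv swK (fun f => ⟨𝓔.sw_mem f, 𝓔.sw_inv f⟩)⟩ }, rfl, hE⟩

end CarpetLib
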