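import Pool.Agent.Lib.MP_f3090c_an.K.Sym
import Pool.Agent.Lib.MP_f3090c_an.R.Carre

/-! K16a. -/

open Set Filter Topology

namespace CarpetLib

/-- K16a: iterated self-similarity of the functional `f ↦ 2 E(hf,h) - E(h²,f)` -/
theorem carre_cell (S : SymForm) {h f : C(K, ℝ)} (hh : h ∈ S.dom) (hf : f ∈ S.dom)
    (hf0 : ∀ z, 0 ≤ f z) (w : List Dig) (hw : ∀ z, f (psiW w z) = 1) :
    2 * S.ρ ^ w.length * S.E (h.comp (psiW w)) (h.comp (psiW w)) ≤
      2 * S.E (h * f) h - S.E (h * h) f := by
  induction w generalizing h f with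
  | nil =>
    have hf1 : f = 1 := by
      ext z
      exact hw z
    subst hf1
    have e1 : h.comp (psiW []) = h := by
      ext z
      rfl
    have e2 : S.E (h * h) 1 = 0 := S.toRForm.E_one_right _
    rw [e1, e2, mul_one]
    simp
  | cons d w ih =>
    have hhf : h * f ∈ S.dom := S.toRForm.mul_mem hh hf
    have hhh : h * h ∈ S.dom := S.toRForm.mul_mem hh hh
    have hhd : ∀ e, h.comp (psiK e) ∈ S.dom := (S.mem_iff h).1 hh
    have hfd : ∀ e, f.comp (psiK e) ∈ S.dom := (S.mem_iff f).1 hf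
    have ih' := ih (hhd d) (hfd d) (fun z => hf0 _) hw
    have e1 : (h.comp (psiK d)).comp (psiW w) = h.comp (psiW (d :: w)) := by
      ext z
      rfl
    rw [e1] at ih'
    have e2 : 2 * S.E (h * f) h - S.E (h * h) f =
        S.ρ * ∑ e, (2 * S.E (h.comp (psiK e) * f.comp (psiK e)) (h.comp (psiK e)) -
          S.E (h.comp (psiK e) * h.comp (psiK e)) (f.comp (psiK e))) := by
      rw [S.selfSim _ hhf _ hh, S.selfSim _ hhh _ hf, Finset.sum_sub_distrib, ← Finset.mul_sum]
      have a1 : ∀ e, (h * f).comp (psiK e) = h.comp (psiK e) * f.comp (psiK e) := fun e => by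
        ext z
        rfl
      have a2 : ∀ e, (h * h).comp (psiK e) = h.comp (psiK e) * h.comp (psiK e) := fun e => by
        ext z
        rfl
      simp only [a1, a2]
      ring
    have e3 : 2 * S.E (h.comp (psiK d) * f.comp (psiK d)) (h.comp (psiK d)) -
          S.E (h.comp (psiK d) * h.comp (psiK d)) (f.comp (psiK d)) ≤
        ∑ e, (2 * S.E (h.comp (psiK e) * f.comp (psiK e)) (h.comp (psiK e)) -
          S.E (h.comp (psiK e) * h.comp (psiK e)) (f.comp (psiK e))) := by
      refine Finset.single_le_sum (f := fun e =>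
        (2 * S.E (h.comp (psiK e) * f.comp (psiK e)) (h.comp (psiK e)) -
          S.E (h.comp (psiK e) * h.comp (psiK e)) (f.comp (psiK e)))) (fun e _ => ?_)
        (Finset.mem_univ d)
      exact S.toRForm.carre_nonneg (hfd e) (hhd e) (fun z => hf0 _)
    rw [e2]
    calc 2 * S.ρ ^ (d :: w).length * S.E (h.comp (psiW (d :: w))) (h.comp (psiW (d :: w)))
        = S.ρ * (2 * S.ρ ^ w.length *
            S.E (h.comp (psiW (d :: w))) (h.comp (psiW (d :: w)))) := by
          rw [List.length_cons, pow_succ]; ring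
      _ ≤ S.ρ * _ := mul_le_mul_of_nonneg_left (ih'.trans e3) S.ρ_pos.le

end CarpetLib
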