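import Pool.Agent.Lib.MP_f3090c_an.K.Sym

/-! digits. -/

open Set Filter Topology

namespace CarpetLib

/-- digit of the bottom left cell -/
def d00 : Dig := ⟨(0, 0), by decide⟩
/-- digit of the bottom middle cell -/
def d10 : Dig := ⟨(1, 0), by decide⟩

end CarpetLib
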