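import Pool.Agent.Lib.MP_f3090c_an.K.Sym

/-! points. -/

open Set Filter Topology

namespace CarpetLib

/-- the point `(0, 1/3)` -/
noncomputable def cL : K := ⟨(0, 1 / 3), left_mem (by norm_num) (by norm_num)⟩
/-- the point `(1/3, 0)` -/
noncomputable def cB : K := ⟨(1 / 3, 0), bot_mem (by norm_num) (by norm_num)⟩
/-- the point `(1/2, 0)` -/
noncomputable def cM : K := ⟨(1 / 2, 0), bot_mem (by norm_num) (by norm_num)⟩

end CarpetLib
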