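import Pool.Agent.Lib.MP_f3090c_an.K.Carpet
import Pool.Agent.Lib.MP_f3090c_an.R.MirDefs

/-! Resistance forms on the carpet which are self-similar and invariant under the symmetries. -/

open Set Filter Topology

namespace CarpetLib

/-- An `RForm` on the carpet, self-similar and invariant under the symmetries of the square. -/
structure SymForm extends RForm K where
  ρ : ℝ
  ρ_pos : 0 < ρ
  mem_iff : ∀ f : C(K, ℝ), f ∈ dom ↔ ∀ d, f.comp (psiK d) ∈ dom
  selfSim : ∀ f ∈ dom, ∀ g ∈ dom, E f g = ρ * ∑ d, E (f.comp (psiK d)) (g.comp (psiK d))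
  rx_inv : toRForm.Inv rxK
  sw_inv : toRForm.Inv swK

/-- the reflection `(x, y) ↦ (x, 1 - y)` -/
def ryK : C(K, K) := swK.comp (rxK.comp swK)

theorem SymForm.ry_inv (S : SymForm) : S.toRForm.Inv ryK := by
  refine ⟨fun f hf => ?_, fun f hf g hg => ?_⟩
  · have h1 := S.sw_inv.1 f hf
    have h2 := S.rx_inv.1 _ h1
    exact S.sw_inv.1 _ h2
  · have h1 := S.sw_inv.1 f hf
    have h2 := S.rx_inv.1 _ h1
    have k1 := S.sw_inv.1 g hg
    have k2 := S.rx_inv.1 _ k1
    have e := S.sw_inv.2 _ h2 _ k2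
    have e' := S.rx_inv.2 _ h1 _ k1
    have e'' := S.sw_inv.2 _ hf _ hg
    exact e.trans (e'.trans e'')

@[simp] theorem rxK_fst (z : K) : (rxK z).1.1 = 1 - z.1.1 := rfl
@[simp] theorem rxK_snd (z : K) : (rxK z).1.2 = z.1.2 := rfl
@[simp] theorem swK_fst (z : K) : (swK z).1.1 = z.1.2 := rfl
@[simp] theorem swK_snd (z : K) : (swK z).1.2 = z.1.1 := rfl
@[simp] theorem ryK_fst (z : K) : (ryK z).1.1 = z.1.1 := rfl
@[simp] theorem ryK_snd (z : K) : (ryK z).1.2 = 1 - z.1.2 := rfl

/-- the left and the right side of the square -/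
def LR : Set K := {z | z.1.1 = 0 ∨ z.1.1 = 1}

/-- the corners as points of the carpet -/
noncomputable def c00 : K := ⟨(0, 0), left_mem le_rfl zero_le_one⟩
noncomputable def c10 : K := ⟨(1, 0), right_mem le_rfl zero_le_one⟩
noncomputable def c01 : K := ⟨(0, 1), left_mem zero_le_one le_rfl⟩
noncomputable def c11 : K := ⟨(1, 1), right_mem zero_le_one le_rfl⟩

end CarpetLib
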