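import Pool.Agent.Lib.MP_f3090c_an.K.WordDefs

/-! K12: integer coordinates of cells, symmetries acting on words. -/

open Set Filter Topology

namespace CarpetLib

theorem psiW_fst (w : List Dig) (z : K) :
    (psiW w z).1.1 = (z.1.1 + ix w) / 3 ^ w.length := by
  induction w with
  | nil => simp [psiW, ix]
  | cons d w ih =>
    have h1 : (psiW (d :: w) z).1.1 = ((psiW w z).1.1 + (d.1.1 : ℕ)) / 3 := rfl
    rw [h1, ih, ix, List.length_cons]
    push_cast
    field_simp
    ring

theorem psiW_snd (w : List Dig) (z : K) :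
    (psiW w z).1.2 = (z.1.2 + iy w) / 3 ^ w.length := by
  induction w with
  | nil => simp [psiW, iy]
  | cons d w ih =>
    have h1 : (psiW (d :: w) z).1.2 = ((psiW w z).1.2 + (d.1.2 : ℕ)) / 3 := rfl
    rw [h1, ih, iy, List.length_cons]
    push_cast
    field_simp
    ring

theorem psiW_append (v w : List Dig) (z : K) : psiW (v ++ w) z = psiW v (psiW w z) := by
  induction v with
  | nil => rfl
  | cons d v ih =>
    change psiK d (psiW (v ++ w) z) = psiK d (psiW v (psiW w z))
    rw [ih]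

theorem rxK_psiW (w : List Dig) (z : K) : rxK (psiW w z) = psiW (w.map Dig.rx) (rxK z) := by
  induction w with
  | nil => rfl
  | cons d w ih =>
    change rxK (psiK d (psiW w z)) = psiK d.rx (psiW (w.map Dig.rx) (rxK z))
    rw [← ih]
    exact Subtype.ext (rxP_psi d _)

theorem swK_psiW (w : List Dig) (z : K) : swK (psiW w z) = psiW (w.map Dig.sw) (swK z) := by
  induction w with
  | nil => rfl
  | cons d w ih =>
    change swK (psiK d (psiW w z)) = psiK d.sw (psiW (w.map Dig.sw) (swK z))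
    rw [← ih]
    exact Subtype.ext (swP_psi d _)

theorem ix_lt (w : List Dig) : ix w < 3 ^ w.length := by
  induction w with
  | nil => simp [ix]
  | cons d w ih =>
    rw [ix, List.length_cons, pow_succ]
    have h : (d.1.1 : ℕ) ≤ 2 := by omega
    nlinarith

theorem iy_lt (w : List Dig) : iy w < 3 ^ w.length := by
  induction w with
  | nil => simp [iy]
  | cons d w ih =>
    rw [iy, List.length_cons, pow_succ]
    have h : (d.1.2 : ℕ) ≤ 2 := by omega
    nlinarith

theorem ix_rx (w : List Dig) : ix (w.map Dig.rx) + ix w + 1 = 3 ^ w.length := by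
  induction w with
  | nil => simp [ix]
  | cons d w ih =>
    rw [List.map_cons, ix, ix, List.length_cons, List.length_map, pow_succ]
    have h1 : ((d.rx.1.1 : Fin 3) : ℕ) = 2 - (d.1.1 : ℕ) := fin3_rev_cast _
    have h2 : (d.1.1 : ℕ) ≤ 2 := by omega
    rw [h1]
    obtain ⟨a, ha⟩ : ∃ a, (d.1.1 : ℕ) + a = 2 := ⟨2 - (d.1.1 : ℕ), by omega⟩
    have h3 : 2 - (d.1.1 : ℕ) = a := by omega
    rw [h3]
    calc a * 3 ^ w.length + ix (w.map Dig.rx) + ((d.1.1 : ℕ) * 3 ^ w.length + ix w) + 1 =
        ((d.1.1 : ℕ) + a) * 3 ^ w.length + (ix (w.map Dig.rx) + ix w + 1) := by ring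
      _ = 3 ^ w.length * 3 := by rw [ha, ih]; ring

theorem iy_rx (w : List Dig) : iy (w.map Dig.rx) = iy w := by
  induction w with
  | nil => rfl
  | cons d w ih =>
    rw [List.map_cons, iy, iy, ih, List.length_map]
    rfl

theorem ix_sw (w : List Dig) : ix (w.map Dig.sw) = iy w := by
  induction w with
  | nil => rfl
  | cons d w ih =>
    rw [List.map_cons, ix, iy, ih, List.length_map]
    rfl

theorem iy_sw (w : List Dig) : iy (w.map Dig.sw) = ix w := by
  induction w with
  | nil => rfl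
  | cons d w ih =>
    rw [List.map_cons, ix, iy, ih, List.length_map]
    rfl

theorem ix_ry (w : List Dig) : ix (ryW w) = ix w := by
  rw [ryW, ix_sw, iy_rx, iy_sw]

theorem iy_ry (w : List Dig) : iy (ryW w) + iy w + 1 = 3 ^ w.length := by
  have h := ix_rx (w.map Dig.sw)
  rw [List.length_map, ix_sw] at h
  rw [ryW, iy_sw]
  exact h

theorem ryW_length (w : List Dig) : (ryW w).length = w.length := by simp [ryW]

/-- Up to reflections in `x = 1/2` and `y = 1/2` each cell straddles one of these lines, or the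
diagonal, or lies in one of the triangles `y ≤ x ≤ 1/2`, `x ≤ y ≤ 1/2`. -/
theorem classify (P : List Dig → Prop) (hrx : ∀ w, P w → P (w.map Dig.rx))
    (hry : ∀ w, P w → P (ryW w)) {w : List Dig} (hw : P w) :
    ∃ w', P w' ∧ w'.length = w.length ∧ (2 * ix w' + 1 = 3 ^ w'.length ∨
      2 * iy w' + 1 = 3 ^ w'.length ∨ ix w' = iy w' ∨
      (iy w' < ix w' ∧ 2 * ix w' + 1 < 3 ^ w'.length) ∨
      (ix w' < iy w' ∧ 2 * iy w' + 1 < 3 ^ w'.length)) := by
  -- first reflection
  obtain ⟨w1, hP1, hl1, h1⟩ : ∃ w1, P w1 ∧ w1.length = w.length ∧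
      2 * ix w1 + 1 ≤ 3 ^ w1.length := by
    by_cases h : 2 * ix w + 1 ≤ 3 ^ w.length
    · exact ⟨w, hw, rfl, h⟩
    · refine ⟨w.map Dig.rx, hrx w hw, List.length_map _, ?_⟩
      have := ix_rx w
      rw [List.length_map]
      omega
  obtain ⟨w2, hP2, hl2, h2, h2'⟩ : ∃ w2, P w2 ∧ w2.length = w.length ∧
      2 * ix w2 + 1 ≤ 3 ^ w2.length ∧ 2 * iy w2 + 1 ≤ 3 ^ w2.length := by
    by_cases h : 2 * iy w1 + 1 ≤ 3 ^ w1.length
    · exact ⟨w1, hP1, hl1, h1, h⟩
    · refine ⟨ryW w1, hry w1 hP1, (ryW_length w1).trans hl1, ?_, ?_⟩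
      · rw [ix_ry, ryW_length]
        exact h1
      · have := iy_ry w1
        rw [ryW_length]
        omega
  refine ⟨w2, hP2, hl2, ?_⟩
  omega

/-- in the last case the first digit is `(0,0)` or `(1,0)` -/
theorem first_digit {d : Dig} {w : List Dig} (h1 : iy (d :: w) < ix (d :: w))
    (h2 : 2 * ix (d :: w) + 1 < 3 ^ (d :: w).length) :
    d.1 = (0, 0) ∨ d.1 = (1, 0) := by
  obtain ⟨⟨a, b⟩, hab⟩ := d
  rw [ix, iy] at h1
  rw [ix, List.length_cons, pow_succ] at h2
  have hx := ix_lt w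
  simp only at h1 h2
  have key : ((a : ℕ) = 0 ∨ (a : ℕ) = 1) ∧ (b : ℕ) ≤ (a : ℕ) := by
    constructor
    · have : (a : ℕ) < 2 := by
        by_contra hcon
        have h3 : 2 ≤ (a : ℕ) := by omega
        nlinarith
      omega
    · by_contra hcon
      have h3 : (a : ℕ) + 1 ≤ (b : ℕ) := by omega
      nlinarith
  revert hab key
  clear h1 h2 hx
  revert a b
  decide

end CarpetLib
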