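import Pool.Agent.Lib.MP_f3090c_an.K.DeadDefs
import Pool.Agent.Lib.MP_f3090c_an.K.Words

/-! K13. -/

open Set Filter Topology

namespace CarpetLib

private theorem rxK_rxK (z : K) : rxK (rxK z) = z := by
  apply Subtype.ext
  refine Prod.ext ?_ ?_
  · rw [rxK_fst, rxK_fst]; ring
  · rw [rxK_snd, rxK_snd]

private theorem ryK_ryK (z : K) : ryK (ryK z) = z := by
  apply Subtype.ext
  refine Prod.ext ?_ ?_
  · rw [ryK_fst, ryK_fst]
  · rw [ryK_snd, ryK_snd]; ring

private theorem swK_swK (z : K) : swK (swK z) = z := by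
  apply Subtype.ext
  refine Prod.ext ?_ ?_
  · rw [swK_fst, swK_snd]
  · rw [swK_snd, swK_fst]

private theorem insep_inv (S : SymForm) (σ : C(K, K)) (hσ : S.toRForm.Inv σ)
    (hinv : ∀ z, σ (σ z) = z) (hLR : ∀ z ∈ LR, σ z ∈ LR) {x x' : K} (h : S.Insep LR x x') :
    S.Insep LR (σ x) (σ x') := by
  obtain ⟨u, hu, hE⟩ := h
  refine ⟨u.comp σ, ⟨hσ.1 u hu.1, fun z hz => hu.2 _ (hLR z hz)⟩, fun f hf => ?_⟩
  have e1 : (f.comp σ).comp σ = f := by
    ext z
    exact congrArg f (hinv z)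
  have e2 := hσ.2 u hu.1 _ (hσ.1 f hf)
  rw [e1] at e2
  rw [e2, hE _ (hσ.1 f hf)]
  rfl

/-- K13a -/
theorem insep_rx (S : SymForm) {x x' : K} (h : S.Insep LR x x') :
    S.Insep LR (rxK x) (rxK x') := by
  refine insep_inv S rxK S.rx_inv rxK_rxK (fun z hz => ?_) h
  rcases hz with hz | hz
  · right
    rw [rxK_fst, hz]; ring
  · left
    rw [rxK_fst, hz]; ring

/-- K13b -/
theorem insep_ry (S : SymForm) {x x' : K} (h : S.Insep LR x x') :
    S.Insep LR (ryK x) (ryK x') := by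
  refine insep_inv S ryK S.ry_inv ryK_ryK (fun z hz => ?_) h
  rcases hz with hz | hz
  · left
    rw [ryK_fst, hz]
  · right
    rw [ryK_fst, hz]

/-- K13c -/
theorem dead_rx (S : SymForm) {w : List Dig} (h : Dead S w) : Dead S (w.map Dig.rx) := by
  have key : ∀ z, psiW (w.map Dig.rx) z = rxK (psiW w (rxK z)) := fun z => by
    rw [rxK_psiW, rxK_rxK]
  intro z z'
  rw [key z, key z']
  exact insep_rx S (h _ _)

private theorem ryK_eq (z : K) : ryK z = swK (rxK (swK z)) := rfl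

/-- K13d -/
theorem dead_ry (S : SymForm) {w : List Dig} (h : Dead S w) : Dead S (ryW w) := by
  have key : ∀ z, psiW (ryW w) z = ryK (psiW w (ryK z)) := fun z => by
    rw [ryK_eq (psiW w (ryK z)), swK_psiW, rxK_psiW, swK_psiW, ← ryK_eq, ryK_ryK]
    rfl
  intro z z'
  rw [key z, key z']
  exact insep_ry S (h _ _)

end CarpetLib
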