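import Pool.Agent.Lib.MP_f3090c_an.K.Full

/-! K01: full lines contained in the carpet. -/

open Set Filter Topology

namespace CarpetLib

private theorem lines_pre_unit {n : ℕ} {p : ℝ × ℝ} (hp : p ∈ pre n) : p ∈ unitSq :=
  pre_anti (Nat.zero_le n) hp

private theorem lines_mem_succ {n : ℕ} (k j : Fin 3) (h : (k, j) ≠ (1, 1)) {q p : ℝ × ℝ}
    (hq : q ∈ pre n) (h1 : 3 * p.1 = q.1 + (k : ℕ)) (h2 : 3 * p.2 = q.2 + (j : ℕ)) :
    p ∈ pre (n + 1) := by
  rw [pre]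
  refine mem_iUnion.2 ⟨⟨(k, j), h⟩, q, hq, ?_⟩
  simp only [psi]
  exact Prod.ext (by show (q.1 + _) / 3 = p.1; linarith) (by show (q.2 + _) / 3 = p.2; linarith)

private theorem lines_of_succ {n : ℕ} {p : ℝ × ℝ} (hp : p ∈ pre (n + 1)) :
    ∃ (k j : Fin 3) (q : ℝ × ℝ), (k, j) ≠ (1, 1) ∧ q ∈ pre n ∧ 3 * p.1 = q.1 + (k : ℕ) ∧
      3 * p.2 = q.2 + (j : ℕ) := by
  rw [pre] at hp
  simp only [mem_iUnion] at hp
  obtain ⟨⟨⟨k, j⟩, hd⟩, q, hq, rfl⟩ := hp
  refine ⟨k, j, q, hd, hq, ?_, ?_⟩ <;> simp only [psi] <;> ring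

private theorem lines_right_pre (n : ℕ) {y : ℝ} (h0 : 0 ≤ y) (h1 : y ≤ 1) : ((1 : ℝ), y) ∈ pre n := by
  have := rxP_pre n (left_mem_pre n h0 h1)
  simpa [rxP] using this

private theorem lines_one_third (n : ℕ) {s y : ℝ} (hs : 3 * s = 1) (h0 : 0 ≤ y) (h1 : y ≤ 1) :
    (s, y) ∈ pre (n + 1) := by
  obtain ⟨j, hj0, hj1⟩ := exists_dig h0 h1
  exact lines_mem_succ 0 j (by simp) (lines_right_pre n hj0 hj1) (by simp [hs]) (by simp)

private theorem lines_two_third (n : ℕ) {s y : ℝ} (hs : 3 * s = 2) (h0 : 0 ≤ y) (h1 : y ≤ 1) :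
    (s, y) ∈ pre (n + 1) := by
  obtain ⟨j, hj0, hj1⟩ := exists_dig h0 h1
  exact lines_mem_succ 2 j (by simp) (left_mem_pre n hj0 hj1) (by simp [hs]) (by simp)

private theorem lines_diag (n : ℕ) : ∀ s : ℝ, (s, s) ∈ pre n → ∀ y, 0 ≤ y → y ≤ 1 → (s, y) ∈ pre n := by
  induction n with
  | zero =>
    intro s hs y h0 h1
    exact ⟨hs.1, h0, h1⟩
  | succ n ih =>
    intro s hs y h0 h1
    obtain ⟨k, j, q, hkj, hq, e1, e2⟩ := lines_of_succ hs
    obtain ⟨⟨a0, a1⟩, b0, b1⟩ := lines_pre_unit hq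
    simp only at e1 e2
    have hcase : (k : ℕ) = j ∨ (k : ℕ) = j + 1 ∨ (j : ℕ) = k + 1 := by
      have h3 : ((k : ℕ) : ℝ) ≤ ((j + 1 : ℕ) : ℝ) := by push_cast; linarith
      have h4 : ((j : ℕ) : ℝ) ≤ ((k + 1 : ℕ) : ℝ) := by push_cast; linarith
      have h5 : (k : ℕ) ≤ (j : ℕ) + 1 := by exact_mod_cast h3
      have h6 : (j : ℕ) ≤ (k : ℕ) + 1 := by exact_mod_cast h4
      omega
    rcases hcase with h | h | h
    · have hkj' : k = j := Fin.ext h
      subst hkj'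
      have hk1 : k ≠ 1 := by rintro rfl; exact hkj rfl
      have hq' : (q.1, q.1) ∈ pre n := by
        have : q.2 = q.1 := by linarith
        have h7 : q = (q.1, q.1) := Prod.ext rfl this
        rw [← h7]; exact hq
      obtain ⟨i, hi0, hi1⟩ := exists_dig h0 h1
      refine lines_mem_succ k i ?_ (ih q.1 hq' _ hi0 hi1) e1 (by simp)
      intro h8
      exact hk1 (Prod.mk.inj h8).1
    · have h7 : ((k : ℕ) : ℝ) = ((j : ℕ) : ℝ) + 1 := by rw [h]; push_cast; ring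
      have h8 : q.1 = 0 := by linarith
      have h9 : (k : ℕ) = 1 ∨ (k : ℕ) = 2 := by omega
      rcases h9 with h9 | h9
      · refine lines_one_third n ?_ h0 h1
        rw [e1, h8, h9]; norm_num
      · refine lines_two_third n ?_ h0 h1
        rw [e1, h8, h9]; norm_num
    · have h7 : ((j : ℕ) : ℝ) = ((k : ℕ) : ℝ) + 1 := by rw [h]; push_cast; ring
      have h8 : q.2 = 0 := by linarith
      have h9 : (j : ℕ) = 1 ∨ (j : ℕ) = 2 := by omega
      rcases h9 with h9 | h9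
      · refine lines_one_third n ?_ h0 h1
        rw [e2, h8, h9]; norm_num
      · refine lines_two_third n ?_ h0 h1
        rw [e2, h8, h9]; norm_num

private theorem lines_mid (n : ℕ) : ∀ s : ℝ, ((1:ℝ)/2, s) ∈ pre n → ∀ x, 0 ≤ x → x ≤ 1 → (x, s) ∈ pre n := by
  induction n with
  | zero =>
    intro s hs x h0 h1
    exact ⟨⟨h0, h1⟩, hs.2⟩
  | succ n ih =>
    intro s hs x h0 h1
    obtain ⟨k, j, q, hkj, hq, e1, e2⟩ := lines_of_succ hs
    obtain ⟨⟨a0, a1⟩, b0, b1⟩ := lines_pre_unit hq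
    simp only at e1 e2
    have hk1 : (k : ℕ) = 1 := by
      have h3 : ((k : ℕ) : ℝ) < ((2 : ℕ) : ℝ) := by push_cast; linarith
      have h4 : ((0 : ℕ) : ℝ) < ((k : ℕ) : ℝ) := by push_cast; linarith
      have h5 : (k : ℕ) < 2 := by exact_mod_cast h3
      have h6 : 0 < (k : ℕ) := by exact_mod_cast h4
      omega
    have hq' : ((1:ℝ)/2, q.2) ∈ pre n := by
      rw [hk1] at e1
      have h7 : q = ((1:ℝ)/2, q.2) := Prod.ext (by push_cast at e1; show q.1 = 1 / 2; linarith) rfl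
      rw [← h7]; exact hq
    have hj1 : j ≠ 1 := by
      rintro rfl
      have : k = 1 := Fin.ext hk1
      exact hkj (by rw [this])
    obtain ⟨i, hi0, hi1⟩ := exists_dig h0 h1
    refine lines_mem_succ i j ?_ (ih q.2 hq' _ hi0 hi1) (by simp) e2
    intro h8
    exact hj1 (Prod.mk.inj h8).2

/-- diagonal points of the carpet have full coordinate -/
theorem full_of_diag {s : ℝ} (h : (s, s) ∈ carpet) : Full s :=
  ⟨(carpet_subset_unitSq h).1.1, (carpet_subset_unitSq h).1.2, fun y h0 h1 =>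
    mem_iInter.2 fun n => lines_diag n s (mem_iInter.1 h n) y h0 h1⟩

/-- points of the carpet on the line `x = 1/2` have full ordinate -/
theorem full_of_mid {s : ℝ} (h : ((1:ℝ)/2, s) ∈ carpet) : Full s := by
  refine ⟨(carpet_subset_unitSq h).2.1, (carpet_subset_unitSq h).2.2, fun y h0 h1 => ?_⟩
  have : (y, s) ∈ carpet := mem_iInter.2 fun n => lines_mid n s (mem_iInter.1 h n) y h0 h1
  have := swP_carpet this
  simpa [swP] using this

private theorem lines_carpet_of_succ {p : ℝ × ℝ} (h : ∀ n, p ∈ pre (n + 1)) : p ∈ carpet :=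
  mem_iInter.2 fun n => pre_succ_subset n (h n)

/-- `k / 3` is full for `k = 0, 1, 2, 3` -/
theorem full_third (k : ℕ) (hk : k ≤ 3) : Full ((k:ℝ) / 3) := by
  interval_cases k
  · simpa using full_zero
  · refine ⟨by norm_num, by norm_num, fun y h0 h1 => ?_⟩
    exact lines_carpet_of_succ fun n => lines_one_third n (by norm_num) h0 h1
  · refine ⟨by norm_num, by norm_num, fun y h0 h1 => ?_⟩
    exact lines_carpet_of_succ fun n => lines_two_third n (by norm_num) h0 h1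
  · have : ((3 : ℕ) : ℝ) / 3 = 1 := by norm_num
    rw [this]; exact full_one

/-- the segment `{4/9} × [0, 1/3]` lies in the carpet -/
theorem four_ninth {y : ℝ} (h0 : 0 ≤ y) (h1 : y ≤ 1 / 3) : ((4:ℝ) / 9, y) ∈ carpet := by
  have h := (full_third 1 (by norm_num)).2.2 (3 * y) (by linarith) (by linarith)
  have h2 := psi_mem_carpet ⟨(1, 0), by simp⟩ h
  have e : psi ⟨(1, 0), by simp⟩ (((1 : ℕ) : ℝ) / 3, 3 * y) = ((4:ℝ) / 9, y) := by
    simp only [psi]
    refine Prod.ext ?_ ?_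
    · norm_num
    · show (3 * y + ((0 : Fin 3) : ℕ)) / 3 = y
      norm_num
  rw [e] at h2
  exact h2

/-- the open central square contains no point of the carpet -/
theorem hole {p : ℝ × ℝ} (hp : p ∈ carpet) :
    ¬ (1 / 3 < p.1 ∧ p.1 < 2 / 3 ∧ 1 / 3 < p.2 ∧ p.2 < 2 / 3) := by
  rintro ⟨h1, h2, h3, h4⟩
  obtain ⟨k, j, q, hkj, hq, e1, e2⟩ := lines_of_succ (mem_iInter.1 hp 1)
  obtain ⟨⟨a0, a1⟩, b0, b1⟩ := lines_pre_unit hq
  have hk : (k : ℕ) = 1 := by
    have h5 : ((k : ℕ) : ℝ) < ((2 : ℕ) : ℝ) := by push_cast; linarith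
    have h6 : ((0 : ℕ) : ℝ) < ((k : ℕ) : ℝ) := by push_cast; linarith
    have h7 : (k : ℕ) < 2 := by exact_mod_cast h5
    have h8 : 0 < (k : ℕ) := by exact_mod_cast h6
    omega
  have hj : (j : ℕ) = 1 := by
    have h5 : ((j : ℕ) : ℝ) < ((2 : ℕ) : ℝ) := by push_cast; linarith
    have h6 : ((0 : ℕ) : ℝ) < ((j : ℕ) : ℝ) := by push_cast; linarith
    have h7 : (j : ℕ) < 2 := by exact_mod_cast h5
    have h8 : 0 < (j : ℕ) := by exact_mod_cast h6
    omega
  exact hkj (Prod.ext (Fin.ext hk) (Fin.ext hj))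

/-- no point of the carpet on the diagonal has coordinate in `(1/3, 2/3)`; similarly on `x = 1/2` -/
theorem mid_gap {s : ℝ} (h : ((1:ℝ)/2, s) ∈ carpet) : s ≤ 1 / 3 ∨ 2 / 3 ≤ s := by
  by_contra hc
  push Not at hc
  exact hole h ⟨by norm_num, by norm_num, hc.1, hc.2⟩

theorem diag_gap {s : ℝ} (h : (s, s) ∈ carpet) : s ≤ 1 / 3 ∨ 2 / 3 ≤ s := by
  by_contra hc
  push Not at hc
  exact hole h ⟨hc.1, hc.2, hc.1, hc.2⟩

end CarpetLib
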