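import Pool.Agent.Lib.MP_f3090c_an.K.DeadDefs
import Pool.Agent.Lib.MP_f3090c_an.K.Words
import Pool.Agent.Lib.MP_f3090c_an.K.Lines
import Pool.Agent.Lib.MP_f3090c_an.R.AliveR

/-! K14abc. -/

open Set Filter Topology

namespace CarpetLib

private theorem notDead_hseg {s a b : ℝ} (hs : Full s) (ha : 0 ≤ a) (hb : b ≤ 1) :
    IsPreconnected {z : K | (a ≤ z.1.1 ∧ z.1.1 ≤ b) ∧ z.1.2 = s} := by
  haveI : PreconnectedSpace (Icc a b) := Subtype.preconnectedSpace isPreconnected_Icc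
  let f : Icc a b → K := fun t =>
    ⟨(t.1, s), hs.mem_left (ha.trans t.2.1) (t.2.2.trans hb)⟩
  have hf : Continuous f := by
    apply Continuous.subtype_mk
    fun_prop
  have h := isPreconnected_range hf
  have e : range f = {z : K | (a ≤ z.1.1 ∧ z.1.1 ≤ b) ∧ z.1.2 = s} := by
    ext z
    constructor
    · rintro ⟨t, rfl⟩
      exact ⟨t.2, rfl⟩
    · rintro ⟨h1, h2⟩
      exact ⟨⟨z.1.1, h1⟩, Subtype.ext (Prod.ext rfl h2.symm)⟩
  rwa [e] at h

private theorem notDead_vseg {s a b : ℝ} (hs : Full s) (ha : 0 ≤ a) (hb : b ≤ 1) :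
    IsPreconnected {z : K | z.1.1 = s ∧ (a ≤ z.1.2 ∧ z.1.2 ≤ b)} := by
  haveI : PreconnectedSpace (Icc a b) := Subtype.preconnectedSpace isPreconnected_Icc
  let f : Icc a b → K := fun t =>
    ⟨(s, t.1), hs.2.2 t.1 (ha.trans t.2.1) (t.2.2.trans hb)⟩
  have hf : Continuous f := by
    apply Continuous.subtype_mk
    fun_prop
  have h := isPreconnected_range hf
  have e : range f = {z : K | z.1.1 = s ∧ (a ≤ z.1.2 ∧ z.1.2 ≤ b)} := by
    ext z
    constructor
    · rintro ⟨t, rfl⟩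
      exact ⟨rfl, t.2⟩
    · rintro ⟨h1, h2⟩
      exact ⟨⟨z.1.2, h2⟩, Subtype.ext (Prod.ext h1.symm rfl)⟩
  rwa [e] at h

private theorem notDead_cx : Continuous fun z : K => z.1.1 := by fun_prop
private theorem notDead_cy : Continuous fun z : K => z.1.2 := by fun_prop

private theorem notDead_pos (w : List Dig) : (0 : ℝ) < 3 ^ w.length := by positivity

/-- K14a -/
theorem not_dead_midx (S : SymForm) {w : List Dig} (h : 2 * ix w + 1 = 3 ^ w.length) :
    ¬ Dead S w := by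
  intro hD
  have hn := notDead_pos w
  have hR : 2 * (ix w : ℝ) + 1 = 3 ^ w.length := by exact_mod_cast h
  have hy := iy_lt w
  have hyR : (iy w : ℝ) < 3 ^ w.length := by exact_mod_cast hy
  set s : ℝ := iy w / 3 ^ w.length with hs
  set a : ℝ := ix w / 3 ^ w.length with ha
  have hs0 : 0 ≤ s := by positivity
  have hs1 : s ≤ 1 := by rw [hs, div_le_one hn]; exact hyR.le
  have ha0 : 0 ≤ a := by positivity
  have ha1 : a < 1 / 2 := by
    rw [ha, div_lt_iff₀ hn]
    linarith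
  have hFull : Full s := by
    apply full_of_mid
    have h1 := (psiW w ⟨(1 / 2, 0), bot_mem (by norm_num) (by norm_num)⟩).2
    have e : (psiW w ⟨(1 / 2, 0), bot_mem (by norm_num) (by norm_num)⟩).1 = ((1 : ℝ) / 2, s) := by
      refine Prod.ext ?_ ?_
      · rw [psiW_fst]
        show (1 / 2 + (ix w : ℝ)) / 3 ^ w.length = 1 / 2
        rw [div_eq_iff hn.ne']
        linarith
      · rw [psiW_snd]
        show (0 + (iy w : ℝ)) / 3 ^ w.length = s
        rw [zero_add]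
    rw [e] at h1
    exact h1
  have hp1 : (psiW w c00).1.1 = a := by
    rw [psiW_fst]
    show (0 + (ix w : ℝ)) / 3 ^ w.length = a
    rw [zero_add]
  have hp2 : (psiW w c00).1.2 = s := by
    rw [psiW_snd]
    show (0 + (iy w : ℝ)) / 3 ^ w.length = s
    rw [zero_add]
  have hσp : rxK (psiW w c00) = psiW w c10 := by
    apply Subtype.ext
    refine Prod.ext ?_ ?_
    · rw [rxK_fst, psiW_fst, psiW_fst]
      show 1 - (0 + (ix w : ℝ)) / 3 ^ w.length = (1 + (ix w : ℝ)) / 3 ^ w.length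
      rw [← hR] at hn ⊢
      field_simp
      ring
    · rw [rxK_snd, psiW_snd, psiW_snd]
      rfl
  have hins := hD c00 c10
  rw [← hσp] at hins
  refine S.toRForm.alive (σ := rxK) (O := {z : K | z.1.1 < 1 / 2}) (V := LR)
    (C := {z : K | (0 ≤ z.1.1 ∧ z.1.1 ≤ a) ∧ z.1.2 = s}) (p := psiW w c00)
    (e := ⟨(0, s), left_mem hs0 hs1⟩) ?_ S.rx_inv ?_ ?_ ?_ ?_ ?_ ?_ ?_ ?_ ?_ hins
  · intro z
    apply Subtype.ext
    exact Prod.ext (by rw [rxK_fst, rxK_fst]; ring) rfl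
  · exact isOpen_lt notDead_cx continuous_const
  · intro z hz hz'
    simp only [mem_setOf_eq, rxK_fst] at hz hz'
    linarith
  · intro z hz
    have h1 : z.1.1 = 1 / 2 := frontier_lt_subset_eq notDead_cx continuous_const hz
    apply Subtype.ext
    exact Prod.ext (by rw [rxK_fst, h1]; norm_num) rfl
  · exact ⟨c00, Or.inl rfl, Or.inr (by rw [rxK_fst]; show (1 : ℝ) - 0 = 1; norm_num)⟩
  · exact notDead_hseg hFull le_rfl (by linarith)
  · rintro z ⟨⟨_, h1⟩, _⟩
    exact lt_of_le_of_lt h1 ha1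
  · exact ⟨⟨by rw [hp1]; exact ha0, by rw [hp1]⟩, hp2⟩
  · exact ⟨⟨le_rfl, ha0⟩, rfl⟩
  · exact Or.inl rfl

/-- K14b -/
theorem not_dead_midy (S : SymForm) {w : List Dig} (h : 2 * iy w + 1 = 3 ^ w.length) :
    ¬ Dead S w := by
  intro hD
  have hn := notDead_pos w
  have hR : 2 * (iy w : ℝ) + 1 = 3 ^ w.length := by exact_mod_cast h
  have hx := ix_lt w
  have hxR : (ix w : ℝ) < 3 ^ w.length := by exact_mod_cast hx
  set s : ℝ := ix w / 3 ^ w.length with hs
  set a : ℝ := iy w / 3 ^ w.length with ha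
  have hs0 : 0 ≤ s := by positivity
  have hs1 : s ≤ 1 := by rw [hs, div_le_one hn]; exact hxR.le
  have ha0 : 0 ≤ a := by positivity
  have ha1 : a < 1 / 2 := by
    rw [ha, div_lt_iff₀ hn]
    linarith
  have hFull : Full s := by
    apply full_of_mid
    have h1 := swP_carpet (psiW w ⟨(0, 1 / 2), left_mem (by norm_num) (by norm_num)⟩).2
    have e : swP (psiW w ⟨(0, 1 / 2), left_mem (by norm_num) (by norm_num)⟩).1 =
        ((1 : ℝ) / 2, s) := by
      refine Prod.ext ?_ ?_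
      · show (psiW w ⟨(0, 1 / 2), left_mem (by norm_num) (by norm_num)⟩).1.2 = 1 / 2
        rw [psiW_snd]
        show (1 / 2 + (iy w : ℝ)) / 3 ^ w.length = 1 / 2
        rw [div_eq_iff hn.ne']
        linarith
      · show (psiW w ⟨(0, 1 / 2), left_mem (by norm_num) (by norm_num)⟩).1.1 = s
        rw [psiW_fst]
        show (0 + (ix w : ℝ)) / 3 ^ w.length = s
        rw [zero_add]
    rw [e] at h1
    exact h1
  have hp1 : (psiW w c00).1.1 = s := by
    rw [psiW_fst]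
    show (0 + (ix w : ℝ)) / 3 ^ w.length = s
    rw [zero_add]
  have hp2 : (psiW w c00).1.2 = a := by
    rw [psiW_snd]
    show (0 + (iy w : ℝ)) / 3 ^ w.length = a
    rw [zero_add]
  have hσp : ryK (psiW w c00) = psiW w c01 := by
    apply Subtype.ext
    refine Prod.ext ?_ ?_
    · rw [ryK_fst, psiW_fst, psiW_fst]
      rfl
    · rw [ryK_snd, psiW_snd, psiW_snd]
      show 1 - (0 + (iy w : ℝ)) / 3 ^ w.length = (1 + (iy w : ℝ)) / 3 ^ w.length
      rw [← hR] at hn ⊢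
      field_simp
      ring
  have hins := hD c00 c01
  rw [← hσp] at hins
  refine S.toRForm.alive (σ := ryK) (O := {z : K | z.1.2 < 1 / 2}) (V := LR)
    (C := {z : K | z.1.1 = s ∧ (0 ≤ z.1.2 ∧ z.1.2 ≤ a)} ∪
      {z : K | (0 ≤ z.1.1 ∧ z.1.1 ≤ s) ∧ z.1.2 = 0}) (p := psiW w c00)
    (e := c00) ?_ S.ry_inv ?_ ?_ ?_ ?_ ?_ ?_ ?_ ?_ ?_ hins
  · intro z
    apply Subtype.ext
    exact Prod.ext rfl (by rw [ryK_snd, ryK_snd]; ring)
  · exact isOpen_lt notDead_cy continuous_const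
  · intro z hz hz'
    simp only [mem_setOf_eq, ryK_snd] at hz hz'
    linarith
  · intro z hz
    have h1 : z.1.2 = 1 / 2 := frontier_lt_subset_eq notDead_cy continuous_const hz
    apply Subtype.ext
    exact Prod.ext rfl (by rw [ryK_snd, h1]; norm_num)
  · exact ⟨c00, Or.inl rfl, Or.inl rfl⟩
  · have hmem : ((s, 0) : ℝ × ℝ) ∈ carpet := bot_mem hs0 hs1
    exact (notDead_vseg hFull le_rfl (by linarith)).union (⟨(s, 0), hmem⟩ : K)
      ⟨rfl, le_rfl, ha0⟩ ⟨⟨hs0, le_rfl⟩, rfl⟩ (notDead_hseg full_zero le_rfl hs1)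
  · rintro z (⟨_, _, h1⟩ | ⟨_, h1⟩)
    · exact lt_of_le_of_lt h1 ha1
    · show z.1.2 < 1 / 2
      rw [h1]; norm_num
  · exact Or.inl ⟨hp1, by rw [hp2]; exact ha0, by rw [hp2]⟩
  · exact Or.inr ⟨⟨le_rfl, hs0⟩, rfl⟩
  · exact Or.inl rfl

/-- K14c -/
theorem not_dead_diag (S : SymForm) {w : List Dig} (h : ix w = iy w) : ¬ Dead S w := by
  intro hD
  have hn := notDead_pos w
  have hx := ix_lt w
  have hxR : (ix w : ℝ) + 1 ≤ 3 ^ w.length := by exact_mod_cast hx
  set s : ℝ := ix w / 3 ^ w.length with hs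
  set a : ℝ := (ix w + 1) / 3 ^ w.length with ha
  have hs0 : 0 ≤ s := by positivity
  have hsa : s < a := by
    rw [hs, ha]
    gcongr
    linarith
  have ha1 : a ≤ 1 := by rw [ha, div_le_one hn]; exact hxR
  have hs1 : s ≤ 1 := hsa.le.trans ha1
  have hFull : Full s := by
    apply full_of_diag
    have h1 := (psiW w c00).2
    have e : (psiW w c00).1 = (s, s) := by
      refine Prod.ext ?_ ?_
      · rw [psiW_fst]
        show (0 + (ix w : ℝ)) / 3 ^ w.length = s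
        rw [zero_add]
      · rw [psiW_snd]
        show (0 + (iy w : ℝ)) / 3 ^ w.length = s
        rw [zero_add, ← h]
    rw [e] at h1
    exact h1
  have hp1 : (psiW w c10).1.1 = a := by
    rw [psiW_fst]
    show (1 + (ix w : ℝ)) / 3 ^ w.length = a
    rw [add_comm]
  have hp2 : (psiW w c10).1.2 = s := by
    rw [psiW_snd]
    show (0 + (iy w : ℝ)) / 3 ^ w.length = s
    rw [zero_add, ← h]
  have hσp : swK (psiW w c10) = psiW w c01 := by
    apply Subtype.ext
    refine Prod.ext ?_ ?_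
    · rw [swK_fst, psiW_fst, psiW_snd]
      show (0 + (iy w : ℝ)) / 3 ^ w.length = (0 + (ix w : ℝ)) / 3 ^ w.length
      rw [h]
    · rw [swK_snd, psiW_snd, psiW_fst]
      show (1 + (ix w : ℝ)) / 3 ^ w.length = (1 + (iy w : ℝ)) / 3 ^ w.length
      rw [h]
  have hins := hD c10 c01
  rw [← hσp] at hins
  refine S.toRForm.alive (σ := swK) (O := {z : K | z.1.2 < z.1.1}) (V := LR)
    (C := {z : K | (a ≤ z.1.1 ∧ z.1.1 ≤ 1) ∧ z.1.2 = s}) (p := psiW w c10)
    (e := ⟨(1, s), right_mem hs0 hs1⟩) ?_ S.sw_inv ?_ ?_ ?_ ?_ ?_ ?_ ?_ ?_ ?_ hins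
  · intro z
    rfl
  · exact isOpen_lt notDead_cy notDead_cx
  · intro z hz hz'
    simp only [mem_setOf_eq, swK_fst, swK_snd] at hz hz'
    linarith
  · intro z hz
    have h1 : z.1.2 = z.1.1 := frontier_lt_subset_eq notDead_cy notDead_cx hz
    apply Subtype.ext
    exact Prod.ext (by rw [swK_fst, h1]) (by rw [swK_snd, h1])
  · exact ⟨c00, Or.inl rfl, Or.inl rfl⟩
  · exact notDead_hseg hFull (hs0.trans hsa.le) le_rfl
  · rintro z ⟨⟨h1, _⟩, h2⟩
    show z.1.2 < z.1.1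
    rw [h2]
    exact lt_of_lt_of_le hsa h1
  · exact ⟨⟨by rw [hp1], by rw [hp1]; exact ha1⟩, hp2⟩
  · exact ⟨⟨ha1, le_rfl⟩, rfl⟩
  · exact Or.inr rfl

end CarpetLib
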