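import Pool.Agent.Lib.MP_f3090c_an.K.DeadTail
import Pool.Agent.Lib.MP_f3090c_an.K.NotDead
import Pool.Agent.Lib.MP_f3090c_an.K.DeadSym

/-! K15. -/

open Set Filter Topology

namespace CarpetLib

/-- K15: no cell is dead -/
theorem not_dead (S : SymForm) (w : List Dig) : ¬ Dead S w := by
  induction hn : w.length generalizing w with
  | zero =>
    intro h
    have : w = [] := List.length_eq_zero_iff.1 hn
    subst this
    exact not_dead_midx S (by simp [ix]) h
  | succ n ih =>
    intro h
    obtain ⟨w', hw', hlen, hcase⟩ := classify (Dead S) (fun w h => dead_rx S h)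
      (fun w h => dead_ry S h) h
    rcases hcase with h1 | h1 | h1 | ⟨h1, h2⟩ | ⟨h1, h2⟩
    · exact not_dead_midx S h1 hw'
    · exact not_dead_midy S h1 hw'
    · exact not_dead_diag S h1 hw'
    · cases w' with
      | nil => simp at hlen; omega
      | cons d v =>
        have hl : v.length = n := by simp at hlen; omega
        exact ih v hl (dead_tail S h1 h2 hw')
    · cases w' with
      | nil => simp at hlen; omega
      | cons d v =>
        have hl : (v.map Dig.sw).length = n := by simp at hlen ⊢; omega
        exact ih _ hl (dead_tail' S h1 h2 hw')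

end CarpetLib
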