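import Mathlib

/-!
# The standard Sierpinski carpet in `ℝ × ℝ`
-/

open Set Filter Topology

namespace CarpetLib

/-- The eight digits: pairs in `{0,1,2}²` different from `(1,1)`. -/
abbrev Dig : Type := {d : Fin 3 × Fin 3 // d ≠ (1, 1)}

/-- The contraction `ψ_d (p) = (p + d) / 3`. -/
noncomputable def psi (d : Dig) (p : ℝ × ℝ) : ℝ × ℝ :=
  ((p.1 + (d.1.1 : ℕ)) / 3, (p.2 + (d.1.2 : ℕ)) / 3)

/-- The closed unit square. -/
def unitSq : Set (ℝ × ℝ) := {p | (0 ≤ p.1 ∧ p.1 ≤ 1) ∧ (0 ≤ p.2 ∧ p.2 ≤ 1)}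

/-- `pre n` is the `n`-th approximation of the carpet: `pre 0` is the unit square; in every step
each square is replaced by the eight outer squares of its subdivision into nine. -/
def pre : ℕ → Set (ℝ × ℝ)
  | 0 => unitSq
  | n + 1 => ⋃ d : Dig, psi d '' pre n

/-- The Sierpinski carpet. -/
def carpet : Set (ℝ × ℝ) := ⋂ n, pre n

theorem psi_cont (d : Dig) : Continuous (psi d) := by
  unfold psi; fun_prop

theorem psi_inj (d : Dig) : Function.Injective (psi d) := by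
  intro p q h
  simp only [psi, Prod.mk.injEq] at h
  exact Prod.ext (by linarith [h.1]) (by linarith [h.2])

theorem fin3_cast_le (i : Fin 3) : ((i : ℕ) : ℝ) ≤ 2 := by
  have : (i : ℕ) ≤ 2 := by omega
  exact_mod_cast this

theorem psi_mem_unitSq (d : Dig) {p : ℝ × ℝ} (hp : p ∈ unitSq) : psi d p ∈ unitSq := by
  obtain ⟨⟨h1, h2⟩, h3, h4⟩ := hp
  have a := fin3_cast_le d.1.1
  have b := fin3_cast_le d.1.2
  have a0 : (0:ℝ) ≤ ((d.1.1 : ℕ) : ℝ) := Nat.cast_nonneg _
  have b0 : (0:ℝ) ≤ ((d.1.2 : ℕ) : ℝ) := Nat.cast_nonneg _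
  refine ⟨⟨?_, ?_⟩, ?_, ?_⟩ <;> simp only [psi] <;> linarith

theorem pre_succ_subset (n : ℕ) : pre (n + 1) ⊆ pre n := by
  induction n with
  | zero =>
    intro p hp
    simp only [pre, mem_iUnion] at hp
    obtain ⟨d, q, hq, rfl⟩ := hp
    exact psi_mem_unitSq d hq
  | succ n ih =>
    intro p hp
    rw [pre] at hp
    simp only [mem_iUnion] at hp
    obtain ⟨d, q, hq, rfl⟩ := hp
    rw [pre]
    exact mem_iUnion.2 ⟨d, q, ih hq, rfl⟩

theorem pre_anti : Antitone pre := antitone_nat_of_succ_le pre_succ_subset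

theorem unitSq_compact : IsCompact unitSq := by
  have : unitSq = Icc (0:ℝ) 1 ×ˢ Icc (0:ℝ) 1 := by
    ext p; exact Iff.rfl
  rw [this]
  exact isCompact_Icc.prod isCompact_Icc

theorem pre_compact (n : ℕ) : IsCompact (pre n) := by
  induction n with
  | zero => exact unitSq_compact
  | succ n ih =>
    rw [pre]
    exact isCompact_iUnion fun d => ih.image (psi_cont d)

theorem carpet_closed : IsClosed carpet := isClosed_iInter fun n => (pre_compact n).isClosed

theorem carpet_compact : IsCompact carpet :=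
  (pre_compact 0).of_isClosed_subset carpet_closed (iInter_subset _ 0)

theorem carpet_subset_unitSq : carpet ⊆ unitSq := iInter_subset pre 0

theorem psi_mem_carpet (d : Dig) {p : ℝ × ℝ} (hp : p ∈ carpet) : psi d p ∈ carpet := by
  refine mem_iInter.2 fun n => ?_
  cases n with
  | zero => exact psi_mem_unitSq d (carpet_subset_unitSq hp)
  | succ n =>
    rw [pre]
    exact mem_iUnion.2 ⟨d, p, mem_iInter.1 hp n, rfl⟩

theorem carpet_subset_iUnion : carpet ⊆ ⋃ d : Dig, psi d '' carpet := by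
  intro p hp
  by_contra hcon
  simp only [mem_iUnion, mem_image, not_exists, not_and] at hcon
  have key : ∀ d : Dig, ∃ n, ∀ q ∈ pre n, psi d q ≠ p := by
    intro d
    by_contra h
    push Not at h
    obtain ⟨q, -, hq⟩ := h 0
    refine hcon d q (mem_iInter.2 fun n => ?_) hq
    obtain ⟨q', hq', h'⟩ := h n
    rwa [psi_inj d (hq.trans h'.symm)]
  choose N hN using key
  have hp' := mem_iInter.1 hp ((Finset.univ.sup N) + 1)
  rw [pre] at hp'
  simp only [mem_iUnion] at hp'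
  obtain ⟨d, q, hq, hqp⟩ := hp'
  exact hN d q (pre_anti (Finset.le_sup (Finset.mem_univ d)) hq) hqp

theorem carpet_eq : carpet = ⋃ d : Dig, psi d '' carpet := by
  apply Subset.antisymm carpet_subset_iUnion
  refine iUnion_subset fun d => ?_
  rintro _ ⟨q, hq, rfl⟩
  exact psi_mem_carpet d hq

/-- Reflection of digits in the first coordinate. -/
def Dig.rx (d : Dig) : Dig := ⟨(Fin.rev d.1.1, d.1.2), by
  obtain ⟨⟨a, b⟩, h⟩ := d
  revert h; revert a b; decide⟩

/-- Exchange of the two coordinates. -/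
def Dig.sw (d : Dig) : Dig := ⟨(d.1.2, d.1.1), by
  obtain ⟨⟨a, b⟩, h⟩ := d
  revert h; revert a b; decide⟩

/-- The reflection `(x, y) ↦ (1 - x, y)` of the plane. -/
def rxP (p : ℝ × ℝ) : ℝ × ℝ := (1 - p.1, p.2)

/-- The reflection `(x, y) ↦ (y, x)` of the plane. -/
def swP (p : ℝ × ℝ) : ℝ × ℝ := (p.2, p.1)

theorem fin3_rev_cast (i : Fin 3) : ((Fin.rev i : Fin 3) : ℕ) = 2 - (i : ℕ) := by
  revert i; decide

theorem rxP_psi (d : Dig) (p : ℝ × ℝ) : rxP (psi d p) = psi d.rx (rxP p) := by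
  simp only [rxP, psi, Dig.rx, fin3_rev_cast]
  have h : ((d.1.1 : Fin 3) : ℕ) ≤ 2 := by omega
  rw [Nat.cast_sub h]
  refine Prod.ext ?_ ?_
  · push_cast; ring
  · rfl

theorem swP_psi (d : Dig) (p : ℝ × ℝ) : swP (psi d p) = psi d.sw (swP p) := rfl

theorem rxP_pre (n : ℕ) {p : ℝ × ℝ} (hp : p ∈ pre n) : rxP p ∈ pre n := by
  induction n generalizing p with
  | zero =>
    obtain ⟨⟨h1, h2⟩, h3, h4⟩ := hp
    exact ⟨⟨by simp only [rxP]; linarith, by simp only [rxP]; linarith⟩, h3, h4⟩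
  | succ n ih =>
    rw [pre] at hp
    simp only [mem_iUnion] at hp
    obtain ⟨d, q, hq, rfl⟩ := hp
    rw [pre, rxP_psi]
    exact mem_iUnion.2 ⟨d.rx, rxP q, ih hq, rfl⟩

theorem swP_pre (n : ℕ) {p : ℝ × ℝ} (hp : p ∈ pre n) : swP p ∈ pre n := by
  induction n generalizing p with
  | zero =>
    obtain ⟨⟨h1, h2⟩, h3, h4⟩ := hp
    exact ⟨⟨h3, h4⟩, h1, h2⟩
  | succ n ih =>
    rw [pre] at hp
    simp only [mem_iUnion] at hp
    obtain ⟨d, q, hq, rfl⟩ := hp
    rw [pre, swP_psi]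
    exact mem_iUnion.2 ⟨d.sw, swP q, ih hq, rfl⟩

theorem rxP_carpet {p : ℝ × ℝ} (hp : p ∈ carpet) : rxP p ∈ carpet :=
  mem_iInter.2 fun n => rxP_pre n (mem_iInter.1 hp n)

theorem swP_carpet {p : ℝ × ℝ} (hp : p ∈ carpet) : swP p ∈ carpet :=
  mem_iInter.2 fun n => swP_pre n (mem_iInter.1 hp n)

/-- For `y ∈ [0,1]` there is a digit `j` with `3 y - j ∈ [0,1]`. -/
theorem exists_dig {y : ℝ} (h0 : 0 ≤ y) (h1 : y ≤ 1) :
    ∃ j : Fin 3, 0 ≤ 3 * y - (j : ℕ) ∧ 3 * y - (j : ℕ) ≤ 1 := by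
  rcases le_or_gt y (1/3) with h | h
  · exact ⟨0, by simp; linarith, by simp; linarith⟩
  · rcases le_or_gt y (2/3) with h' | h'
    · exact ⟨1, by simp; linarith, by simp; linarith⟩
    · refine ⟨2, ?_, ?_⟩ <;> norm_num <;> linarith

/-- The left side of the unit square belongs to the carpet. -/
theorem left_mem_pre (n : ℕ) {y : ℝ} (h0 : 0 ≤ y) (h1 : y ≤ 1) : ((0 : ℝ), y) ∈ pre n := by
  induction n generalizing y with
  | zero => exact ⟨⟨le_rfl, zero_le_one⟩, h0, h1⟩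
  | succ n ih =>
    obtain ⟨j, hj0, hj1⟩ := exists_dig h0 h1
    rw [pre]
    refine mem_iUnion.2 ⟨⟨(0, j), by simp⟩, (0, 3 * y - (j:ℕ)), ih hj0 hj1, ?_⟩
    simp only [psi]
    refine Prod.ext (by simp) ?_
    ring

theorem left_mem {y : ℝ} (h0 : 0 ≤ y) (h1 : y ≤ 1) : ((0 : ℝ), y) ∈ carpet :=
  mem_iInter.2 fun n => left_mem_pre n h0 h1

theorem right_mem {y : ℝ} (h0 : 0 ≤ y) (h1 : y ≤ 1) : ((1 : ℝ), y) ∈ carpet := by
  have := rxP_carpet (left_mem h0 h1)
  simpa [rxP] using this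

theorem bot_mem {x : ℝ} (h0 : 0 ≤ x) (h1 : x ≤ 1) : (x, (0 : ℝ)) ∈ carpet := by
  have := swP_carpet (left_mem h0 h1)
  simpa [swP] using this

theorem top_mem {x : ℝ} (h0 : 0 ≤ x) (h1 : x ≤ 1) : (x, (1 : ℝ)) ∈ carpet := by
  have := swP_carpet (right_mem h0 h1)
  simpa [swP] using this

/-- The Sierpinski carpet as a type (a compact metric space). -/
abbrev K : Type := ↥carpet

instance : CompactSpace K := isCompact_iff_compactSpace.1 carpet_compact

instance : Nonempty K := ⟨⟨(0, 0), left_mem le_rfl zero_le_one⟩⟩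

/-- `ψ_d` as a continuous self-map of the carpet -/
noncomputable def psiK (d : Dig) : C(K, K) :=
  ⟨fun z => ⟨psi d z.1, psi_mem_carpet d z.2⟩,
    ((psi_cont d).comp continuous_subtype_val).subtype_mk _⟩

/-- the reflection `(x, y) ↦ (1 - x, y)` of the carpet -/
def rxK : C(K, K) :=
  ⟨fun z => ⟨rxP z.1, rxP_carpet z.2⟩, by
    apply Continuous.subtype_mk
    unfold rxP
    fun_prop⟩

/-- the reflection `(x, y) ↦ (y, x)` of the carpet -/
def swK : C(K, K) :=
  ⟨fun z => ⟨swP z.1, swP_carpet z.2⟩, by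
    apply Continuous.subtype_mk
    unfold swP
    fun_prop⟩

/-- `V_0`: the boundary of the unit square (as a subset of the carpet) -/
def V0 : Set K := {z | z.1.1 = 0 ∨ z.1.1 = 1 ∨ z.1.2 = 0 ∨ z.1.2 = 1}

/-- `ψ_w = ψ_{w_1} ∘ ... ∘ ψ_{w_n}` for a word `w` -/
noncomputable def psiW : List Dig → C(K, K)
  | [] => ContinuousMap.id K
  | d :: w => (psiK d).comp (psiW w)

end CarpetLib
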