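import Pool.Agent.Lib.MP_f3090c_an.K.Sym
import Pool.Agent.Lib.MP_f3090c_an.P.Half
import Pool.Agent.Lib.MP_f3090c_an.R.MirrorDefs

/-! K05: mirror data for the carpet and its right side. -/

open Set Filter Topology

namespace CarpetLib

/-- the clamp to the unit interval -/
private noncomputable def Side_cl (t : ℝ) : ℝ := max 0 (min 1 t)

private theorem Side_cl_nonneg (t : ℝ) : 0 ≤ Side_cl t := le_max_left _ _

private theorem Side_cl_le (t : ℝ) : Side_cl t ≤ 1 := max_le zero_le_one (min_le_left _ _)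

private theorem Side_cl_of {t : ℝ} (h0 : 0 ≤ t) (h1 : t ≤ 1) : Side_cl t = t := by
  rw [Side_cl, min_eq_right h1, max_eq_right h0]

private theorem Side_cl_cont : Continuous Side_cl := by
  unfold Side_cl; fun_prop

/-- parametrisation of the right side -/
private noncomputable def Side_r (t : ℝ) : K :=
  ⟨(1, Side_cl t), right_mem (Side_cl_nonneg t) (Side_cl_le t)⟩

/-- parametrisation of the bottom side -/
private noncomputable def Side_b (t : ℝ) : K :=
  ⟨(Side_cl t, 0), bot_mem (Side_cl_nonneg t) (Side_cl_le t)⟩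

private theorem Side_r_cont : Continuous Side_r :=
  (continuous_const.prodMk Side_cl_cont).subtype_mk _

private theorem Side_b_cont : Continuous Side_b :=
  (Side_cl_cont.prodMk continuous_const).subtype_mk _

/-- the shift to the half plane `x ≤ 0` -/
private noncomputable def Side_f (z : K) : ℝ × ℝ := (z.1.1 - 1, z.1.2)

private theorem Side_f_cont : Continuous Side_f := by
  unfold Side_f
  exact ((continuous_fst.comp continuous_subtype_val).sub continuous_const).prodMk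
    (continuous_snd.comp continuous_subtype_val)

private theorem Side_f_inj {z w : K} (h : Side_f z = Side_f w) : z = w := by
  simp only [Side_f, Prod.mk.injEq] at h
  exact Subtype.ext (Prod.ext (by linarith [h.1]) h.2)

private theorem Side_bd (z : K) : (0 ≤ z.1.1 ∧ z.1.1 ≤ 1) ∧ (0 ≤ z.1.2 ∧ z.1.2 ≤ 1) :=
  carpet_subset_unitSq z.2

private theorem Side_f_le {C : Set K} : ∀ z ∈ Side_f '' C, z.1 ≤ 0 := by
  rintro _ ⟨z, -, rfl⟩
  have := (Side_bd z).1.2
  simp only [Side_f]; linarith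

/-- the path `{-1} × [s, t] ∪ [-1, 0] × {u}` -/
private def Side_path (s t u : ℝ) : Set (ℝ × ℝ) :=
  (fun y : ℝ => ((-1 : ℝ), y)) '' Icc s t ∪ (fun x : ℝ => (x, u)) '' Icc (-1) 0

private theorem Side_path_compact (s t u : ℝ) : IsCompact (Side_path s t u) :=
  (isCompact_Icc.image (by fun_prop)).union (isCompact_Icc.image (by fun_prop))

private theorem Side_path_pre {s t u : ℝ} (h1 : s ≤ u) (h2 : u ≤ t) :
    IsPreconnected (Side_path s t u) := by
  refine IsPreconnected.union ((-1 : ℝ), u) ?_ ?_ ?_ ?_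
  · exact ⟨u, ⟨h1, h2⟩, rfl⟩
  · exact ⟨-1, ⟨le_rfl, by norm_num⟩, rfl⟩
  · exact isPreconnected_Icc.image _ (by fun_prop)
  · exact isPreconnected_Icc.image _ (by fun_prop)

private theorem Side_path_le {s t u : ℝ} : ∀ z ∈ Side_path s t u, z.1 ≤ 0 := by
  rintro _ (⟨y, -, rfl⟩ | ⟨x, hx, rfl⟩)
  · norm_num
  · exact hx.2

private theorem Side_path_end {s t u : ℝ} : ((0:ℝ), u) ∈ Side_path s t u :=
  Or.inr ⟨0, ⟨by norm_num, le_rfl⟩, rfl⟩

private theorem Side_P1 (b1 : K) (hb1 : b1.1.1 = 1) (b2 : K) (hb2 : b2.1.1 = 1) (b3 : K)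
    (hb3 : b3.1.1 = 1) (h12 : b1.1.2 < b2.1.2) (h23 : b2.1.2 < b3.1.2)
    (C C' : Set K) (hC : IsCompact C) (hCp : IsPreconnected C) (hC' : IsCompact C')
    (hCp' : IsPreconnected C') (h1 : b1 ∈ C) (h3 : b3 ∈ C) (h2 : b2 ∈ C') (h4 : c01 ∈ C') :
    (C ∩ C').Nonempty := by
  have hf4 : Side_f c01 = ((-1 : ℝ), (1 : ℝ)) := by
    simp only [Side_f, c01]; norm_num
  have hcross := half_crossing (C := Side_f '' C) (C' := Side_f '' C' ∪ Side_path 1 2 2)
    (hC.image Side_f_cont) (hCp.image _ Side_f_cont.continuousOn)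
    ((hC'.image Side_f_cont).union (Side_path_compact 1 2 2))
    (IsPreconnected.union ((-1 : ℝ), (1 : ℝ)) ⟨c01, h4, hf4⟩
      (Or.inl ⟨1, ⟨le_rfl, by norm_num⟩, rfl⟩) (hCp'.image _ Side_f_cont.continuousOn)
      (Side_path_pre (by norm_num) le_rfl))
    Side_f_le
    (by
      rintro z (hz | hz)
      · exact Side_f_le z hz
      · exact Side_path_le z hz)
    h12 h23 (t4 := 2) (by linarith [(Side_bd b3).2.2])
    ⟨b1, h1, by simp only [Side_f, hb1]; norm_num⟩
    ⟨b3, h3, by simp only [Side_f, hb3]; norm_num⟩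
    (Or.inl ⟨b2, h2, by simp only [Side_f, hb2]; norm_num⟩)
    (Or.inr Side_path_end)
  obtain ⟨w, ⟨z, hz, hzw⟩, hw⟩ := hcross
  rcases hw with ⟨z', hz', hzw'⟩ | hw
  · have : z = z' := Side_f_inj (hzw.trans hzw'.symm)
    exact ⟨z, hz, this ▸ hz'⟩
  · have hb := Side_bd z
    rw [← hzw] at hw
    rcases hw with ⟨y, hy, he⟩ | ⟨x, hx, he⟩
    · simp only [Side_f, Prod.mk.injEq] at he
      have : z = c01 := by
        refine Subtype.ext (Prod.ext ?_ ?_)
        · simp only [c01]; linarith [he.1]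
        · simp only [c01]; linarith [he.2, hy.1, hb.2.2]
      exact ⟨z, hz, this ▸ h4⟩
    · simp only [Side_f, Prod.mk.injEq] at he
      exfalso
      linarith [he.2, hb.2.2]

private theorem Side_P2 (a : K) (ha : a.1.1 = 1) (b : K) (hb : b.1.1 = 1)
    (hab : a.1.2 < b.1.2) : NoCross a b c00 c11 := by
  intro C C' hC hCp hC' hCp' haC he2 hbC' he1
  rcases eq_or_lt_of_le (Side_bd b).2.2 with h1 | h1
  · have : b = c11 := Subtype.ext (Prod.ext (by simpa [c11] using hb) (by simpa [c11] using h1))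
    exact ⟨b, this ▸ he2, hbC'⟩
  have hf1 : Side_f c00 = ((-1 : ℝ), (0 : ℝ)) := by
    simp only [Side_f, c00]; norm_num
  have hcross := half_crossing (C := Side_f '' C' ∪ Side_path (-1) 0 (-1)) (C' := Side_f '' C)
    ((hC'.image Side_f_cont).union (Side_path_compact (-1) 0 (-1)))
    (IsPreconnected.union ((-1 : ℝ), (0 : ℝ)) ⟨c00, he1, hf1⟩
      (Or.inl ⟨0, ⟨by norm_num, le_rfl⟩, rfl⟩) (hCp'.image _ Side_f_cont.continuousOn)
      (Side_path_pre le_rfl (by norm_num)))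
    (hC.image Side_f_cont) (hCp.image _ Side_f_cont.continuousOn)
    (by
      rintro z (hz | hz)
      · exact Side_f_le z hz
      · exact Side_path_le z hz)
    Side_f_le
    (t1 := -1) (t2 := a.1.2) (t3 := b.1.2) (t4 := 1)
    (by linarith [(Side_bd a).2.1]) hab h1
    (Or.inr Side_path_end)
    (Or.inl ⟨b, hbC', by simp only [Side_f, hb]; norm_num⟩)
    ⟨a, haC, by simp only [Side_f, ha]; norm_num⟩
    ⟨c11, he2, by simp only [Side_f, c11]; norm_num⟩
  obtain ⟨w, hw, ⟨z, hz, hzw⟩⟩ := hcross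
  rcases hw with ⟨z', hz', hzw'⟩ | hw
  · have : z = z' := Side_f_inj (hzw.trans hzw'.symm)
    exact ⟨z, hz, this ▸ hz'⟩
  · have hb := Side_bd z
    rw [← hzw] at hw
    rcases hw with ⟨y, hy, he⟩ | ⟨x, hx, he⟩
    · simp only [Side_f, Prod.mk.injEq] at he
      have : z = c00 := by
        refine Subtype.ext (Prod.ext ?_ ?_)
        · simp only [c00]; linarith [he.1]
        · simp only [c00]; linarith [he.2, hy.2, hb.2.1]
      exact ⟨z, hz, this ▸ he1⟩
    · simp only [Side_f, Prod.mk.injEq] at he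
      exfalso
      linarith [he.2, hb.2.1]

private theorem Side_P3 (a : K) (ha : a.1.1 = 1) (b : K) (hb : b.1.1 = 1)
    (hab : a.1.2 < b.1.2) : ∃ C1 C2 : Set K, IsCompact C1 ∧ IsPreconnected C1 ∧
    IsCompact C2 ∧ IsPreconnected C2 ∧ Disjoint C1 C2 ∧ a ∈ C1 ∧ c00 ∈ C1 ∧ b ∈ C2 ∧
      c11 ∈ C2 := by
  have hba := Side_bd a
  have hbb := Side_bd b
  refine ⟨Side_r '' Icc 0 a.1.2 ∪ Side_b '' Icc 0 1, Side_r '' Icc b.1.2 1, ?_, ?_, ?_, ?_, ?_,
    ?_, ?_, ?_, ?_⟩
  · exact (isCompact_Icc.image Side_r_cont).union (isCompact_Icc.image Side_b_cont)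
  · refine IsPreconnected.union c10 ?_ ?_ ?_ ?_
    · refine ⟨0, ⟨le_rfl, hba.2.1⟩, ?_⟩
      refine Subtype.ext (Prod.ext rfl ?_)
      simp only [Side_r, c10]
      exact Side_cl_of le_rfl zero_le_one
    · refine ⟨1, ⟨zero_le_one, le_rfl⟩, ?_⟩
      refine Subtype.ext (Prod.ext ?_ rfl)
      simp only [Side_b, c10]
      exact Side_cl_of zero_le_one le_rfl
    · exact isPreconnected_Icc.image _ Side_r_cont.continuousOn
    · exact isPreconnected_Icc.image _ Side_b_cont.continuousOn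
  · exact isCompact_Icc.image Side_r_cont
  · exact isPreconnected_Icc.image _ Side_r_cont.continuousOn
  · rw [Set.disjoint_left]
    rintro z hz1 ⟨t, ht, rfl⟩
    have ht2 : Side_cl t = t := Side_cl_of (by linarith [ht.1, hbb.2.1]) ht.2
    rcases hz1 with ⟨s, hs, he⟩ | ⟨s, hs, he⟩
    · have h2 : Side_cl s = Side_cl t := congrArg (fun z : K => z.1.2) he
      rw [ht2, Side_cl_of hs.1 (by linarith [hs.2, hba.2.2])] at h2
      linarith [hs.2, ht.1]
    · have h2 : (0:ℝ) = Side_cl t := congrArg (fun z : K => z.1.2) he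
      rw [ht2] at h2
      linarith [ht.1, hba.2.1]
  · refine Or.inl ⟨a.1.2, ⟨hba.2.1, le_rfl⟩, ?_⟩
    refine Subtype.ext (Prod.ext ha.symm ?_)
    exact Side_cl_of hba.2.1 hba.2.2
  · refine Or.inr ⟨0, ⟨le_rfl, zero_le_one⟩, ?_⟩
    refine Subtype.ext (Prod.ext ?_ rfl)
    exact Side_cl_of le_rfl zero_le_one
  · refine ⟨b.1.2, ⟨le_rfl, hbb.2.2⟩, ?_⟩
    refine Subtype.ext (Prod.ext hb.symm ?_)
    exact Side_cl_of hbb.2.1 hbb.2.2
  · refine ⟨1, ⟨hbb.2.2, le_rfl⟩, ?_⟩
    refine Subtype.ext (Prod.ext rfl ?_)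
    exact Side_cl_of zero_le_one le_rfl

theorem exists_sideData : ∃ M : MirrorData K, M.m = {z : K | z.1.1 = 1} ∧ M.e1 = c00 ∧
    M.e2 = c11 ∧ M.b4 = c01 :=
  ⟨{ m := {z : K | z.1.1 = 1}
     closed := isClosed_eq (continuous_fst.comp continuous_subtype_val) continuous_const
     nonempty := ⟨c11, rfl⟩
     θ := fun z => z.1.2
     inj := fun z hz w hw h => Subtype.ext (Prod.ext ((show z.1.1 = 1 from hz).trans
       (show w.1.1 = 1 from hw).symm) h)
     e1 := c00
     e2 := c11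
     b4 := c01
     P1 := fun b1 h1 b2 h2 b3 h3 h12 h23 C C' hC hCp hC' hCp' m1 m3 m2 m4 =>
       Side_P1 b1 h1 b2 h2 b3 h3 h12 h23 C C' hC hCp hC' hCp' m1 m3 m2 m4
     P2 := fun a ha b hb hab => Side_P2 a ha b hb hab
     P3 := fun a ha b hb hab => Side_P3 a ha b hb hab }, rfl, rfl, rfl, rfl⟩

end CarpetLib
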