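import Pool.Agent.Lib.MP_f3090c_an.K.Extend
import Pool.Agent.Lib.MP_f3090c_an.K.Side
import Pool.Agent.Lib.MP_f3090c_an.R.Mirror
import Pool.Agent.Lib.MP_f3090c_an.R.HarmDefs

/-! K11cd. -/

open Set Filter Topology

namespace CarpetLib

private theorem cellStep_rx_rx (z : K) : rxK (rxK z) = z := by
  apply Subtype.ext
  refine Prod.ext ?_ ?_
  · show (rxK (rxK z)).1.1 = z.1.1
    simp
  · show (rxK (rxK z)).1.2 = z.1.2
    simp

private theorem cellStep_comp_rx_rx (f : C(K, ℝ)) : (f.comp rxK).comp rxK = f := by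
  ext z
  simp only [ContinuousMap.comp_apply, cellStep_rx_rx]

private theorem cellStep_E_rx (S : SymForm) {f g : C(K, ℝ)} (hf : f ∈ S.dom) (hg : g ∈ S.dom) :
    S.E f (g.comp rxK) = S.E (f.comp rxK) g := by
  have h := S.rx_inv.2 f hf (g.comp rxK) (S.rx_inv.1 g hg)
  rw [cellStep_comp_rx_rx] at h
  exact h.symm

private theorem cellStep_d00_fst (z : K) : (psiK d00 z).1.1 = z.1.1 / 3 := by
  show (z.1.1 + (((0 : Fin 3) : ℕ) : ℝ)) / 3 = z.1.1 / 3
  simp

private theorem cellStep_d00_snd (z : K) : (psiK d00 z).1.2 = z.1.2 / 3 := by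
  show (z.1.2 + (((0 : Fin 3) : ℕ) : ℝ)) / 3 = z.1.2 / 3
  simp

private theorem cellStep_d10_fst (z : K) : (psiK d10 z).1.1 = (z.1.1 + 1) / 3 := by
  show (z.1.1 + (((1 : Fin 3) : ℕ) : ℝ)) / 3 = (z.1.1 + 1) / 3
  simp

private theorem cellStep_d10_snd (z : K) : (psiK d10 z).1.2 = z.1.2 / 3 := by
  show (z.1.2 + (((0 : Fin 3) : ℕ) : ℝ)) / 3 = z.1.2 / 3
  simp

private theorem cellStep_match (U : C(K, ℝ)) (z z' : K) (h1 : z.1.1 = 1) (h2 : z'.1.1 = 0)
    (h3 : z.1.2 = z'.1.2) : U.comp (psiK d00) z = U.comp (psiK d10) z' := by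
  have h : psiK d00 z = psiK d10 z' := by
    apply Subtype.ext
    refine Prod.ext ?_ ?_
    · rw [cellStep_d00_fst, cellStep_d10_fst, h1, h2]; norm_num
    · rw [cellStep_d00_snd, cellStep_d10_snd, h3]
  simp only [ContinuousMap.comp_apply, h]

private theorem cellStep_left {U : C(K, ℝ)} (hU0 : ∀ z, z ∉ triO → U z = 0) (z : K)
    (hz : z.1.1 = 0) : U.comp (psiK d00) z = 0 := by
  refine hU0 _ ?_
  rintro ⟨h1, -⟩
  rw [cellStep_d00_fst, cellStep_d00_snd, hz] at h1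
  have := (carpet_subset_unitSq z.2).2.1
  linarith

private theorem cellStep_right {U : C(K, ℝ)} (hU0 : ∀ z, z ∉ triO → U z = 0) (z : K)
    (hz : z.1.1 = 1) : U.comp (psiK d10) z = 0 := by
  refine hU0 _ ?_
  rintro ⟨-, h1⟩
  rw [cellStep_d10_fst, hz] at h1
  norm_num at h1

private theorem cellStep_corner {U : C(K, ℝ)} (hU0 : ∀ z, z ∉ triO → U z = 0) (z : K)
    (hz : z.1.1 = 1) (hz2 : z.1.2 = 1) : U.comp (psiK d00) z = 0 := by
  refine hU0 _ ?_
  rintro ⟨h1, -⟩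
  rw [cellStep_d00_fst, cellStep_d00_snd, hz, hz2] at h1
  linarith

private theorem cellStep_corner' {U : C(K, ℝ)} (hU0 : ∀ z, z ∉ triO → U z = 0) (z : K)
    (hz : z.1.1 = 0) (hz2 : z.1.2 = 1) : U.comp (psiK d10) z = 0 := by
  refine hU0 _ ?_
  rintro ⟨h1, -⟩
  rw [cellStep_d10_fst, cellStep_d10_snd, hz, hz2] at h1
  linarith

/-- test function `(f, f ∘ rx)` -/
private theorem cellStep_ext_plus (S : SymForm) {U f : C(K, ℝ)} (hU : U ∈ S.dom)
    (hU0 : ∀ z, z ∉ triO → U z = 0) (hf : f ∈ S.dom) :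
    ∃ F ∈ S.dom, (∀ z, F (psiK d00 z) = f z) ∧ (∀ z, F (psiK d10 z) = f (rxK z)) ∧
      S.E U F = S.ρ * (S.E (U.comp (psiK d00)) f + S.E ((U.comp (psiK d10)).comp rxK) f) := by
  obtain ⟨F, hF, hF1, hF2⟩ := exists_extension S hf (S.rx_inv.1 f hf) (by
    intro z z' h1 h2 h3
    have : rxK z' = z := by
      apply Subtype.ext
      refine Prod.ext ?_ ?_
      · show (rxK z').1.1 = z.1.1
        rw [rxK_fst, h1, h2]; norm_num
      · show (rxK z').1.2 = z.1.2
        rw [rxK_snd, h3]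
    simp only [ContinuousMap.comp_apply, this])
  refine ⟨F, hF, fun z => ?_, fun z => ?_, ?_⟩
  · rw [← ContinuousMap.comp_apply, hF1]
  · rw [← ContinuousMap.comp_apply, hF2]; rfl
  · rw [E_two_cells S hU hU0 hF, hF1, hF2, cellStep_E_rx S ((S.mem_iff U).1 hU d10) hf]

/-- test function `(f, - f ∘ rx)` for `f = 0` on the right side -/
private theorem cellStep_ext_minus (S : SymForm) {U f : C(K, ℝ)} (hU : U ∈ S.dom)
    (hU0 : ∀ z, z ∉ triO → U z = 0) (hf : f ∈ S.dom) (hf0 : ∀ z : K, z.1.1 = 1 → f z = 0) :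
    ∃ F ∈ S.dom, (∀ z, F (psiK d00 z) = f z) ∧ (∀ z, F (psiK d10 z) = - f (rxK z)) ∧
      S.E U F = S.ρ * (S.E (U.comp (psiK d00)) f - S.E ((U.comp (psiK d10)).comp rxK) f) := by
  have hg : -(f.comp rxK) ∈ S.dom := S.dom.neg_mem (S.rx_inv.1 f hf)
  obtain ⟨F, hF, hF1, hF2⟩ := exists_extension S hf hg (by
    intro z z' h1 h2 h3
    have : (rxK z').1.1 = 1 := by rw [rxK_fst, h2]; norm_num
    simp only [ContinuousMap.neg_apply, ContinuousMap.comp_apply]
    rw [hf0 _ this, hf0 _ h1, neg_zero])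
  refine ⟨F, hF, fun z => ?_, fun z => ?_, ?_⟩
  · rw [← ContinuousMap.comp_apply, hF1]
  · rw [← ContinuousMap.comp_apply, hF2]; rfl
  · rw [E_two_cells S hU hU0 hF, hF1, hF2, map_neg,
      cellStep_E_rx S ((S.mem_iff U).1 hU d10) hf]
    ring

/-- K11c: the case of the bottom left cell -/
theorem cell_step0 (S : SymForm) {U : C(K, ℝ)} (hU : U ∈ S.dom) (hU0 : ∀ z, z ∉ triO → U z = 0)
    {x x' : K} (hUx : ∀ f ∈ S.dom, S.E U f = f (psiK d00 x) - f (psiK d00 x'))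
    (hP4 : ∃ C : Set K, IsPreconnected C ∧ (∀ z ∈ C, z.1.1 ≠ 1) ∧ x' ∈ C ∧ c01 ∈ C) :
    S.Insep LR x x' := by
  obtain ⟨M, hm, he1, he2, hb4⟩ := exists_sideData
  have hU1 : U.comp (psiK d00) ∈ S.dom := (S.mem_iff U).1 hU d00
  have hU2 : U.comp (psiK d10) ∈ S.dom := (S.mem_iff U).1 hU d10
  have hmat := cellStep_match U
  have hleft := cellStep_left hU0
  have hright := cellStep_right hU0
  have hcor := cellStep_corner hU0
  have hcor' := cellStep_corner' hU0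
  have hplus := fun f hf => cellStep_ext_plus S (f := f) hU hU0 hf
  have hminus := fun f hf hf0 => cellStep_ext_minus S (f := f) hU hU0 hf hf0
  have hV2 : (U.comp (psiK d10)).comp rxK ∈ S.dom := S.rx_inv.1 _ hU2
  have hV2a : ∀ z, (U.comp (psiK d10)).comp rxK z = U.comp (psiK d10) (rxK z) := fun z => rfl
  generalize U.comp (psiK d00) = U1 at *
  generalize U.comp (psiK d10) = U2 at *
  generalize U2.comp rxK = V2 at *
  have hm1 : ∀ z, z ∈ M.m ↔ z.1.1 = 1 := fun z => by rw [hm]; rfl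
  have hE2 : ∀ f ∈ S.dom, S.E (S.ρ • (U1 + V2)) f = f x - f x' := by
    intro f hf
    obtain ⟨F, hF, hF1, -, hF3⟩ := hplus f hf
    rw [map_smul, LinearMap.smul_apply, map_add, LinearMap.add_apply, smul_eq_mul, ← hF3,
      hUx F hF, hF1, hF1]
  have hE1 : ∀ f ∈ S.domZ M.m, S.E (S.ρ • (U1 - V2)) f = f x - f x' := by
    intro f hf
    obtain ⟨F, hF, hF1, -, hF3⟩ := hminus f hf.1 (fun z hz => hf.2 z ((hm1 z).2 hz))
    rw [map_smul, LinearMap.smul_apply, map_sub, LinearMap.sub_apply, smul_eq_mul, ← hF3,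
      hUx F hF, hF1, hF1]
  have z1 : U1 c00 = 0 := hleft c00 rfl
  have z2 : U1 c11 = 0 := hcor c11 rfl rfl
  have z3 : U1 c01 = 0 := hleft c01 rfl
  have z4 : V2 c00 = 0 := by
    rw [hV2a]; exact hright _ (by rw [rxK_fst]; show (1:ℝ) - 0 = 1; norm_num)
  have z5 : V2 c11 = 0 := by
    rw [hV2a]
    exact hcor' _ (by rw [rxK_fst]; show (1:ℝ) - 1 = 0; norm_num) (by rw [rxK_snd]; rfl)
  have z6 : V2 c01 = 0 := by
    rw [hV2a]; exact hright _ (by rw [rxK_fst]; show (1:ℝ) - 0 = 1; norm_num)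
  have hdomm : S.ρ • (U1 - V2) ∈ S.domZ M.m := by
    refine ⟨S.dom.smul_mem _ (S.dom.sub_mem hU1 hV2), fun z hz => ?_⟩
    have hz' := (hm1 z).1 hz
    have : U1 z = V2 z := by
      rw [hV2a]
      exact hmat z (rxK z) hz' (by rw [rxK_fst, hz']; norm_num) (by rw [rxK_snd])
    simp [this]
  have key := S.toRForm.mirror M (x := x) (x' := x') (u := S.ρ • (U1 - V2))
    (u2 := S.ρ • (U1 + V2)) (by
      obtain ⟨C, hC1, hC2, hC3, hC4⟩ := hP4
      refine ⟨C, hC1, ?_, hC3, by rw [hb4]; exact hC4⟩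
      rw [Set.disjoint_left]
      intro z hz hzm
      exact hC2 z hz ((hm1 z).1 hzm)) hdomm (by rw [he1]; simp [z1, z4])
    (by rw [he2]; simp [z2, z5]) (by rw [hb4]; simp [z3, z6]) hE1
    (S.dom.smul_mem _ (S.dom.add_mem hU1 hV2)) (by rw [he1]; simp [z1, z4])
    (by rw [he2]; simp [z2, z5]) hE2
  have hρ := S.ρ_pos
  have hV0 : ∀ z, V2 z = 0 := by
    intro z
    have h1 : (S.ρ • (U1 - V2)) z = (S.ρ • (U1 + V2)) z := by rw [key]
    simp only [ContinuousMap.smul_apply, ContinuousMap.sub_apply, ContinuousMap.add_apply,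
      smul_eq_mul] at h1
    have h2 : U1 z - V2 z = U1 z + V2 z := mul_left_cancel₀ hρ.ne' h1
    linarith
  have hV : V2 = 0 := by ext z; exact hV0 z
  refine ⟨S.ρ • U1, ⟨S.dom.smul_mem _ hU1, fun z hz => ?_⟩, fun f hf => ?_⟩
  · rcases hz with hz | hz
    · simp [hleft z hz]
    · have h1 : U1 z = V2 z := by
        rw [hV2a]
        exact hmat z (rxK z) hz (by rw [rxK_fst, hz]; norm_num) (by rw [rxK_snd])
      rw [hV0 z] at h1
      simp [h1]
  · have := hE2 f hf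
    rw [hV, add_zero] at this
    exact this

/-- K11d: the case of the bottom middle cell -/
theorem cell_step1 (S : SymForm) {U : C(K, ℝ)} (hU : U ∈ S.dom) (hU0 : ∀ z, z ∉ triO → U z = 0)
    {x x' : K} (hUx : ∀ f ∈ S.dom, S.E U f = f (psiK d10 x) - f (psiK d10 x'))
    (hP4 : ∃ C : Set K, IsPreconnected C ∧ (∀ z ∈ C, z.1.1 ≠ 0) ∧ x' ∈ C ∧ c11 ∈ C) :
    S.Insep LR x x' := by
  obtain ⟨M, hm, he1, he2, hb4⟩ := exists_sideData
  have hU1 : U.comp (psiK d00) ∈ S.dom := (S.mem_iff U).1 hU d00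
  have hU2 : U.comp (psiK d10) ∈ S.dom := (S.mem_iff U).1 hU d10
  have hmat := cellStep_match U
  have hleft := cellStep_left hU0
  have hright := cellStep_right hU0
  have hcor := cellStep_corner hU0
  have hcor' := cellStep_corner' hU0
  have hplus := fun f hf => cellStep_ext_plus S (f := f) hU hU0 hf
  have hminus := fun f hf hf0 => cellStep_ext_minus S (f := f) hU hU0 hf hf0
  have hV2 : (U.comp (psiK d10)).comp rxK ∈ S.dom := S.rx_inv.1 _ hU2
  have hV2a : ∀ z, (U.comp (psiK d10)).comp rxK z = U.comp (psiK d10) (rxK z) := fun z => rfl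
  have hEV : ∀ f ∈ S.dom, S.E (U.comp (psiK d10)) (f.comp rxK)
      = S.E ((U.comp (psiK d10)).comp rxK) f := fun f hf => cellStep_E_rx S hU2 hf
  generalize U.comp (psiK d00) = U1 at *
  generalize U.comp (psiK d10) = U2 at *
  generalize U2.comp rxK = V2 at *
  have hm1 : ∀ z, z ∈ M.m ↔ z.1.1 = 1 := fun z => by rw [hm]; rfl
  have hE2 : ∀ f ∈ S.dom, S.E (S.ρ • (V2 + U1)) f = f (rxK x) - f (rxK x') := by
    intro f hf
    obtain ⟨F, hF, -, hF2, hF3⟩ := hplus f hf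
    rw [map_smul, LinearMap.smul_apply, map_add, LinearMap.add_apply, smul_eq_mul,
      add_comm (S.E V2 f), ← hF3, hUx F hF, hF2, hF2]
  have hE1 : ∀ f ∈ S.domZ M.m, S.E (S.ρ • (V2 - U1)) f = f (rxK x) - f (rxK x') := by
    intro f hf
    obtain ⟨F, hF, -, hF2, hF3⟩ := hminus f hf.1 (fun z hz => hf.2 z ((hm1 z).2 hz))
    rw [hUx F hF, hF2, hF2] at hF3
    rw [map_smul, LinearMap.smul_apply, map_sub, LinearMap.sub_apply, smul_eq_mul]
    linarith
  have z1 : U1 c00 = 0 := hleft c00 rfl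
  have z2 : U1 c11 = 0 := hcor c11 rfl rfl
  have z3 : U1 c01 = 0 := hleft c01 rfl
  have z4 : V2 c00 = 0 := by
    rw [hV2a]; exact hright _ (by rw [rxK_fst]; show (1:ℝ) - 0 = 1; norm_num)
  have z5 : V2 c11 = 0 := by
    rw [hV2a]
    exact hcor' _ (by rw [rxK_fst]; show (1:ℝ) - 1 = 0; norm_num) (by rw [rxK_snd]; rfl)
  have z6 : V2 c01 = 0 := by
    rw [hV2a]; exact hright _ (by rw [rxK_fst]; show (1:ℝ) - 0 = 1; norm_num)
  have hdomm : S.ρ • (V2 - U1) ∈ S.domZ M.m := by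
    refine ⟨S.dom.smul_mem _ (S.dom.sub_mem hV2 hU1), fun z hz => ?_⟩
    have hz' := (hm1 z).1 hz
    have : U1 z = V2 z := by
      rw [hV2a]
      exact hmat z (rxK z) hz' (by rw [rxK_fst, hz']; norm_num) (by rw [rxK_snd])
    simp [this]
  have key := S.toRForm.mirror M (x := rxK x) (x' := rxK x') (u := S.ρ • (V2 - U1))
    (u2 := S.ρ • (V2 + U1)) (by
      obtain ⟨C, hC1, hC2, hC3, hC4⟩ := hP4
      refine ⟨rxK '' C, hC1.image _ rxK.continuous.continuousOn, ?_, mem_image_of_mem _ hC3,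
        ?_⟩
      · rw [Set.disjoint_left]
        rintro _ ⟨z, hz, rfl⟩ hzm
        have h1 := (hm1 _).1 hzm
        rw [rxK_fst] at h1
        exact hC2 z hz (by linarith)
      · rw [hb4]
        refine ⟨c11, hC4, ?_⟩
        apply Subtype.ext
        refine Prod.ext ?_ ?_
        · rw [rxK_fst]; show (1:ℝ) - 1 = 0; norm_num
        · rw [rxK_snd]; rfl) hdomm (by rw [he1]; simp [z1, z4])
    (by rw [he2]; simp [z2, z5]) (by rw [hb4]; simp [z3, z6]) hE1
    (S.dom.smul_mem _ (S.dom.add_mem hV2 hU1)) (by rw [he1]; simp [z1, z4])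
    (by rw [he2]; simp [z2, z5]) hE2
  have hρ := S.ρ_pos
  have hU10 : ∀ z, U1 z = 0 := by
    intro z
    have h1 : (S.ρ • (V2 - U1)) z = (S.ρ • (V2 + U1)) z := by rw [key]
    simp only [ContinuousMap.smul_apply, ContinuousMap.sub_apply, ContinuousMap.add_apply,
      smul_eq_mul] at h1
    have h2 : V2 z - U1 z = V2 z + U1 z := mul_left_cancel₀ hρ.ne' h1
    linarith
  have hU1z : U1 = 0 := by ext z; exact hU10 z
  refine ⟨S.ρ • U2, ⟨S.dom.smul_mem _ hU2, fun z hz => ?_⟩, fun f hf => ?_⟩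
  · rcases hz with hz | hz
    · have h1 : U1 (rxK z) = U2 z :=
        hmat (rxK z) z (by rw [rxK_fst, hz]; norm_num) hz (by rw [rxK_snd])
      rw [hU10] at h1
      simp [← h1]
    · simp [hright z hz]
  · have h1 := hE2 (f.comp rxK) (S.rx_inv.1 f hf)
    rw [hU1z, add_zero] at h1
    simp only [ContinuousMap.comp_apply, cellStep_rx_rx] at h1
    rw [← h1, map_smul, map_smul, LinearMap.smul_apply, LinearMap.smul_apply]
    have h2 := hEV (f.comp rxK) (S.rx_inv.1 f hf)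
    rw [cellStep_comp_rx_rx] at h2
    rw [h2]

end CarpetLib
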