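import Pool.Agent.Lib.MP_f3090c_an.K.Form

/-!
# Dirichlet forms on the Sierpinski carpet, elementary formulation

A form is given by a set `F` of functions on the carpet `K` (its domain) and a function `E`
on pairs of functions, only its values on `F` being relevant.
-/

open Set Filter Topology MeasureTheory

namespace CarpetLib

/-- functions on the carpet -/
abbrev Fn : Type := K → ℝ

/-- continuity of a function on the carpet -/
def Fn.Cont (f : Fn) : Prop := Continuous f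

/-- `ψ_d` as a map of the carpet into itself -/
noncomputable def psiF (d : Dig) (z : K) : K := ⟨psi d z.1, psi_mem_carpet d z.2⟩

/-- the reflection `(x, y) ↦ (1 - x, y)` of the carpet -/
def rxF (z : K) : K := ⟨rxP z.1, rxP_carpet z.2⟩

/-- the reflection `(x, y) ↦ (y, x)` of the carpet -/
def swF (z : K) : K := ⟨swP z.1, swP_carpet z.2⟩

/-- `F` is a linear space of continuous functions -/
def IsSpace (F : Set Fn) : Prop := (∀ f ∈ F, f.Cont) ∧
  (∀ f ∈ F, ∀ g ∈ F, (fun x => f x + g x) ∈ F) ∧ ∀ c : ℝ, ∀ f ∈ F, (fun x => c * f x) ∈ F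

/-- `E` is a symmetric, bilinear and nonnegative form on `F` -/
def IsBilin (F : Set Fn) (E : Fn → Fn → ℝ) : Prop := (∀ f ∈ F, ∀ g ∈ F, E f g = E g f) ∧
  (∀ f ∈ F, ∀ g ∈ F, ∀ h ∈ F, E (fun x => f x + g x) h = E f h + E g h) ∧
  (∀ c : ℝ, ∀ f ∈ F, ∀ g ∈ F, E (fun x => c * f x) g = c * E f g) ∧ ∀ f ∈ F, 0 ≤ E f f

/-- `E(f, f) + ∫ f² dμ` -/
noncomputable def norm2 (μ : Measure K) (E : Fn → Fn → ℝ) (f : Fn) : ℝ :=
  E f f + ∫ x, f x ^ 2 ∂μ

/-- closedness: `F` is complete for the norm `(E(f, f) + ∫ f² dμ)^{1/2}` -/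
def IsClosedForm (μ : Measure K) (F : Set Fn) (E : Fn → Fn → ℝ) : Prop :=
  ∀ u : ℕ → Fn, (∀ n, u n ∈ F) →
    (∀ ε > 0, ∃ N, ∀ m ≥ N, ∀ n ≥ N, norm2 μ E (fun x => u m x - u n x) < ε) →
    ∃ f ∈ F, Tendsto (fun n => norm2 μ E (fun x => u n x - f x)) atTop (𝓝 0)

/-- the Markov property: every normal contraction operates -/
def IsMarkov (F : Set Fn) (E : Fn → Fn → ℝ) : Prop :=
  ∀ f ∈ F, ∀ φ : ℝ → ℝ, (∀ s t, |φ s - φ t| ≤ |s - t|) → φ 0 = 0 →
    (fun x => φ (f x)) ∈ F ∧ E (fun x => φ (f x)) (fun x => φ (f x)) ≤ E f f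

/-- regularity: `F` is uniformly dense in the space of continuous functions -/
def IsRegular (F : Set Fn) : Prop := ∀ g : Fn, g.Cont → ∀ ε > 0, ∃ f ∈ F, ∀ x, |f x - g x| < ε

/-- conservativeness -/
def IsConservative (F : Set Fn) (E : Fn → Fn → ℝ) : Prop :=
  (fun _ => 1) ∈ F ∧ E (fun _ => 1) (fun _ => 1) = 0

/-- irreducibility: only constants have energy zero -/
def IsIrred (F : Set Fn) (E : Fn → Fn → ℝ) : Prop := ∀ f ∈ F, E f f = 0 → ∀ x y, f x = f y

/-- self-similarity: a continuous `f` is in `F` if and only if all `f ∘ ψ_d` are, and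
`E(f, f) = ρ Σ_d E(f ∘ ψ_d, f ∘ ψ_d)` -/
def IsSelfSimilar (F : Set Fn) (E : Fn → Fn → ℝ) : Prop := ∃ ρ : ℝ, 0 < ρ ∧
  (∀ f : Fn, f.Cont → (f ∈ F ↔ ∀ d, (fun z => f (psiF d z)) ∈ F)) ∧
  ∀ f ∈ F, E f f = ρ * ∑ d, E (fun z => f (psiF d z)) (fun z => f (psiF d z))

/-- invariance under a symmetry -/
def IsInvariant (F : Set Fn) (E : Fn → Fn → ℝ) (σ : K → K) : Prop :=
  ∀ f ∈ F, (fun z => f (σ z)) ∈ F ∧ E (fun z => f (σ z)) (fun z => f (σ z)) = E f f

/-- The defining properties of the canonical form of Brownian motion on the carpet. -/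
structure IsCarpetForm (μ : Measure K) (F : Set Fn) (E : Fn → Fn → ℝ) : Prop where
  space : IsSpace F
  bilin : IsBilin F E
  closed : IsClosedForm μ F E
  markov : IsMarkov F E
  regular : IsRegular F
  conservative : IsConservative F E
  irred : IsIrred F E
  selfSimilar : IsSelfSimilar F E
  rx : IsInvariant F E rxF
  sw : IsInvariant F E swF

/-- `h` is in `F` and harmonic on `K \ V_0`: `E(h, v) = 0` for all `v ∈ F` vanishing on `V_0` -/
def IsHarmonic (F : Set Fn) (E : Fn → Fn → ℝ) (h : Fn) : Prop :=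
  h ∈ F ∧ ∀ v ∈ F, (∀ z ∈ V0, v z = 0) → E h v = 0

/-- `ν` is the energy measure `Γ(h, h)`: `∫ f dν = 2 E(hf, h) - E(h², f)` for all `f ∈ F` -/
def IsEnergyMeasure (F : Set Fn) (E : Fn → Fn → ℝ) (h : Fn) (ν : Measure K) : Prop :=
  IsFiniteMeasure ν ∧ (fun x => h x ^ 2) ∈ F ∧ ∀ f ∈ F, (fun x => h x * f x) ∈ F ∧
    ∫ x, f x ∂ν = 2 * E (fun x => h x * f x) h - E (fun x => h x ^ 2) f

/-- every nonempty open set has positive measure -/
def FullSupport (ν : Measure K) : Prop := ∀ U : Set K, IsOpen U → U.Nonempty → 0 < ν U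

namespace IsCarpetForm
variable {μ : Measure K} {F : Set Fn} {E : Fn → Fn → ℝ}

/-- the domain as a subspace of `C(K)` -/
def domC (h : IsCarpetForm μ F E) : Submodule ℝ C(K, ℝ) where
  carrier := {f | (f : Fn) ∈ F}
  add_mem' := by
    intro f g hf hg
    exact h.space.2.1 _ hf _ hg
  zero_mem' := by
    have := h.space.2.2 0 _ h.conservative.1
    have e : ((0 : C(K, ℝ)) : Fn) = fun x : K => (0:ℝ) * 1 := by
      funext x; simp
    show ((0 : C(K, ℝ)) : Fn) ∈ F
    rw [e]; exact this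
  smul_mem' := by
    intro c f hf
    exact h.space.2.2 c _ hf

theorem mem_domC (h : IsCarpetForm μ F E) {f : C(K, ℝ)} : f ∈ h.domC ↔ (f : Fn) ∈ F := Iff.rfl

/-- the form as a bilinear map -/
noncomputable def EC (h : IsCarpetForm μ F E) : h.domC →ₗ[ℝ] h.domC →ₗ[ℝ] ℝ :=
  LinearMap.mk₂ ℝ (fun f g => E (f.1 : Fn) (g.1 : Fn))
    (fun f g k => h.bilin.2.1 _ f.2 _ g.2 _ k.2)
    (fun c f k => h.bilin.2.2.1 c _ f.2 _ k.2)
    (fun f g k => by
      rw [h.bilin.1 _ f.2 _ (g + k).2, h.bilin.1 _ f.2 _ g.2,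
        h.bilin.1 _ f.2 _ k.2]
      exact h.bilin.2.1 _ g.2 _ k.2 _ f.2)
    (fun c f k => by
      rw [h.bilin.1 _ f.2 _ (c • k).2, h.bilin.1 _ f.2 _ k.2]
      exact h.bilin.2.2.1 c _ k.2 _ f.2)

theorem EC_apply (h : IsCarpetForm μ F E) (f g : h.domC) :
    h.EC f g = E (f.1 : Fn) (g.1 : Fn) := rfl

theorem exists_carpetForm (h : IsCarpetForm μ F E) :
    ∃ C : CarpetForm μ, (∀ f : C(K, ℝ), f ∈ C.dom ↔ (f : Fn) ∈ F) ∧
      ∀ f g : C.dom, C.E f g = E (f.1 : Fn) (g.1 : Fn) := by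
  obtain ⟨ρ, hρ, hmem, hss⟩ := h.selfSimilar
  have h1 : (1 : C(K, ℝ)) ∈ h.domC := h.conservative.1
  refine ⟨{ dom := h.domC
            E := h.EC
            symm := fun f g => h.bilin.1 _ f.2 _ g.2
            nonneg := fun f => h.bilin.2.2.2 _ f.2
            closed := ?_
            markov := ?_
            regular := ?_
            one_mem := h1
            E_one := h.conservative.2
            irreducible := fun f hf => h.irred _ f.2 hf
            ρ := ρ
            ρ_pos := hρ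
            mem_iff := fun f => hmem _ f.continuous
            selfSimilar := fun f => hss _ f.2
            rx_mem := fun f => (h.rx _ f.2).1
            rx_inv := fun f => (h.rx _ f.2).2
            sw_mem := fun f => (h.sw _ f.2).1
            sw_inv := fun f => (h.sw _ f.2).2 }, fun f => Iff.rfl, fun f g => rfl⟩
  · intro u hu
    obtain ⟨f, hf, hlim⟩ := h.closed (fun n => ((u n).1 : Fn)) (fun n => (u n).2) hu
    exact ⟨⟨⟨f, h.space.1 f hf⟩, hf⟩, hlim⟩
  · intro f φ hφ hφ0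
    obtain ⟨h1, h2⟩ := h.markov _ f.2 φ (fun s t => by
      have := hφ.dist_le_mul s t
      simpa [Real.dist_eq] using this) hφ0
    exact ⟨h1, h2⟩
  · rw [Metric.dense_iff]
    intro g ε hε
    obtain ⟨f, hf, hfg⟩ := h.regular g g.continuous (ε / 2) (by positivity)
    refine ⟨⟨f, h.space.1 f hf⟩, ?_, hf⟩
    rw [Metric.mem_ball, ContinuousMap.dist_lt_iff hε]
    intro x
    rw [Real.dist_eq]
    exact (hfg x).trans (by linarith)

end IsCarpetForm

end CarpetLib
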