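import Pool.Agent.Lib.MP_f3090c_an.K.Main
import Pool.Agent.Lib.MP_f3090c_an.K.FormF

/-!
# The main theorem for forms in the elementary formulation
-/

open Set Filter Topology MeasureTheory

namespace CarpetLib

/-- A harmonic function whose energy measure has full support. -/
theorem exists_fullSupport (μ : Measure K) [IsFiniteMeasure μ] (hμ : FullSupport μ) (F : Set Fn)
    (E : Fn → Fn → ℝ) (hE : IsCarpetForm μ F E) :
    ∃ h : Fn, IsHarmonic F E h ∧ (∃ ν : Measure K, IsEnergyMeasure F E h ν) ∧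
      ∀ ν : Measure K, IsEnergyMeasure F E h ν → FullSupport ν := by
  obtain ⟨C, hdom, hCE⟩ := hE.exists_carpetForm
  obtain ⟨h, hh, ⟨ν, hν, hint⟩, huniq⟩ := main μ hμ C
  have hsq : ((fun x => h.1 x ^ 2) : Fn) = ((h.1 * h.1 : C(K, ℝ)) : Fn) := by
    funext x; simp [sq]
  refine ⟨(h.1 : Fn), ⟨(hdom _).1 h.2, fun v hv hv0 => ?_⟩, ⟨ν, hν, ?_, fun f hf => ?_⟩, ?_⟩
  · have hvd : (⟨v, hE.space.1 v hv⟩ : C(K, ℝ)) ∈ C.dom := (hdom _).2 hv
    have := hh ⟨_, hvd⟩ hv0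
    rw [hCE] at this
    exact this
  · obtain ⟨-, h2, -⟩ := hint ⟨1, C.one_mem⟩
    rw [hsq]
    exact (hdom _).1 h2
  · have hfd : (⟨f, hE.space.1 f hf⟩ : C(K, ℝ)) ∈ C.dom := (hdom _).2 hf
    obtain ⟨h1, h2, hi⟩ := hint ⟨_, hfd⟩
    refine ⟨(hdom _).1 h1, ?_⟩
    rw [hCE, hCE] at hi
    rw [hsq]
    exact hi
  · rintro ν' ⟨hν', -, hint'⟩
    refine huniq ν' hν' fun f => ?_
    obtain ⟨k1, k2⟩ := hint' _ ((hdom _).1 f.2)
    obtain ⟨-, h2, -⟩ := hint f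
    have h1 : h.1 * f.1 ∈ C.dom := (hdom _).2 k1
    refine ⟨h1, h2, ?_⟩
    rw [hCE, hCE]
    rw [hsq] at k2
    exact k2

end CarpetLib
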