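import Pool.Agent.Lib.MP_f3090c_an.K.Sym
import Pool.Agent.Lib.MP_f3090c_an.K.WordDefs
import Pool.Agent.Lib.MP_f3090c_an.K.Digits
import Pool.Agent.Lib.MP_f3090c_an.R.HarmDefs

/-! dead cells. -/

open Set Filter Topology

namespace CarpetLib

/-- inseparability with respect to harmonic functions off the left and right sides, for all
pairs of points of the cell `w` -/
def Dead (S : SymForm) (w : List Dig) : Prop :=
  ∀ z z' : K, S.Insep LR (psiW w z) (psiW w z')

/-- the point `(1/3, 0)`, a corner of a subcell -/
noncomputable def p0 : K := psiK d10 c00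

end CarpetLib
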