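import Pool.Agent.Lib.MP_f3090c_an.K.PartDefs
import Pool.Agent.Lib.MP_f3090c_an.K.Lines

/-! K08: the left half, the quarter and the triangle, with their reflections. -/

open Set Filter Topology

namespace CarpetLib

private theorem parts_ext {z w : K} (h1 : z.1.1 = w.1.1) (h2 : z.1.2 = w.1.2) : z = w :=
  Subtype.ext (Prod.ext h1 h2)

private theorem parts_memA (z : K) : ((min z.1.1 (1 - z.1.1), z.1.2) : ℝ × ℝ) ∈ carpet := by
  rcases le_total z.1.1 (1 - z.1.1) with h | h
  · rw [min_eq_left h]; exact z.2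
  · rw [min_eq_right h]; exact rxP_carpet z.2

private theorem parts_memB (z : K) : ((z.1.1, min z.1.2 (1 - z.1.2)) : ℝ × ℝ) ∈ carpet := by
  rcases le_total z.1.2 (1 - z.1.2) with h | h
  · rw [min_eq_left h]; exact z.2
  · rw [min_eq_right h]; exact (ryK z).2

private theorem parts_memC (z : K) :
    ((max z.1.1 z.1.2, min z.1.1 z.1.2) : ℝ × ℝ) ∈ carpet := by
  rcases le_total z.1.1 z.1.2 with h | h
  · rw [max_eq_right h, min_eq_left h]; exact swP_carpet z.2
  · rw [max_eq_left h, min_eq_right h]; exact z.2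

private noncomputable def partsPA : C(K, HH) :=
  ⟨fun z => ⟨⟨(min z.1.1 (1 - z.1.1), z.1.2), parts_memA z⟩, by
      change min z.1.1 (1 - z.1.1) ≤ 1 / 2
      rcases le_total z.1.1 (1 - z.1.1) with h | h
      · rw [min_eq_left h]; linarith
      · rw [min_eq_right h]; linarith⟩, by
    apply Continuous.subtype_mk
    apply Continuous.subtype_mk
    exact (cont_fst.min (continuous_const.sub cont_fst)).prodMk cont_snd⟩

private theorem parts_cH1 : Continuous fun z : HH => z.1.1.1 :=
  cont_fst.comp continuous_subtype_val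

private theorem parts_cH2 : Continuous fun z : HH => z.1.1.2 :=
  cont_snd.comp continuous_subtype_val

private theorem parts_cQ1 : Continuous fun z : QQ => z.1.1.1 :=
  cont_fst.comp continuous_subtype_val

private theorem parts_cQ2 : Continuous fun z : QQ => z.1.1.2 :=
  cont_snd.comp continuous_subtype_val

private noncomputable def partsPB : C(HH, QQ) :=
  ⟨fun z => ⟨⟨(z.1.1.1, min z.1.1.2 (1 - z.1.1.2)), parts_memB z.1⟩, z.2, by
      change min z.1.1.2 (1 - z.1.1.2) ≤ 1 / 2
      rcases le_total z.1.1.2 (1 - z.1.1.2) with h | h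
      · rw [min_eq_left h]; linarith
      · rw [min_eq_right h]; linarith⟩, by
    apply Continuous.subtype_mk
    apply Continuous.subtype_mk
    exact parts_cH1.prodMk (parts_cH2.min (continuous_const.sub parts_cH2))⟩

private noncomputable def partsPC : C(QQ, TT) :=
  ⟨fun z => ⟨⟨(max z.1.1.1 z.1.1.2, min z.1.1.1 z.1.1.2), parts_memC z.1⟩, by
      change min z.1.1.1 z.1.1.2 ≤ max z.1.1.1 z.1.1.2
      exact min_le_max, by
      change max z.1.1.1 z.1.1.2 ≤ 1 / 2
      exact max_le z.2.1 z.2.2⟩, by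
    apply Continuous.subtype_mk
    apply Continuous.subtype_mk
    exact (parts_cQ1.max parts_cQ2).prodMk (parts_cQ1.min parts_cQ2)⟩

private def partsSB : C(HH, HH) :=
  ⟨fun z => ⟨ryK z.1, z.2⟩, by
    apply Continuous.subtype_mk
    exact (ContinuousMap.continuous ryK).comp continuous_subtype_val⟩

private def partsSC : C(QQ, QQ) :=
  ⟨fun z => ⟨swK z.1, z.2.2, z.2.1⟩, by
    apply Continuous.subtype_mk
    exact (ContinuousMap.continuous swK).comp continuous_subtype_val⟩

/-- K08a: folding along `x = 1/2` -/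
theorem exists_mirA : ∃ T : Mir K HH, T.σ = rxK ∧ T.O = {z | z.1.1 < 1 / 2} ∧ T.ι = inclHK ∧
    ∀ z, ((T.π z).1.1.1 = min z.1.1 (1 - z.1.1) ∧ (T.π z).1.1.2 = z.1.2) := by
  refine ⟨⟨rxK, {z | z.1.1 < 1 / 2}, partsPA, inclHK, ?_, ?_, ?_, ?_, ?_, ?_, ?_, ?_, ?_⟩,
    rfl, rfl, rfl, fun z => ⟨rfl, rfl⟩⟩
  · intro z
    refine parts_ext ?_ rfl
    change 1 - (1 - z.1.1) = z.1.1
    ring
  · exact isOpen_lt cont_fst continuous_const
  · intro z hz h
    change z.1.1 < 1 / 2 at hz
    change 1 - z.1.1 < 1 / 2 at h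
    linarith
  · intro z
    rcases lt_trichotomy z.1.1 (1 / 2) with h | h | h
    · exact Or.inl h
    · right; right
      refine parts_ext ?_ rfl
      change 1 - z.1.1 = z.1.1
      linarith
    · right; left
      change 1 - z.1.1 < 1 / 2
      linarith
  · intro z hz
    have h : z.1.1 = 1 / 2 := frontier_lt_subset_eq cont_fst continuous_const hz
    refine parts_ext ?_ rfl
    change 1 - z.1.1 = z.1.1
    linarith
  · intro y
    have hy : y.1.1.1 ≤ 1 / 2 := y.2
    refine Subtype.ext (parts_ext ?_ rfl)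
    change min y.1.1.1 (1 - y.1.1.1) = y.1.1.1
    exact min_eq_left (by linarith)
  · intro z hz
    change z.1.1 < 1 / 2 at hz
    refine parts_ext ?_ rfl
    change min z.1.1 (1 - z.1.1) = z.1.1
    exact min_eq_left (by linarith)
  · intro z hz
    have h : 1 - z.1.1 = z.1.1 := congrArg (fun w : K => w.1.1) hz
    refine parts_ext ?_ rfl
    change min z.1.1 (1 - z.1.1) = z.1.1
    exact min_eq_left (by linarith)
  · intro z
    refine Subtype.ext (parts_ext ?_ rfl)
    change min (1 - z.1.1) (1 - (1 - z.1.1)) = min z.1.1 (1 - z.1.1)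
    rw [sub_sub_cancel, min_comm]

/-- K08b: folding along `y = 1/2` -/
theorem exists_mirB : ∃ T : Mir HH QQ, T.O = {z | z.1.1.2 < 1 / 2} ∧ T.ι = inclQH ∧
    (∀ z, (T.σ z).1 = ryK z.1) ∧
    ∀ z, ((T.π z).1.1.1 = z.1.1.1 ∧ (T.π z).1.1.2 = min z.1.1.2 (1 - z.1.1.2)) := by
  refine ⟨⟨partsSB, {z | z.1.1.2 < 1 / 2}, partsPB, inclQH, ?_, ?_, ?_, ?_, ?_, ?_, ?_, ?_, ?_⟩,
    rfl, rfl, fun z => rfl, fun z => ⟨rfl, rfl⟩⟩
  · intro z
    refine Subtype.ext (parts_ext rfl ?_)
    change 1 - (1 - z.1.1.2) = z.1.1.2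
    ring
  · exact isOpen_lt parts_cH2 continuous_const
  · intro z hz h
    change z.1.1.2 < 1 / 2 at hz
    change 1 - z.1.1.2 < 1 / 2 at h
    linarith
  · intro z
    rcases lt_trichotomy z.1.1.2 (1 / 2) with h | h | h
    · exact Or.inl h
    · right; right
      refine Subtype.ext (parts_ext rfl ?_)
      change 1 - z.1.1.2 = z.1.1.2
      linarith
    · right; left
      change 1 - z.1.1.2 < 1 / 2
      linarith
  · intro z hz
    have h : z.1.1.2 = 1 / 2 := frontier_lt_subset_eq parts_cH2 continuous_const hz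
    refine Subtype.ext (parts_ext rfl ?_)
    change 1 - z.1.1.2 = z.1.1.2
    linarith
  · intro y
    have hy : y.1.1.2 ≤ 1 / 2 := y.2.2
    refine Subtype.ext (parts_ext rfl ?_)
    change min y.1.1.2 (1 - y.1.1.2) = y.1.1.2
    exact min_eq_left (by linarith)
  · intro z hz
    change z.1.1.2 < 1 / 2 at hz
    refine Subtype.ext (parts_ext rfl ?_)
    change min z.1.1.2 (1 - z.1.1.2) = z.1.1.2
    exact min_eq_left (by linarith)
  · intro z hz
    have h : 1 - z.1.1.2 = z.1.1.2 := congrArg (fun w : HH => w.1.1.2) hz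
    refine Subtype.ext (parts_ext rfl ?_)
    change min z.1.1.2 (1 - z.1.1.2) = z.1.1.2
    exact min_eq_left (by linarith)
  · intro z
    refine Subtype.ext (parts_ext rfl ?_)
    change min (1 - z.1.1.2) (1 - (1 - z.1.1.2)) = min z.1.1.2 (1 - z.1.1.2)
    rw [sub_sub_cancel, min_comm]

/-- K08c: folding along `y = x` -/
theorem exists_mirC : ∃ T : Mir QQ TT, T.O = {z | z.1.1.2 < z.1.1.1} ∧ T.ι = inclTQ ∧
    (∀ z, (T.σ z).1 = swK z.1) ∧
    ∀ z, ((T.π z).1.1.1 = max z.1.1.1 z.1.1.2 ∧ (T.π z).1.1.2 = min z.1.1.1 z.1.1.2) := by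
  refine ⟨⟨partsSC, {z | z.1.1.2 < z.1.1.1}, partsPC, inclTQ, ?_, ?_, ?_, ?_, ?_, ?_, ?_, ?_, ?_⟩,
    rfl, rfl, fun z => rfl, fun z => ⟨rfl, rfl⟩⟩
  · intro z
    exact Subtype.ext (parts_ext rfl rfl)
  · exact isOpen_lt parts_cQ2 parts_cQ1
  · intro z hz h
    change z.1.1.2 < z.1.1.1 at hz
    change z.1.1.1 < z.1.1.2 at h
    linarith
  · intro z
    rcases lt_trichotomy z.1.1.2 z.1.1.1 with h | h | h
    · exact Or.inl h
    · right; right
      exact Subtype.ext (parts_ext h h.symm)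
    · right; left
      exact h
  · intro z hz
    have h : z.1.1.2 = z.1.1.1 := frontier_lt_subset_eq parts_cQ2 parts_cQ1 hz
    exact Subtype.ext (parts_ext h h.symm)
  · intro y
    have hy : y.1.1.2 ≤ y.1.1.1 := y.2.1
    refine Subtype.ext (parts_ext ?_ ?_)
    · exact max_eq_left hy
    · exact min_eq_right hy
  · intro z hz
    change z.1.1.2 < z.1.1.1 at hz
    refine Subtype.ext (parts_ext ?_ ?_)
    · exact max_eq_left hz.le
    · exact min_eq_right hz.le
  · intro z hz
    have h : z.1.1.2 = z.1.1.1 := congrArg (fun w : QQ => w.1.1.1) hz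
    refine Subtype.ext (parts_ext ?_ ?_)
    · exact max_eq_left h.le
    · exact min_eq_right h.le
  · intro z
    refine Subtype.ext (parts_ext ?_ ?_)
    · exact max_comm _ _
    · exact min_comm _ _

end CarpetLib
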