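import Pool.Agent.Lib.MP_f3090c_an.K.PartDefs
import Pool.Agent.Lib.MP_f3090c_an.K.Lines
import Pool.Agent.Lib.MP_f3090c_an.P.Half
import Pool.Agent.Lib.MP_f3090c_an.R.MirrorDefs

/-! K06b: mirror data for the quarter. -/

open Set Filter Topology

namespace CarpetLib

/-- the coordinates `(y - 1/2, x)` -/
private noncomputable def qd_phi (z : QQ) : ℝ × ℝ := (z.1.1.2 - 1 / 2, z.1.1.1)

private theorem qd_phi_cont : Continuous qd_phi := by
  have h1 : Continuous fun z : QQ => z.1.1.2 := cont_snd.comp continuous_subtype_val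
  have h2 : Continuous fun z : QQ => z.1.1.1 := cont_fst.comp continuous_subtype_val
  exact (h1.sub continuous_const).prodMk h2

private theorem qd_phi_inj : Function.Injective qd_phi := by
  intro z w h
  simp only [qd_phi, Prod.mk.injEq] at h
  apply Subtype.ext
  apply Subtype.ext
  exact Prod.ext h.2 (by linarith [h.1])

private theorem qd_x0 (z : QQ) : 0 ≤ z.1.1.1 := (carpet_subset_unitSq z.1.2).1.1
private theorem qd_y0 (z : QQ) : 0 ≤ z.1.1.2 := (carpet_subset_unitSq z.1.2).2.1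
private theorem qd_x1 (z : QQ) : z.1.1.1 ≤ 1 / 2 := z.2.1
private theorem qd_y1 (z : QQ) : z.1.1.2 ≤ 1 / 2 := z.2.2

private theorem qd_ind : IsInducing (fun z : QQ => z.1.1) :=
  IsInducing.subtypeVal.comp IsInducing.subtypeVal

/-- a compact connected planar set inside the quarter gives one in `QQ` -/
private theorem qd_pull (S : Set (ℝ × ℝ)) (hS : IsClosed S) (hc : IsPreconnected S)
    (hsub : ∀ p ∈ S, p ∈ carpet ∧ p.1 ≤ 1 / 2 ∧ p.2 ≤ 1 / 2) :
    IsCompact ((fun z : QQ => z.1.1) ⁻¹' S) ∧ IsPreconnected ((fun z : QQ => z.1.1) ⁻¹' S) := by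
  refine ⟨(hS.preimage qd_ind.continuous).isCompact, ?_⟩
  rw [← qd_ind.isPreconnected_image, image_preimage_eq_of_subset]
  · exact hc
  · intro p hp
    obtain ⟨h1, h2, h3⟩ := hsub p hp
    exact ⟨⟨⟨p, h1⟩, ⟨h2, h3⟩⟩, rfl⟩

private theorem qd_full (z : QQ) (hz : z.1.1.2 = 1 / 2) : Full z.1.1.1 ∧ z.1.1.1 ≤ 1 / 3 := by
  have h1 : ((1:ℝ) / 2, z.1.1.1) ∈ carpet := by
    have := swP_carpet z.1.2
    simpa [swP, hz] using this
  refine ⟨full_of_mid h1, ?_⟩
  rcases mid_gap h1 with h | h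
  · exact h
  · have := qd_x1 z
    linarith

theorem exists_quarData : ∃ M : MirrorData QQ, M.m = {z : QQ | z.1.1.2 = 1 / 2} ∧
    M.e1.1.1 = (0, 0) ∧ M.e2.1.1 = (1 / 2, 1 / 3) ∧ M.b4.1.1 = (1 / 2, 0) := by
  have hthird : Full (1 / 3) := by
    have := full_third 1 (by norm_num)
    simpa using this
  let e1 : QQ := ⟨⟨(0, 0), left_mem le_rfl zero_le_one⟩, ⟨by norm_num, by norm_num⟩⟩
  let e2 : QQ := ⟨⟨(1 / 2, 1 / 3), hthird.mem_left (by norm_num) (by norm_num)⟩,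
    ⟨by norm_num, by norm_num⟩⟩
  let b4 : QQ := ⟨⟨(1 / 2, 0), bot_mem (by norm_num) (by norm_num)⟩, ⟨by norm_num, by norm_num⟩⟩
  have p1 : qd_phi e1 = (-(1 / 2), 0) := by simp [qd_phi, e1]
  have p2 : qd_phi e2 = (-(1 / 6), 1 / 2) := by
    simp only [qd_phi, e2]
    norm_num
  have p4 : qd_phi b4 = (-(1 / 2), 1 / 2) := by simp [qd_phi, b4]
  have hclosed : IsClosed {z : QQ | z.1.1.2 = 1 / 2} :=
    isClosed_eq (cont_snd.comp continuous_subtype_val) continuous_const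
  have hneg : ∀ C : Set QQ, ∀ w ∈ qd_phi '' C, w.1 ≤ 0 := by
    rintro C w ⟨z, -, rfl⟩
    have := qd_y1 z
    simp only [qd_phi]
    linarith
  have hline : ∀ z : QQ, z.1.1.2 = 1 / 2 → qd_phi z = (0, z.1.1.1) := by
    intro z hz
    simp only [qd_phi, hz, sub_self]
  refine ⟨{ m := {z : QQ | z.1.1.2 = 1 / 2}
            closed := hclosed
            nonempty := ⟨⟨⟨(0, 1 / 2), left_mem (by norm_num) (by norm_num)⟩,
              ⟨by norm_num, le_rfl⟩⟩, rfl⟩
            θ := fun z => z.1.1.1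
            inj := ?_
            e1 := e1
            e2 := e2
            b4 := b4
            P1 := ?_
            P2 := ?_
            P3 := ?_ }, rfl, rfl, rfl, rfl⟩
  · intro z hz w hw h
    apply Subtype.ext
    apply Subtype.ext
    exact Prod.ext h (Eq.trans (b := 1 / 2) hz (Eq.symm hw))
  · intro b1 h1 b2 h2 b3 h3 h12 h23 C C' hC hCc hC' hCc' m1 m3 m2 m4
    have q1 := hline b1 h1
    have q2 := hline b2 h2
    have q3 := hline b3 h3
    have x3 := qd_x1 b3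
    let A : Set (ℝ × ℝ) := {-(1 / 2)} ×ˢ Icc (1 / 2) 2
    let B : Set (ℝ × ℝ) := Icc (-(1 / 2)) 0 ×ˢ {2}
    have kA : IsCompact A := isCompact_singleton.prod isCompact_Icc
    have kB : IsCompact B := isCompact_Icc.prod isCompact_singleton
    have cA : IsPreconnected A := isPreconnected_singleton.prod isPreconnected_Icc
    have cB : IsPreconnected B := isPreconnected_Icc.prod isPreconnected_singleton
    have mA : ∀ z : ℝ × ℝ, z ∈ A ↔ z.1 = -(1 / 2) ∧ (1 / 2 ≤ z.2 ∧ z.2 ≤ 2) := fun z => Iff.rfl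
    have mB : ∀ z : ℝ × ℝ, z ∈ B ↔ (-(1 / 2) ≤ z.1 ∧ z.1 ≤ 0) ∧ z.2 = 2 := fun z => Iff.rfl
    have c1 : IsPreconnected (qd_phi '' C' ∪ A) :=
      (hCc'.image _ qd_phi_cont.continuousOn).union (-(1 / 2), 1 / 2) ⟨b4, m4, p4⟩
        ((mA _).2 (by norm_num)) cA
    have c2 : IsPreconnected (qd_phi '' C' ∪ A ∪ B) :=
      c1.union (-(1 / 2), 2) (Or.inr ((mA _).2 (by norm_num))) ((mB _).2 (by norm_num)) cB
    obtain ⟨w, hw, hw'⟩ := half_crossing (C := qd_phi '' C) (C' := qd_phi '' C' ∪ A ∪ B)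
      (t1 := b1.1.1.1) (t2 := b2.1.1.1) (t3 := b3.1.1.1) (t4 := 2)
      (hC.image qd_phi_cont) (hCc.image _ qd_phi_cont.continuousOn)
      (((hC'.image qd_phi_cont).union kA).union kB) c2 (hneg C) (by
        rintro z ((hz | hz) | hz)
        · exact hneg C' z hz
        · rw [mA] at hz; linarith [hz.1]
        · rw [mB] at hz; linarith [hz.1.2]) h12 h23 (by linarith) ⟨b1, m1, q1⟩ ⟨b3, m3, q3⟩
      (Or.inl (Or.inl ⟨b2, m2, q2⟩)) (Or.inr ((mB _).2 (by norm_num)))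
    obtain ⟨z, hz, rfl⟩ := hw
    rcases hw' with (⟨z', hz', e⟩ | h) | h
    · exact ⟨z, hz, qd_phi_inj e ▸ hz'⟩
    · rw [mA] at h
      have hx := qd_x1 z
      have h5 : qd_phi z = qd_phi b4 := by
        rw [p4]
        refine Prod.ext h.1 (le_antisymm hx h.2.1)
      rw [qd_phi_inj h5] at hz
      exact ⟨b4, hz, m4⟩
    · rw [mB] at h
      have hx := qd_x1 z
      have : z.1.1.1 = 2 := h.2
      linarith
  · intro a ha b hb hab C C' hC hCc hC' hCc' ma me2 mb me1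
    have qa := hline a ha
    have qb := hline b hb
    have xa := qd_x0 a
    have xb := qd_x1 b
    let A : Set (ℝ × ℝ) := {-(1 / 6)} ×ˢ Icc (1 / 2) 1
    let B : Set (ℝ × ℝ) := Icc (-(1 / 6)) 0 ×ˢ {1}
    let A' : Set (ℝ × ℝ) := {-(1 / 2)} ×ˢ Icc (-1) 0
    let B' : Set (ℝ × ℝ) := Icc (-(1 / 2)) 0 ×ˢ {-1}
    have kA : IsCompact A := isCompact_singleton.prod isCompact_Icc
    have kB : IsCompact B := isCompact_Icc.prod isCompact_singleton
    have kA' : IsCompact A' := isCompact_singleton.prod isCompact_Icc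
    have kB' : IsCompact B' := isCompact_Icc.prod isCompact_singleton
    have cA : IsPreconnected A := isPreconnected_singleton.prod isPreconnected_Icc
    have cB : IsPreconnected B := isPreconnected_Icc.prod isPreconnected_singleton
    have cA' : IsPreconnected A' := isPreconnected_singleton.prod isPreconnected_Icc
    have cB' : IsPreconnected B' := isPreconnected_Icc.prod isPreconnected_singleton
    have mA : ∀ z : ℝ × ℝ, z ∈ A ↔ z.1 = -(1 / 6) ∧ (1 / 2 ≤ z.2 ∧ z.2 ≤ 1) := fun z => Iff.rfl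
    have mB : ∀ z : ℝ × ℝ, z ∈ B ↔ (-(1 / 6) ≤ z.1 ∧ z.1 ≤ 0) ∧ z.2 = 1 := fun z => Iff.rfl
    have mA' : ∀ z : ℝ × ℝ, z ∈ A' ↔ z.1 = -(1 / 2) ∧ (-1 ≤ z.2 ∧ z.2 ≤ 0) := fun z => Iff.rfl
    have mB' : ∀ z : ℝ × ℝ, z ∈ B' ↔ (-(1 / 2) ≤ z.1 ∧ z.1 ≤ 0) ∧ z.2 = -1 := fun z => Iff.rfl
    have c1 : IsPreconnected (qd_phi '' C ∪ A) :=
      (hCc.image _ qd_phi_cont.continuousOn).union (-(1 / 6), 1 / 2) ⟨e2, me2, p2⟩
        ((mA _).2 (by norm_num)) cA
    have c2 : IsPreconnected (qd_phi '' C ∪ A ∪ B) :=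
      c1.union (-(1 / 6), 1) (Or.inr ((mA _).2 (by norm_num))) ((mB _).2 (by norm_num)) cB
    have c1' : IsPreconnected (qd_phi '' C' ∪ A') :=
      (hCc'.image _ qd_phi_cont.continuousOn).union (-(1 / 2), 0) ⟨e1, me1, p1⟩
        ((mA' _).2 (by norm_num)) cA'
    have c2' : IsPreconnected (qd_phi '' C' ∪ A' ∪ B') :=
      c1'.union (-(1 / 2), -1) (Or.inr ((mA' _).2 (by norm_num))) ((mB' _).2 (by norm_num)) cB'
    obtain ⟨w, hw', hw⟩ := half_crossing (C := qd_phi '' C' ∪ A' ∪ B') (C' := qd_phi '' C ∪ A ∪ B)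
      (t1 := -1) (t2 := a.1.1.1) (t3 := b.1.1.1) (t4 := 1)
      (((hC'.image qd_phi_cont).union kA').union kB') c2'
      (((hC.image qd_phi_cont).union kA).union kB) c2 (by
        rintro z ((hz | hz) | hz)
        · exact hneg C' z hz
        · rw [mA'] at hz; linarith [hz.1]
        · rw [mB'] at hz; linarith [hz.1.2]) (by
        rintro z ((hz | hz) | hz)
        · exact hneg C z hz
        · rw [mA] at hz; linarith [hz.1]
        · rw [mB] at hz; linarith [hz.1.2]) (by linarith) hab (by linarith)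
      (Or.inr ((mB' _).2 (by norm_num))) (Or.inl (Or.inl ⟨b, mb, qb⟩))
      (Or.inl (Or.inl ⟨a, ma, qa⟩)) (Or.inr ((mB _).2 (by norm_num)))
    rcases hw' with (⟨z', hz', rfl⟩ | h') | h'
    · rcases hw with (⟨z, hz, e⟩ | h) | h
      · exact ⟨z', qd_phi_inj e ▸ hz, hz'⟩
      · rw [mA] at h
        have hx := qd_x1 z'
        have h5 : qd_phi z' = qd_phi e2 := by
          rw [p2]
          refine Prod.ext h.1 (le_antisymm hx h.2.1)
        rw [qd_phi_inj h5] at hz'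
        exact ⟨e2, me2, hz'⟩
      · rw [mB] at h
        have hx := qd_x1 z'
        have : z'.1.1.1 = 1 := h.2
        linarith
    · rw [mA'] at h'
      rcases hw with (⟨z, hz, rfl⟩ | h) | h
      · have hx := qd_x0 z
        have h5 : qd_phi z = qd_phi e1 := by
          rw [p1]
          refine Prod.ext h'.1 (le_antisymm h'.2.2 hx)
        rw [qd_phi_inj h5] at hz
        exact ⟨e1, hz, me1⟩
      · rw [mA] at h; exfalso; linarith [h.1, h'.1]
      · rw [mB] at h; exfalso; linarith [h.2, h'.2.2]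
    · rw [mB'] at h'
      rcases hw with (⟨z, hz, rfl⟩ | h) | h
      · have hx := qd_x0 z
        have : z.1.1.1 = -1 := h'.2
        exfalso; linarith
      · rw [mA] at h; exfalso; linarith [h.2.1, h'.2]
      · rw [mB] at h; exfalso; linarith [h.2, h'.2]
  · intro a ha b hb hab
    obtain ⟨fa, la⟩ := qd_full a ha
    obtain ⟨fb, lb⟩ := qd_full b hb
    set s1 := a.1.1.1 with hs1
    set s2 := b.1.1.1 with hs2
    have ha' : a.1.1.2 = 1 / 2 := ha
    have hb' : b.1.1.2 = 1 / 2 := hb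
    have hab' : s1 < s2 := hab
    let S1 : Set (ℝ × ℝ) := {s1} ×ˢ Icc 0 (1 / 2) ∪ Icc 0 s1 ×ˢ {0}
    let S2 : Set (ℝ × ℝ) := {s2} ×ˢ Icc (1 / 3) (1 / 2) ∪ Icc s2 (1 / 2) ×ˢ {1 / 3}
    have m1 : ∀ z : ℝ × ℝ, z ∈ S1 ↔ (z.1 = s1 ∧ (0 ≤ z.2 ∧ z.2 ≤ 1 / 2)) ∨
        ((0 ≤ z.1 ∧ z.1 ≤ s1) ∧ z.2 = 0) := fun z => Iff.rfl
    have m2 : ∀ z : ℝ × ℝ, z ∈ S2 ↔ (z.1 = s2 ∧ (1 / 3 ≤ z.2 ∧ z.2 ≤ 1 / 2)) ∨
        ((s2 ≤ z.1 ∧ z.1 ≤ 1 / 2) ∧ z.2 = 1 / 3) := fun z => Iff.rfl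
    have k1 : IsClosed S1 := (isClosed_singleton.prod isClosed_Icc).union
      (isClosed_Icc.prod isClosed_singleton)
    have k2 : IsClosed S2 := (isClosed_singleton.prod isClosed_Icc).union
      (isClosed_Icc.prod isClosed_singleton)
    have c1 : IsPreconnected S1 :=
      (isPreconnected_singleton.prod isPreconnected_Icc).union (s1, 0)
        ⟨rfl, by norm_num⟩ ⟨⟨fa.1, le_rfl⟩, rfl⟩ (isPreconnected_Icc.prod isPreconnected_singleton)
    have c2 : IsPreconnected S2 :=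
      (isPreconnected_singleton.prod isPreconnected_Icc).union (s2, 1 / 3)
        ⟨rfl, by norm_num⟩ ⟨⟨le_rfl, by linarith⟩, rfl⟩
        (isPreconnected_Icc.prod isPreconnected_singleton)
    obtain ⟨kk1, cc1⟩ := qd_pull S1 k1 c1 (by
      rintro ⟨x, y⟩ hp
      rw [m1] at hp
      simp only at hp
      rcases hp with ⟨hx, hy0, hy1⟩ | ⟨⟨hx0, hx1⟩, hy⟩
      · refine ⟨?_, by simp only; linarith, hy1⟩
        rw [hx]
        exact fa.2.2 y hy0 (by linarith)
      · refine ⟨?_, by simp only; linarith, by simp only; linarith⟩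
        rw [hy]
        exact bot_mem hx0 (by linarith))
    obtain ⟨kk2, cc2⟩ := qd_pull S2 k2 c2 (by
      rintro ⟨x, y⟩ hp
      rw [m2] at hp
      simp only at hp
      rcases hp with ⟨hx, hy0, hy1⟩ | ⟨⟨hx0, hx1⟩, hy⟩
      · refine ⟨?_, by simp only; linarith, hy1⟩
        rw [hx]
        exact fb.2.2 y (by linarith) (by linarith)
      · refine ⟨?_, hx1, by simp only; linarith⟩
        rw [hy]
        exact hthird.mem_left (by linarith [fb.1]) (by linarith))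
    refine ⟨_, _, kk1, cc1, kk2, cc2, ?_, ?_, ?_, ?_, ?_⟩
    · rw [Set.disjoint_left]
      intro z hz hz'
      have hz1 := (m1 _).1 hz
      have hz2 := (m2 _).1 hz'
      have h5 : z.1.1.1 ≤ s1 := by
        rcases hz1 with h | h
        · exact h.1.le
        · exact h.1.2
      have h6 : s2 ≤ z.1.1.1 := by
        rcases hz2 with h | h
        · exact h.1.ge
        · exact h.1.1
      linarith
    · exact (m1 _).2 (Or.inl ⟨rfl, by rw [ha']; norm_num, ha'.le⟩)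
    · exact (m1 _).2 (Or.inr ⟨⟨le_rfl, fa.1⟩, rfl⟩)
    · exact (m2 _).2 (Or.inl ⟨rfl, by rw [hb']; norm_num, hb'.le⟩)
    · exact (m2 _).2 (Or.inr ⟨⟨by change s2 ≤ 1 / 2; linarith, le_rfl⟩, rfl⟩)

end CarpetLib
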