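import Pool.Agent.Lib.MP_f3090c_an.K.HalfData
import Pool.Agent.Lib.MP_f3090c_an.K.QuarData
import Pool.Agent.Lib.MP_f3090c_an.K.Points
import Pool.Agent.Lib.MP_f3090c_an.K.Parts
import Pool.Agent.Lib.MP_f3090c_an.R.MirrorStep
import Pool.Agent.Lib.MP_f3090c_an.R.HarmDefs

/-! K10a. -/

open Set Filter Topology

namespace CarpetLib

private theorem QuarterStep_pre {P : Set K} {C : Set K} (hC : IsPreconnected C) (hCP : C ⊆ P) :
    IsPreconnected {z : ↥P | z.1 ∈ C} := by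
  have h1 : (Subtype.val '' {z : ↥P | z.1 ∈ C}) = C := by
    ext z
    constructor
    · rintro ⟨w, hw, rfl⟩
      exact hw
    · intro hz
      exact ⟨⟨z, hCP hz⟩, hz, rfl⟩
  rw [← Topology.IsInducing.subtypeVal.isPreconnected_image, h1]
  exact hC

/-- K10a: reflections in `x = 1/2` and `y = 1/2` -/
theorem quarter_step (S : SymForm) {x x' : K} (hx : x ∈ quarS) (hx' : x' ∈ quarS)
    (hA : ∃ C : Set K, IsPreconnected C ∧ (∀ z ∈ C, z.1.1 < 1 / 2) ∧ x' ∈ C ∧ cL ∈ C)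
    (hB : ∃ C : Set K, IsPreconnected C ∧ (∀ z ∈ C, z.1.1 ≤ 1 / 2 ∧ z.1.2 < 1 / 2) ∧ x' ∈ C ∧
      cM ∈ C)
    (h : S.Insep LR x x') :
    ∃ u ∈ S.dom, (∀ z : K, 1 / 2 ≤ z.1.1 ∨ 1 / 2 ≤ z.1.2 → u z = 0) ∧ u c00 = 0 ∧
      ∀ f ∈ S.dom, S.E u f = f x - f x' := by
  obtain ⟨u, huZ, hux⟩ := h
  have hu : u ∈ S.dom := huZ.1
  have hLR : ∀ z : K, z.1.1 = 0 ∨ z.1.1 = 1 → u z = 0 := huZ.2
  -- first reflection
  obtain ⟨TA, hAσ, hAO, hAι, hAπ⟩ := exists_mirA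
  obtain ⟨MA, hMA, hA1, hA2, hA4⟩ := exists_halfData
  have hIA : S.toRForm.Inv TA.σ := by rw [hAσ]; exact S.rx_inv
  have hιA : ∀ y : HH, TA.ι y = y.1 := fun y => by rw [hAι]; rfl
  have hmA : MA.m = {y | TA.σ (TA.ι y) = TA.ι y} := by
    rw [hMA, hAσ]
    ext y
    simp only [Set.mem_ofPred_eq]
    rw [hιA]
    constructor
    · intro hy
      apply Subtype.ext
      refine Prod.ext ?_ rfl
      show 1 - y.1.1.1 = y.1.1.1
      rw [hy]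
      norm_num
    · intro hy
      have h1 := congrArg (fun z : K => z.1.1) hy
      have h2 : 1 - y.1.1.1 = y.1.1.1 := h1
      linarith
  have hσA : ∀ z : K, (TA.σ z).1.1 = 1 - z.1.1 := fun z => by rw [hAσ]; rfl
  have hP4A : ∃ C : Set HH, IsPreconnected C ∧ Disjoint C MA.m ∧ (⟨x', hx'.1⟩ : HH) ∈ C ∧
      MA.b4 ∈ C := by
    obtain ⟨C, hC, hC1, hC2, hC3⟩ := hA
    refine ⟨{z : HH | z.1 ∈ C}, QuarterStep_pre hC (fun z hz => (hC1 z hz).le), ?_, hC2, ?_⟩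
    · rw [Set.disjoint_left]
      intro z hz hzm
      rw [hMA] at hzm
      have h1 := hC1 _ hz
      have h2 : z.1.1.1 = 1 / 2 := hzm
      linarith
    · have : MA.b4.1 = cL := Subtype.ext hA4
      show MA.b4.1 ∈ C
      rw [this]
      exact hC3
  have zA1 : ∀ y : HH, y.1.1.1 = 0 → u (TA.ι y) = 0 := fun y hy => by
    rw [hιA]; exact hLR _ (Or.inl hy)
  have zA2 : ∀ y : HH, y.1.1.1 = 0 → u (TA.σ (TA.ι y)) = 0 := fun y hy => by
    apply hLR _ (Or.inr _)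
    rw [hσA, hιA, hy, sub_zero]
  have e1 : MA.e1.1.1.1 = 0 := by rw [hA1]
  have e2 : MA.e2.1.1.1 = 0 := by rw [hA2]
  have e4 : MA.b4.1.1.1 = 0 := by rw [hA4]
  have huA := S.toRForm.mirror_step TA hIA MA hmA (x := ⟨x, hx.1⟩) (x' := ⟨x', hx'.1⟩) hP4A hu
    (fun f hf => by rw [hιA, hιA]; exact hux f hf) (zA1 _ e1) (zA2 _ e1) (zA1 _ e2) (zA2 _ e2)
    ((zA1 _ e4).trans (zA2 _ e4).symm)
  have hhalf : ∀ z : K, 1 / 2 ≤ z.1.1 → u z = 0 := by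
    intro z hz
    apply huA
    rw [hAO]
    exact not_lt.2 hz
  -- the quotient form on the left half
  obtain ⟨SH, hSH, hSHE⟩ := S.toRForm.exists_half TA hIA
  obtain ⟨hv, hvx⟩ := S.toRForm.half_potential TA hIA hSH hSHE hu huA (x := ⟨x, hx.1⟩)
    (x' := ⟨x', hx'.1⟩) (fun f hf => by rw [hιA, hιA]; exact hux f hf)
  have hvz : ∀ y : HH, (u.comp TA.ι) y = u y.1 := fun y => by
    show u (TA.ι y) = _
    rw [hιA]
  -- second reflection
  obtain ⟨TB, hBO, hBι, hBσ, hBπ⟩ := exists_mirB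
  obtain ⟨MB, hMB, hB1, hB2, hB4⟩ := exists_quarData
  have hcomm : ∀ z : K, TB.σ (TA.π z) = TA.π (ryK z) := by
    intro z
    apply Subtype.ext
    rw [hBσ]
    apply Subtype.ext
    refine Prod.ext ?_ ?_
    · rw [ryK_fst, (hAπ z).1, (hAπ (ryK z)).1, ryK_fst]
    · rw [ryK_snd, (hAπ z).2, (hAπ (ryK z)).2, ryK_snd]
  have hcomp : ∀ f : C(HH, ℝ), (f.comp TB.σ).comp TA.π = (f.comp TA.π).comp ryK := by
    intro f
    ext z
    show f (TB.σ (TA.π z)) = f (TA.π (ryK z))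
    rw [hcomm]
  have hIB : SH.Inv TB.σ := by
    refine ⟨fun f hf => ?_, fun f hf g hg => ?_⟩
    · rw [hSH, hcomp]
      exact S.ry_inv.1 _ ((hSH f).1 hf)
    · rw [hSHE, hSHE, hcomp, hcomp, S.ry_inv.2 _ ((hSH f).1 hf) _ ((hSH g).1 hg)]
  have hιB : ∀ y : QQ, (TB.ι y).1 = y.1 := fun y => by rw [hBι]; rfl
  have hmB : MB.m = {y | TB.σ (TB.ι y) = TB.ι y} := by
    rw [hMB]
    ext y
    simp only [Set.mem_ofPred_eq]
    constructor
    · intro hy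
      apply Subtype.ext
      rw [hBσ, hιB]
      apply Subtype.ext
      refine Prod.ext rfl ?_
      show 1 - y.1.1.2 = y.1.1.2
      rw [hy]
      norm_num
    · intro hy
      have h1 := congrArg Subtype.val hy
      rw [hBσ, hιB] at h1
      have h2 : 1 - y.1.1.2 = y.1.1.2 := congrArg (fun z : K => z.1.2) h1
      linarith
  have hP4B : ∃ C : Set QQ, IsPreconnected C ∧ Disjoint C MB.m ∧ (⟨x', hx'⟩ : QQ) ∈ C ∧
      MB.b4 ∈ C := by
    obtain ⟨C, hC, hC1, hC2, hC3⟩ := hB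
    refine ⟨{z : QQ | z.1 ∈ C}, QuarterStep_pre hC (fun z hz => ⟨(hC1 z hz).1, (hC1 z hz).2.le⟩),
      ?_, hC2, ?_⟩
    · rw [Set.disjoint_left]
      intro z hz hzm
      rw [hMB] at hzm
      have h1 := (hC1 _ hz).2
      have h2 : z.1.1.2 = 1 / 2 := hzm
      linarith
    · have : MB.b4.1 = cM := Subtype.ext hB4
      show MB.b4.1 ∈ C
      rw [this]
      exact hC3
  have hincl : ∀ (y : K) (hy : y ∈ quarS), TB.ι ⟨y, hy⟩ = (⟨y, hy.1⟩ : HH) := fun y hy => by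
    rw [hBι]; rfl
  have zB1 : ∀ y : QQ, (y.1.1.1 = 0 ∨ y.1.1.1 = 1 / 2) → (u.comp TA.ι) (TB.ι y) = 0 := by
    intro y hy
    rw [hvz, hιB]
    rcases hy with hy | hy
    · exact hLR _ (Or.inl hy)
    · exact hhalf _ hy.ge
  have zB2 : ∀ y : QQ, (y.1.1.1 = 0 ∨ y.1.1.1 = 1 / 2) →
      (u.comp TA.ι) (TB.σ (TB.ι y)) = 0 := by
    intro y hy
    rw [hvz, hBσ, hιB]
    rcases hy with hy | hy
    · exact hLR _ (Or.inl (by rw [ryK_fst]; exact hy))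
    · exact hhalf _ (by rw [ryK_fst]; exact hy.ge)
  have f1 : MB.e1.1.1.1 = 0 ∨ MB.e1.1.1.1 = 1 / 2 := Or.inl (by rw [hB1])
  have f2 : MB.e2.1.1.1 = 0 ∨ MB.e2.1.1.1 = 1 / 2 := Or.inr (by rw [hB2])
  have f4 : MB.b4.1.1.1 = 0 ∨ MB.b4.1.1.1 = 1 / 2 := Or.inr (by rw [hB4])
  have huB := SH.mirror_step TB hIB MB hmB (x := ⟨x, hx⟩) (x' := ⟨x', hx'⟩) hP4B hv
    (fun f hf => by rw [hincl, hincl]; exact hvx f hf) (zB1 _ f1) (zB2 _ f1) (zB1 _ f2)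
    (zB2 _ f2) ((zB1 _ f4).trans (zB2 _ f4).symm)
  refine ⟨u, hu, ?_, hLR _ (Or.inl rfl), hux⟩
  intro z hz
  by_cases h1 : 1 / 2 ≤ z.1.1
  · exact hhalf z h1
  · rcases hz with hz | hz
    · exact absurd hz h1
    · have h2 := huB (⟨z, (not_le.1 h1).le⟩ : HH) (by
        rw [hBO]
        exact not_lt.2 hz)
      rw [hvz] at h2
      exact h2

end CarpetLib
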