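import Pool.Agent.Lib.MP_f3090c_an.K.Sym

/-! half, quarter, triangle. -/

open Set Filter Topology

namespace CarpetLib

/-- left half -/
def halfS : Set K := {z | z.1.1 ≤ 1 / 2}
/-- lower left quarter -/
def quarS : Set K := {z | z.1.1 ≤ 1 / 2 ∧ z.1.2 ≤ 1 / 2}
/-- the fundamental triangle -/
def triS : Set K := {z | z.1.2 ≤ z.1.1 ∧ z.1.1 ≤ 1 / 2}
/-- its interior relative to the mirrors -/
def triO : Set K := {z | z.1.2 < z.1.1 ∧ z.1.1 < 1 / 2}

abbrev HH : Type := ↥halfS
abbrev QQ : Type := ↥quarS
abbrev TT : Type := ↥triS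

theorem cont_fst : Continuous fun z : K => z.1.1 := continuous_fst.comp continuous_subtype_val
theorem cont_snd : Continuous fun z : K => z.1.2 := continuous_snd.comp continuous_subtype_val

theorem halfS_closed : IsClosed halfS := isClosed_le cont_fst continuous_const
theorem quarS_closed : IsClosed quarS :=
  (isClosed_le cont_fst continuous_const).inter (isClosed_le cont_snd continuous_const)
theorem triS_closed : IsClosed triS :=
  (isClosed_le cont_snd cont_fst).inter (isClosed_le cont_fst continuous_const)

instance : CompactSpace HH := isCompact_iff_compactSpace.1 halfS_closed.isCompact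
instance : CompactSpace QQ := isCompact_iff_compactSpace.1 quarS_closed.isCompact
instance : CompactSpace TT := isCompact_iff_compactSpace.1 triS_closed.isCompact

/-- inclusions -/
def inclHK : C(HH, K) := ⟨fun z => z.1, continuous_subtype_val⟩
def inclQH : C(QQ, HH) := ⟨fun z => ⟨z.1, z.2.1⟩, continuous_subtype_val.subtype_mk _⟩
theorem triS_sub_quarS {z : K} (hz : z ∈ triS) : z ∈ quarS := ⟨hz.2, hz.1.trans hz.2⟩
def inclTQ : C(TT, QQ) := ⟨fun z => ⟨z.1, triS_sub_quarS z.2⟩, continuous_subtype_val.subtype_mk _⟩

end CarpetLib
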