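import Pool.Agent.Lib.MP_f3090c_an.K.Lines
import Pool.Agent.Lib.MP_f3090c_an.K.Words

/-! K07: down-left paths in the carpet from corner points of cells. -/

open Set Filter Topology

namespace CarpetLib

private theorem path_seg {a b : ℝ} (γ : ℝ → ℝ × ℝ) (hγ : Continuous γ)
    (h : ∀ t ∈ Icc a b, γ t ∈ carpet) : IsPreconnected {z : K | ∃ t ∈ Icc a b, z.1 = γ t} := by
  let f : Icc a b → K := fun t => ⟨γ t.1, h t.1 t.2⟩
  have hf : Continuous f := (hγ.comp continuous_subtype_val).subtype_mk _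
  have hp : PreconnectedSpace (Icc a b) := Subtype.preconnectedSpace isPreconnected_Icc
  have h1 : {z : K | ∃ t ∈ Icc a b, z.1 = γ t} = range f := by
    ext z
    constructor
    · rintro ⟨t, ht, hz⟩
      exact ⟨⟨t, ht⟩, Subtype.ext hz.symm⟩
    · rintro ⟨t, rfl⟩
      exact ⟨t.1, t.2, rfl⟩
  rw [h1]
  exact isPreconnected_range hf

/-- From every image of a corner of the square under some `ψ_w` there is a connected subset of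
the carpet, going only left and down, to the left side of the square. -/
theorem down_left (w : List Dig) (c : K) (hc : (c.1.1 = 0 ∨ c.1.1 = 1) ∧ (c.1.2 = 0 ∨ c.1.2 = 1)) :
    ∃ C : Set K, IsPreconnected C ∧ psiW w c ∈ C ∧ (∃ z ∈ C, z.1.1 = 0) ∧
      ∀ z ∈ C, z.1.1 ≤ (psiW w c).1.1 ∧ z.1.2 ≤ (psiW w c).1.2 := by
  induction w with
  | nil =>
    change ∃ C : Set K, IsPreconnected C ∧ c ∈ C ∧ (∃ z ∈ C, z.1.1 = 0) ∧
      ∀ z ∈ C, z.1.1 ≤ c.1.1 ∧ z.1.2 ≤ c.1.2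
    rcases hc.1 with h1 | h1
    · refine ⟨{c}, isPreconnected_singleton, rfl, ⟨c, rfl, h1⟩, ?_⟩
      intro z hz
      rw [mem_singleton_iff.1 hz]
      exact ⟨le_rfl, le_rfl⟩
    · have hmem : ∀ t ∈ Icc (0:ℝ) 1, (t, c.1.2) ∈ carpet := by
        intro t ht
        rcases hc.2 with h2 | h2
        · rw [h2]
          exact bot_mem ht.1 ht.2
        · rw [h2]
          exact top_mem ht.1 ht.2
      refine ⟨{z : K | ∃ t ∈ Icc (0:ℝ) 1, z.1 = (t, c.1.2)},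
        path_seg (fun t => (t, c.1.2)) (by fun_prop) hmem, ?_, ?_, ?_⟩
      · exact ⟨1, ⟨zero_le_one, le_rfl⟩, Prod.ext h1 rfl⟩
      · exact ⟨⟨(0, c.1.2), hmem 0 ⟨le_rfl, zero_le_one⟩⟩, ⟨0, ⟨le_rfl, zero_le_one⟩, rfl⟩, rfl⟩
      · rintro z ⟨t, ht, hz⟩
        rw [hz, h1]
        exact ⟨ht.2, le_rfl⟩
  | cons d w ih =>
    obtain ⟨C0, hC0, hc0, ⟨q0, hq0, hq0'⟩, hle⟩ := ih
    have hd1 : ((d.1.1 : ℕ)) ≤ 3 := by omega
    have hd2 : ((d.1.2 : ℕ)) ≤ 3 := by omega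
    obtain ⟨a0, a1, ha⟩ := full_third (d.1.1 : ℕ) hd1
    have hb := full_third (d.1.2 : ℕ) hd2
    have hq01 : q0.1 ∈ unitSq := carpet_subset_unitSq q0.2
    have hy1 : ((d.1.2 : ℕ) : ℝ) / 3 ≤ (q0.1.2 + (d.1.2 : ℕ)) / 3 := by
      have := hq01.2.1
      linarith
    have hy2 : (q0.1.2 + (d.1.2 : ℕ)) / 3 ≤ 1 :=
      (carpet_subset_unitSq (psiK d q0).2).2.2
    have hS1 : ∀ t ∈ Icc (((d.1.2 : ℕ) : ℝ) / 3) ((q0.1.2 + (d.1.2 : ℕ)) / 3),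
        (((d.1.1 : ℕ) : ℝ) / 3, t) ∈ carpet := by
      intro t ht
      exact ha t (hb.1.trans ht.1) (ht.2.trans hy2)
    have hS2 : ∀ t ∈ Icc (0:ℝ) (((d.1.1 : ℕ) : ℝ) / 3),
        (t, ((d.1.2 : ℕ) : ℝ) / 3) ∈ carpet := by
      intro t ht
      exact hb.mem_left ht.1 (ht.2.trans a1)
    have p1 := path_seg (fun t => (((d.1.1 : ℕ) : ℝ) / 3, t)) (by fun_prop) hS1
    have p2 := path_seg (fun t => (t, ((d.1.2 : ℕ) : ℝ) / 3)) (by fun_prop) hS2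
    have p0 : IsPreconnected (psiK d '' C0) := hC0.image _ (psiK d).continuous.continuousOn
    have hle' : ∀ z ∈ psiK d '' C0, z.1.1 ≤ (psiW (d :: w) c).1.1 ∧
        z.1.2 ≤ (psiW (d :: w) c).1.2 := by
      rintro _ ⟨z, hz, rfl⟩
      obtain ⟨h1, h2⟩ := hle z hz
      constructor
      · change (z.1.1 + (d.1.1 : ℕ)) / 3 ≤ ((psiW w c).1.1 + (d.1.1 : ℕ)) / 3
        linarith
      · change (z.1.2 + (d.1.2 : ℕ)) / 3 ≤ ((psiW w c).1.2 + (d.1.2 : ℕ)) / 3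
        linarith
    have hq : (psiK d q0).1 = (((d.1.1 : ℕ) : ℝ) / 3, (q0.1.2 + (d.1.2 : ℕ)) / 3) := by
      change ((q0.1.1 + (d.1.1 : ℕ)) / 3, (q0.1.2 + (d.1.2 : ℕ)) / 3) = _
      rw [hq0', zero_add]
    have hqle := hle' _ (mem_image_of_mem _ hq0)
    rw [hq] at hqle
    obtain ⟨hqle1, hqle2⟩ := hqle
    simp only at hqle1 hqle2
    have p12 : IsPreconnected
        ({z : K | ∃ t ∈ Icc (((d.1.2 : ℕ) : ℝ) / 3) ((q0.1.2 + (d.1.2 : ℕ)) / 3),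
            z.1 = (((d.1.1 : ℕ) : ℝ) / 3, t)} ∪
          {z : K | ∃ t ∈ Icc (0:ℝ) (((d.1.1 : ℕ) : ℝ) / 3),
            z.1 = (t, ((d.1.2 : ℕ) : ℝ) / 3)}) := by
      refine IsPreconnected.union
        (⟨(((d.1.1 : ℕ) : ℝ) / 3, ((d.1.2 : ℕ) : ℝ) / 3), hS2 _ ⟨a0, le_rfl⟩⟩ : K) ?_ ?_ p1 p2
      · exact ⟨_, ⟨le_rfl, hy1⟩, rfl⟩
      · exact ⟨_, ⟨a0, le_rfl⟩, rfl⟩
    refine ⟨psiK d '' C0 ∪ _, IsPreconnected.union (psiK d q0) (mem_image_of_mem _ hq0)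
      (Or.inl ⟨_, ⟨hy1, le_rfl⟩, hq⟩) p0 p12, Or.inl ⟨psiW w c, hc0, rfl⟩, ?_, ?_⟩
    · refine ⟨⟨(0, ((d.1.2 : ℕ) : ℝ) / 3), hS2 0 ⟨le_rfl, a0⟩⟩, Or.inr (Or.inr ?_), rfl⟩
      exact ⟨0, ⟨le_rfl, a0⟩, rfl⟩
    · rintro z (hz | ⟨t, ht, hz⟩ | ⟨t, ht, hz⟩)
      · exact hle' z hz
      · rw [hz]
        exact ⟨hqle1, ht.2.trans hqle2⟩
      · rw [hz]
        exact ⟨ht.2.trans hqle1, hy1.trans hqle2⟩

private theorem path_rx_rx (z : K) : rxK (rxK z) = z := by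
  apply Subtype.ext
  change (1 - (1 - z.1.1), z.1.2) = z.1
  rw [sub_sub_cancel]

/-- The same going right and down, to the right side. -/
theorem down_right (w : List Dig) (c : K) (hc : (c.1.1 = 0 ∨ c.1.1 = 1) ∧ (c.1.2 = 0 ∨ c.1.2 = 1)) :
    ∃ C : Set K, IsPreconnected C ∧ psiW w c ∈ C ∧ (∃ z ∈ C, z.1.1 = 1) ∧
      ∀ z ∈ C, (psiW w c).1.1 ≤ z.1.1 ∧ z.1.2 ≤ (psiW w c).1.2 := by
  have hrx : ∀ z : K, (rxK z).1.1 = 1 - z.1.1 := fun _ => rfl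
  have hrx2 : ∀ z : K, (rxK z).1.2 = z.1.2 := fun _ => rfl
  obtain ⟨C, hC, hcC, ⟨q, hq, hq0⟩, hle⟩ := down_left (w.map Dig.rx) (rxK c) (by
    rw [hrx, hrx2]
    refine ⟨?_, hc.2⟩
    rcases hc.1 with h | h
    · right
      rw [h, sub_zero]
    · left
      rw [h, sub_self])
  rw [← rxK_psiW] at hcC hle
  refine ⟨rxK '' C, hC.image _ rxK.continuous.continuousOn, ⟨_, hcC, path_rx_rx _⟩,
    ⟨rxK q, mem_image_of_mem _ hq, by rw [hrx, hq0, sub_zero]⟩, ?_⟩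
  rintro _ ⟨z, hz, rfl⟩
  obtain ⟨h1, h2⟩ := hle z hz
  rw [hrx] at h1
  rw [hrx2] at h2
  rw [hrx, hrx2]
  exact ⟨by linarith, h2⟩

end CarpetLib
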