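import Pool.Agent.Lib.MP_f3090c_an.K.DeadDefs
import Pool.Agent.Lib.MP_f3090c_an.K.Points
import Pool.Agent.Lib.MP_f3090c_an.K.PartDefs
import Pool.Agent.Lib.MP_f3090c_an.K.Path

/-! K14d. -/

open Set Filter Topology

namespace CarpetLib

private theorem triPath_fullOne : Full (1 / 3) := by
  have h := full_third 1 (by norm_num)
  simpa using h

private noncomputable def triPath_seg (t : ℝ) : K :=
  ⟨(1 / 3, max 0 (min t 1)), triPath_fullOne.2.2 _ (le_max_left _ _)
    (max_le zero_le_one (min_le_right _ _))⟩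

private theorem triPath_seg_cont : Continuous triPath_seg := by
  unfold triPath_seg
  apply Continuous.subtype_mk
  fun_prop

private theorem triPath_seg_snd {t : ℝ} (h0 : 0 ≤ t) (h1 : t ≤ 1) : (triPath_seg t).1.2 = t := by
  show max 0 (min t 1) = t
  rw [min_eq_left h1, max_eq_right h0]

private theorem triPath_join {d : Dig} {C0 : Set K} (hC0 : IsPreconnected C0) {z' z1 : K}
    (hz' : z' ∈ C0) (hz1 : z1 ∈ C0) (hx : (psiK d z1).1.1 = 1 / 3) (hy : (psiK d z1).1.2 < 1 / 3)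
    (hC : ∀ z ∈ C0, psiK d z ∈ triO) :
    ∃ C : Set K, IsPreconnected C ∧ C ⊆ triO ∧ psiK d z' ∈ C ∧ cB ∈ C := by
  set c := (psiK d z1).1.2 with hc
  have hc0 : 0 ≤ c := (carpet_subset_unitSq (psiK d z1).2).2.1
  have hS : IsPreconnected (triPath_seg '' Icc 0 c) :=
    isPreconnected_Icc.image _ triPath_seg_cont.continuousOn
  have hI : IsPreconnected (psiK d '' C0) := hC0.image _ (psiK d).continuous.continuousOn
  have hmem : psiK d z1 ∈ triPath_seg '' Icc 0 c := by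
    refine ⟨c, ⟨hc0, le_rfl⟩, ?_⟩
    refine Subtype.ext (Prod.ext ?_ ?_)
    · rw [hx]; rfl
    · rw [triPath_seg_snd hc0 (by linarith)]
  refine ⟨psiK d '' C0 ∪ triPath_seg '' Icc 0 c,
    IsPreconnected.union (psiK d z1) ⟨z1, hz1, rfl⟩ hmem hI hS, ?_, ?_, ?_⟩
  · rintro z (⟨z0, hz0, rfl⟩ | ⟨t, ⟨ht0, ht1⟩, rfl⟩)
    · exact hC z0 hz0
    · have h2 := triPath_seg_snd ht0 (by linarith)
      have h1 : (triPath_seg t).1.1 = 1 / 3 := rfl
      constructor
      · rw [h1, h2]; linarith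
      · rw [h1]; norm_num
  · exact Or.inl ⟨z', hz', rfl⟩
  · right
    refine ⟨0, ⟨le_rfl, hc0⟩, ?_⟩
    refine Subtype.ext (Prod.ext rfl ?_)
    rw [triPath_seg_snd le_rfl zero_le_one]
    rfl

/-- K14d: a connected set inside the open triangle from `ψ_{dw}(p0)` to `(1/3, 0)` -/
theorem tri_path {d : Dig} {w : List Dig} (h1 : iy (d :: w) < ix (d :: w))
    (h2 : 2 * ix (d :: w) + 1 < 3 ^ (d :: w).length) :
    ∃ C : Set K, IsPreconnected C ∧ C ⊆ triO ∧ psiW (d :: w) p0 ∈ C ∧ cB ∈ C := by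
  have e1 : psiW (w ++ [d10]) c00 = psiW w p0 := psiW_append w [d10] c00
  have hcor : ((c00 : K).1.1 = 0 ∨ (c00 : K).1.1 = 1) ∧
      ((c00 : K).1.2 = 0 ∨ (c00 : K).1.2 = 1) := ⟨Or.inl rfl, Or.inl rfl⟩
  have hpow : (0 : ℝ) < 3 ^ w.length := by positivity
  have hp01 : (p0 : K).1.1 = 1 / 3 := by
    show ((0 : ℝ) + ((1 : Fin 3) : ℕ)) / 3 = 1 / 3
    norm_num
  have hp02 : (p0 : K).1.2 = 0 := by
    show ((0 : ℝ) + ((0 : Fin 3) : ℕ)) / 3 = 0
    norm_num
  have hz1 : (psiW w p0).1.1 = (1 / 3 + ix w) / 3 ^ w.length := by rw [psiW_fst, hp01]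
  have hz2 : (psiW w p0).1.2 = (iy w : ℝ) / 3 ^ w.length := by rw [psiW_snd, hp02, zero_add]
  show ∃ C : Set K, IsPreconnected C ∧ C ⊆ triO ∧ psiK d (psiW w p0) ∈ C ∧ cB ∈ C
  rcases first_digit h1 h2 with hd | hd
  · obtain ⟨C0, hC0, hz', ⟨z1, hz1C, hz11⟩, hall⟩ := down_right (w ++ [d10]) c00 hcor
    rw [e1] at hz' hall
    have h3 : iy w < ix w := by
      have a1 : ((d.1.1 : Fin 3) : ℕ) = 0 := by rw [hd]; rfl
      have a2 : ((d.1.2 : Fin 3) : ℕ) = 0 := by rw [hd]; rfl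
      rw [ix, iy, a1, a2, zero_mul, zero_add, zero_add] at h1
      exact h1
    have h4 : (psiW w p0).1.2 < (psiW w p0).1.1 := by
      rw [hz1, hz2]
      apply div_lt_div_of_pos_right _ hpow
      have : (iy w : ℝ) < (ix w : ℝ) := by exact_mod_cast h3
      linarith
    have hf1 : ∀ z : K, (psiK d z).1.1 = z.1.1 / 3 := by
      intro z
      show (z.1.1 + ((d.1.1 : Fin 3) : ℕ)) / 3 = _
      rw [hd]; norm_num
    have hf2 : ∀ z : K, (psiK d z).1.2 = z.1.2 / 3 := by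
      intro z
      show (z.1.2 + ((d.1.2 : Fin 3) : ℕ)) / 3 = _
      rw [hd]; norm_num
    refine triPath_join hC0 hz' hz1C ?_ ?_ ?_
    · rw [hf1, hz11]
    · rw [hf2]
      have h5 := (hall z1 hz1C).2
      have h6 := (carpet_subset_unitSq (psiW w p0).2).1.2
      linarith
    · intro z hz
      obtain ⟨h5, h6⟩ := hall z hz
      have h7 := (carpet_subset_unitSq z.2).1.2
      constructor
      · rw [hf1, hf2]; linarith
      · rw [hf1]; linarith
  · obtain ⟨C0, hC0, hz', ⟨z1, hz1C, hz11⟩, hall⟩ := down_left (w ++ [d10]) c00 hcor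
    rw [e1] at hz' hall
    have h3 : 2 * ix w + 1 < 3 ^ w.length := by
      have a1 : ((d.1.1 : Fin 3) : ℕ) = 1 := by rw [hd]; rfl
      rw [ix, a1, one_mul, List.length_cons, pow_succ] at h2
      omega
    have h4 : (psiW w p0).1.1 < 1 / 2 := by
      rw [hz1, div_lt_iff₀ hpow]
      have : (2 * (ix w : ℝ) + 1) < 3 ^ w.length := by exact_mod_cast h3
      linarith
    have h5 : (psiW w p0).1.2 < 1 := by
      rw [hz2, div_lt_one hpow]
      exact_mod_cast iy_lt w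
    have hf1 : ∀ z : K, (psiK d z).1.1 = (z.1.1 + 1) / 3 := by
      intro z
      show (z.1.1 + ((d.1.1 : Fin 3) : ℕ)) / 3 = _
      rw [hd]; norm_num
    have hf2 : ∀ z : K, (psiK d z).1.2 = z.1.2 / 3 := by
      intro z
      show (z.1.2 + ((d.1.2 : Fin 3) : ℕ)) / 3 = _
      rw [hd]; norm_num
    refine triPath_join hC0 hz' hz1C ?_ ?_ ?_
    · rw [hf1, hz11]; norm_num
    · rw [hf2]
      have h6 := (hall z1 hz1C).2
      linarith
    · intro z hz
      obtain ⟨h6, h7⟩ := hall z hz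
      have h8 := (carpet_subset_unitSq z.2).1.1
      constructor
      · rw [hf1, hf2]; linarith
      · rw [hf1]; linarith

end CarpetLib
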