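import Pool.Agent.Lib.MP_f3090c_an.K.TriData
import Pool.Agent.Lib.MP_f3090c_an.K.Points
import Pool.Agent.Lib.MP_f3090c_an.K.Parts
import Pool.Agent.Lib.MP_f3090c_an.R.MirrorStep
import Pool.Agent.Lib.MP_f3090c_an.R.HarmDefs

/-! K10b. -/

open Set Filter Topology

namespace CarpetLib

private theorem tri_ext {z w : K} (h1 : z.1.1 = w.1.1) (h2 : z.1.2 = w.1.2) : z = w :=
  Subtype.ext (Prod.ext h1 h2)

/-- K10b: reflection in the diagonal -/
theorem tri_step (S : SymForm) {x x' : K} (hx : x ∈ triS) (hx' : x' ∈ triS)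
    (hC : ∃ C : Set K, IsPreconnected C ∧ (∀ z ∈ C, z.1.2 < z.1.1 ∧ z.1.1 ≤ 1 / 2) ∧ x' ∈ C ∧
      cM ∈ C)
    {u : C(K, ℝ)} (hu : u ∈ S.dom) (hu0 : ∀ z : K, 1 / 2 ≤ z.1.1 ∨ 1 / 2 ≤ z.1.2 → u z = 0)
    (hu00 : u c00 = 0) (hux : ∀ f ∈ S.dom, S.E u f = f x - f x') :
    ∀ z, z ∉ triO → u z = 0 := by
  obtain ⟨TA, hAσ, hAO, hAι, hAπ⟩ := exists_mirA
  obtain ⟨TB, hBO, hBι, hBσ, hBπ⟩ := exists_mirB
  obtain ⟨TC, hCO, hCι, hCσ, hCπ⟩ := exists_mirC
  obtain ⟨M, hMm, hMe1, hMe2, hMb4⟩ := exists_triData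
  -- the half
  have hIA : S.toRForm.Inv TA.σ := by rw [hAσ]; exact S.rx_inv
  obtain ⟨SH, hSH, hSHE⟩ := S.toRForm.exists_half TA hIA
  have hxh : x.1.1 ≤ 1 / 2 := hx.2
  have hxh' : x'.1.1 ≤ 1 / 2 := hx'.2
  have hH := S.toRForm.half_potential TA hIA hSH hSHE hu (x := (⟨x, hxh⟩ : HH))
    (x' := (⟨x', hxh'⟩ : HH))
    (fun z hz => by
      rw [hAO] at hz
      exact hu0 z (Or.inl (not_lt.1 hz)))
    (fun f hf => by
      rw [hAι]
      exact hux f hf)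
  obtain ⟨hH1, hH2⟩ := hH
  -- invariance of the half
  have hAB : ∀ z : K, TB.σ (TA.π z) = TA.π (ryK z) := by
    intro z
    apply Subtype.ext
    rw [hBσ]
    refine tri_ext ?_ ?_
    · rw [ryK_fst, (hAπ z).1, (hAπ (ryK z)).1, ryK_fst]
    · rw [ryK_snd, (hAπ z).2, (hAπ (ryK z)).2, ryK_snd]
  have hABc : ∀ f : C(HH, ℝ), (f.comp TB.σ).comp TA.π = (f.comp TA.π).comp ryK := by
    intro f
    ext z
    simp only [ContinuousMap.comp_apply]
    rw [hAB]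
  have hIB : SH.Inv TB.σ := by
    refine ⟨fun f hf => ?_, fun f hf g hg => ?_⟩
    · rw [hSH, hABc]
      exact S.ry_inv.1 _ ((hSH f).1 hf)
    · rw [hSHE, hSHE, hABc, hABc, S.ry_inv.2 _ ((hSH f).1 hf) _ ((hSH g).1 hg)]
  obtain ⟨SQ, hSQ, hSQE⟩ := SH.exists_half TB hIB
  have hxq : x ∈ quarS := triS_sub_quarS hx
  have hxq' : x' ∈ quarS := triS_sub_quarS hx'
  have hQ := SH.half_potential TB hIB hSQ hSQE hH1 (x := (⟨x, hxq⟩ : QQ)) (x' := (⟨x', hxq'⟩ : QQ))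
    (fun z hz => by
      rw [hBO] at hz
      have h1 : (1 : ℝ) / 2 ≤ z.1.1.2 := not_lt.1 hz
      rw [hAι]
      exact hu0 z.1 (Or.inr h1))
    (fun f hf => by
      rw [hBι]
      exact hH2 f hf)
  obtain ⟨hQ1, hQ2⟩ := hQ
  -- invariance of the quarter
  have hBC : ∀ z : K, TC.σ (TB.π (TA.π z)) = TB.π (TA.π (swK z)) := by
    intro z
    apply Subtype.ext
    rw [hCσ]
    refine tri_ext ?_ ?_
    · rw [swK_fst, (hBπ (TA.π z)).2, (hAπ z).2, (hBπ (TA.π (swK z))).1, (hAπ (swK z)).1, swK_fst]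
    · rw [swK_snd, (hBπ (TA.π z)).1, (hAπ z).1, (hBπ (TA.π (swK z))).2, (hAπ (swK z)).2, swK_snd]
  have hBCc : ∀ f : C(QQ, ℝ), ((f.comp TC.σ).comp TB.π).comp TA.π =
      ((f.comp TB.π).comp TA.π).comp swK := by
    intro f
    ext z
    simp only [ContinuousMap.comp_apply]
    rw [hBC]
  have hIC : SQ.Inv TC.σ := by
    refine ⟨fun f hf => ?_, fun f hf g hg => ?_⟩
    · rw [hSQ, hSH, hBCc]
      exact S.sw_inv.1 _ ((hSH _).1 ((hSQ f).1 hf))
    · rw [hSQE, hSQE, hSHE, hSHE, hBCc, hBCc,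
        S.sw_inv.2 _ ((hSH _).1 ((hSQ f).1 hf)) _ ((hSH _).1 ((hSQ g).1 hg))]
  -- values of the potential
  have huQ : ∀ z : QQ, ((u.comp TA.ι).comp TB.ι) z = u z.1 := by
    intro z
    simp only [ContinuousMap.comp_apply]
    rw [hAι, hBι]
    rfl
  have hm : M.m = {y | TC.σ (TC.ι y) = TC.ι y} := by
    rw [hMm]
    ext y
    constructor
    · intro h
      have h : y.1.1.1 = y.1.1.2 := h
      show TC.σ (TC.ι y) = TC.ι y
      apply Subtype.ext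
      rw [hCσ, hCι]
      exact tri_ext h.symm h
    · intro h
      have h : TC.σ (TC.ι y) = TC.ι y := h
      have h1 : (TC.σ (TC.ι y)).1.1.2 = (TC.ι y).1.1.2 := congrArg (fun w : QQ => w.1.1.2) h
      rw [hCσ, swK_snd, hCι] at h1
      exact h1
  have hP4 : ∃ C : Set TT, IsPreconnected C ∧ Disjoint C M.m ∧ (⟨x', hx'⟩ : TT) ∈ C ∧
      M.b4 ∈ C := by
    obtain ⟨C, hC1, hC2, hC3, hC4⟩ := hC
    refine ⟨Subtype.val ⁻¹' C, ?_, ?_, hC3, ?_⟩
    · have h1 : (Subtype.val : TT → K) '' (Subtype.val ⁻¹' C) = C := by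
        rw [Subtype.image_preimage_coe]
        exact Set.inter_eq_right.2 fun z hz => ⟨(hC2 z hz).1.le, (hC2 z hz).2⟩
      rw [← Topology.IsInducing.subtypeVal.isPreconnected_image, h1]
      exact hC1
    · rw [Set.disjoint_left]
      intro z hz hz2
      rw [hMm] at hz2
      have h1 := (hC2 z.1 hz).1
      have h2 : z.1.1.1 = z.1.1.2 := hz2
      linarith
    · have h1 : M.b4.1 = cM := Subtype.ext hMb4
      show M.b4.1 ∈ C
      rw [h1]
      exact hC4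
  have hfin := SQ.mirror_step TC hIC M hm (x := (⟨x, hx⟩ : TT)) (x' := (⟨x', hx'⟩ : TT)) hP4
    hQ1 (fun f hf => by
      rw [hCι]
      exact hQ2 f hf)
    (by
      rw [huQ, hCι]
      have h1 : (inclTQ M.e1).1 = c00 := Subtype.ext hMe1
      rw [h1]
      exact hu00)
    (by
      rw [huQ, hCσ, hCι]
      have h1 : swK (inclTQ M.e1).1 = c00 := by
        have h2 : (inclTQ M.e1).1.1 = (0, 0) := hMe1
        refine tri_ext ?_ ?_
        · rw [swK_fst, h2]; rfl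
        · rw [swK_snd, h2]; rfl
      rw [h1]
      exact hu00)
    (by
      rw [huQ, hCι]
      have h2 : (inclTQ M.e2).1.1 = (1 / 2, 1 / 3) := hMe2
      refine hu0 _ (Or.inl ?_)
      rw [h2])
    (by
      rw [huQ, hCσ, hCι]
      have h2 : (inclTQ M.e2).1.1 = (1 / 2, 1 / 3) := hMe2
      refine hu0 _ (Or.inr ?_)
      rw [swK_snd, h2])
    (by
      rw [huQ, huQ, hCσ, hCι]
      have h2 : (inclTQ M.b4).1.1 = (1 / 2, 0) := hMb4
      rw [hu0 _ (Or.inl (by rw [h2])), hu0 _ (Or.inr (by rw [swK_snd, h2]))])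
  intro z hz
  by_cases h1 : 1 / 2 ≤ z.1.1
  · exact hu0 z (Or.inl h1)
  by_cases h2 : 1 / 2 ≤ z.1.2
  · exact hu0 z (Or.inr h2)
  have h3 : z.1.1 ≤ z.1.2 := by
    by_contra h
    exact hz ⟨not_le.1 h, not_le.1 h1⟩
  have h4 := hfin (⟨z, (not_le.1 h1).le, (not_le.1 h2).le⟩ : QQ) (by
    rw [hCO]
    exact not_lt.2 h3)
  rw [huQ] at h4
  exact h4

end CarpetLib
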