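import Pool.Agent.Lib.MP_f3090c_an.K.Tail
import Pool.Agent.Lib.MP_f3090c_an.K.TriPath
import Pool.Agent.Lib.MP_f3090c_an.K.QuarterStep
import Pool.Agent.Lib.MP_f3090c_an.K.TriStep

/-! K14fg. -/

open Set Filter Topology

namespace CarpetLib

private def botSeg (a b : ℝ) : Set K := {z | (a ≤ z.1.1 ∧ z.1.1 ≤ b) ∧ z.1.2 = 0}
private def leftSeg (a b : ℝ) : Set K := {z | z.1.1 = 0 ∧ (a ≤ z.1.2 ∧ z.1.2 ≤ b)}

private theorem botSeg_conn {a b : ℝ} (ha : 0 ≤ a) (hb : b ≤ 1) : IsPreconnected (botSeg a b) := by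
  rw [← Topology.IsInducing.subtypeVal.isPreconnected_image]
  have : Subtype.val '' botSeg a b = Icc a b ×ˢ {(0:ℝ)} := by
    ext p
    constructor
    · rintro ⟨z, hz, rfl⟩
      exact ⟨hz.1, hz.2⟩
    · rintro ⟨h1, h2⟩
      have h2' : p.2 = 0 := h2
      have hp : p = (p.1, (0:ℝ)) := Prod.ext rfl h2'
      have hm : p ∈ carpet := by
        rw [hp]; exact bot_mem (ha.trans h1.1) (h1.2.trans hb)
      exact ⟨⟨p, hm⟩, ⟨h1, h2'⟩, rfl⟩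
  rw [this]
  exact isPreconnected_Icc.prod isPreconnected_singleton

private theorem leftSeg_conn {a b : ℝ} (ha : 0 ≤ a) (hb : b ≤ 1) :
    IsPreconnected (leftSeg a b) := by
  rw [← Topology.IsInducing.subtypeVal.isPreconnected_image]
  have : Subtype.val '' leftSeg a b = {(0:ℝ)} ×ˢ Icc a b := by
    ext p
    constructor
    · rintro ⟨z, hz, rfl⟩
      exact ⟨hz.1, hz.2⟩
    · rintro ⟨h1, h2⟩
      have h1' : p.1 = 0 := h1
      have hp : p = ((0:ℝ), p.2) := Prod.ext h1' rfl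
      have hm : p ∈ carpet := by
        rw [hp]; exact left_mem (ha.trans h2.1) (h2.2.trans hb)
      exact ⟨⟨p, hm⟩, ⟨h1', h2⟩, rfl⟩
  rw [this]
  exact isPreconnected_singleton.prod isPreconnected_Icc

private theorem cell_triS {d : Dig} {w : List Dig} (h1 : iy (d :: w) < ix (d :: w))
    (h2 : 2 * ix (d :: w) + 1 < 3 ^ (d :: w).length) (z : K) : psiW (d :: w) z ∈ triS := by
  obtain ⟨⟨a0, a1⟩, b0, b1⟩ := carpet_subset_unitSq z.2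
  have hpos : (0:ℝ) < 3 ^ (d :: w).length := by positivity
  have h1' : ((iy (d :: w) : ℕ) : ℝ) + 1 ≤ ix (d :: w) := by exact_mod_cast h1
  have h2' : 2 * ((ix (d :: w) : ℕ) : ℝ) + 2 ≤ 3 ^ (d :: w).length := by exact_mod_cast h2
  constructor
  · show (psiW (d :: w) z).1.2 ≤ (psiW (d :: w) z).1.1
    rw [psiW_fst, psiW_snd]
    gcongr ?_ / _
    linarith
  · show (psiW (d :: w) z).1.1 ≤ 1 / 2
    rw [psiW_fst, div_le_iff₀ hpos]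
    linarith

private theorem supp_tri (S : SymForm) {x x' : K} (hx : x ∈ triS) (hx' : x' ∈ triS) {C : Set K}
    (hC : IsPreconnected C) (hCO : C ⊆ triO) (hxC : x' ∈ C) (hcC : cB ∈ C)
    {u : C(K, ℝ)} (hu : u ∈ S.dom) (hu0 : ∀ z : K, 1 / 2 ≤ z.1.1 ∨ 1 / 2 ≤ z.1.2 → u z = 0)
    (hu00 : u c00 = 0) (hux : ∀ f ∈ S.dom, S.E u f = f x - f x') :
    ∃ U ∈ S.dom, (∀ y, y ∉ triO → U y = 0) ∧ ∀ f ∈ S.dom, S.E U f = f x - f x' := by
  refine ⟨u, hu, tri_step S hx hx' ⟨C ∪ botSeg (1 / 3) (1 / 2), ?_, ?_, Or.inl hxC, Or.inr ?_⟩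
    hu hu0 hu00 hux, hux⟩
  · refine IsPreconnected.union cB hcC ?_ hC (botSeg_conn (by norm_num) (by norm_num))
    show (1 / 3 ≤ (1 / 3 : ℝ) ∧ (1 / 3 : ℝ) ≤ 1 / 2) ∧ (0:ℝ) = 0
    norm_num
  · rintro z (hz | ⟨⟨hz1, hz2⟩, hz3⟩)
    · exact ⟨(hCO hz).1, (hCO hz).2.le⟩
    · exact ⟨by rw [hz3]; linarith, hz2⟩
  · show (1 / 3 ≤ (1 / 2 : ℝ) ∧ (1 / 2 : ℝ) ≤ 1 / 2) ∧ (0:ℝ) = 0
    norm_num

/-- K14f -/
theorem dead_tail (S : SymForm) {d : Dig} {w : List Dig} (h1 : iy (d :: w) < ix (d :: w))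
    (h2 : 2 * ix (d :: w) + 1 < 3 ^ (d :: w).length) (h : Dead S (d :: w)) : Dead S w := by
  refine tail_of_supp S h1 h2 (fun z => ?_)
  obtain ⟨C, hC, hCO, hxC, hcC⟩ := tri_path h1 h2
  have hx := cell_triS h1 h2 z
  have hx' := cell_triS h1 h2 p0
  have hA : ∃ C : Set K, IsPreconnected C ∧ (∀ z ∈ C, z.1.1 < 1 / 2) ∧
      psiW (d :: w) p0 ∈ C ∧ cL ∈ C := by
    refine ⟨C ∪ (botSeg 0 (1 / 3) ∪ leftSeg 0 (1 / 3)), ?_, ?_, Or.inl hxC, Or.inr (Or.inr ?_)⟩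
    · refine IsPreconnected.union cB hcC (Or.inl ?_) hC (IsPreconnected.union c00 ?_ ?_
        (botSeg_conn le_rfl (by norm_num)) (leftSeg_conn le_rfl (by norm_num)))
      · show (0 ≤ (1 / 3 : ℝ) ∧ (1 / 3 : ℝ) ≤ 1 / 3) ∧ (0:ℝ) = 0
        norm_num
      · show (0 ≤ (0 : ℝ) ∧ (0 : ℝ) ≤ 1 / 3) ∧ (0:ℝ) = 0
        norm_num
      · show (0:ℝ) = 0 ∧ (0 ≤ (0 : ℝ) ∧ (0 : ℝ) ≤ 1 / 3)
        norm_num
    · rintro z (hz | ⟨⟨hz1, hz2⟩, hz3⟩ | ⟨hz1, hz2⟩)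
      · exact (hCO hz).2
      · linarith
      · rw [hz1]; norm_num
    · show (0:ℝ) = 0 ∧ (0 ≤ (1 / 3 : ℝ) ∧ (1 / 3 : ℝ) ≤ 1 / 3)
      norm_num
  have hB : ∃ C : Set K, IsPreconnected C ∧ (∀ z ∈ C, z.1.1 ≤ 1 / 2 ∧ z.1.2 < 1 / 2) ∧
      psiW (d :: w) p0 ∈ C ∧ cM ∈ C := by
    refine ⟨C ∪ botSeg (1 / 3) (1 / 2), ?_, ?_, Or.inl hxC, Or.inr ?_⟩
    · refine IsPreconnected.union cB hcC ?_ hC (botSeg_conn (by norm_num) (by norm_num))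
      show (1 / 3 ≤ (1 / 3 : ℝ) ∧ (1 / 3 : ℝ) ≤ 1 / 2) ∧ (0:ℝ) = 0
      norm_num
    · rintro z (hz | ⟨⟨hz1, hz2⟩, hz3⟩)
      · have := hCO hz
        exact ⟨this.2.le, this.1.trans this.2⟩
      · exact ⟨hz2, by rw [hz3]; norm_num⟩
    · show (1 / 3 ≤ (1 / 2 : ℝ) ∧ (1 / 2 : ℝ) ≤ 1 / 2) ∧ (0:ℝ) = 0
      norm_num
  obtain ⟨u, hu, hu0, hu00, hux⟩ := quarter_step S (triS_sub_quarS hx) (triS_sub_quarS hx')
    hA hB (h z p0)
  exact supp_tri S hx hx' hC hCO hxC hcC hu hu0 hu00 hux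

private theorem swK_swK (z : K) : swK (swK z) = z := by
  apply Subtype.ext
  rfl

/-- K14g -/
theorem dead_tail' (S : SymForm) {d : Dig} {w : List Dig} (h1 : ix (d :: w) < iy (d :: w))
    (h2 : 2 * iy (d :: w) + 1 < 3 ^ (d :: w).length) (h : Dead S (d :: w)) :
    Dead S (w.map Dig.sw) := by
  have e : (d.sw :: w.map Dig.sw) = (d :: w).map Dig.sw := rfl
  have h1' : iy (d.sw :: w.map Dig.sw) < ix (d.sw :: w.map Dig.sw) := by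
    rw [e, ix_sw, iy_sw]; exact h1
  have h2' : 2 * ix (d.sw :: w.map Dig.sw) + 1 < 3 ^ (d.sw :: w.map Dig.sw).length := by
    rw [e, ix_sw, List.length_map]; exact h2
  refine tail_of_supp S h1' h2' (fun z => ?_)
  obtain ⟨C, hC, hCO, hxC, hcC⟩ := tri_path h1' h2'
  have hx := cell_triS h1' h2' z
  have hx' := cell_triS h1' h2' p0
  have key : ∀ z : K, psiW (d :: w) (swK z) = swK (psiW (d.sw :: w.map Dig.sw) z) := by
    intro z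
    rw [e]
    have := swK_psiW (d :: w) (swK z)
    rw [swK_swK] at this
    rw [← this, swK_swK]
  have hD := h (swK z) (swK p0)
  rw [key, key] at hD
  set x := psiW (d.sw :: w.map Dig.sw) z with hxdef
  set x' := psiW (d.sw :: w.map Dig.sw) p0 with hx'def
  have hq : ∀ {y : K}, y ∈ triS → swK y ∈ quarS := fun {y} hy => ⟨hy.1.trans hy.2, hy.2⟩
  have hCi : IsPreconnected (swK '' C) := hC.image _ swK.continuous.continuousOn
  have hcL : cL ∈ swK '' C := ⟨cB, hcC, by apply Subtype.ext; rfl⟩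
  have hA : ∃ C : Set K, IsPreconnected C ∧ (∀ z ∈ C, z.1.1 < 1 / 2) ∧ swK x' ∈ C ∧ cL ∈ C := by
    refine ⟨swK '' C, hCi, ?_, ⟨x', hxC, rfl⟩, hcL⟩
    rintro _ ⟨z, hz, rfl⟩
    have := hCO hz
    exact this.1.trans this.2
  have hB : ∃ C : Set K, IsPreconnected C ∧ (∀ z ∈ C, z.1.1 ≤ 1 / 2 ∧ z.1.2 < 1 / 2) ∧
      swK x' ∈ C ∧ cM ∈ C := by
    refine ⟨swK '' C ∪ (leftSeg 0 (1 / 3) ∪ botSeg 0 (1 / 2)), ?_, ?_, Or.inl ⟨x', hxC, rfl⟩,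
      Or.inr (Or.inr ?_)⟩
    · refine IsPreconnected.union cL hcL (Or.inl ?_) hCi (IsPreconnected.union c00 ?_ ?_
        (leftSeg_conn le_rfl (by norm_num)) (botSeg_conn le_rfl (by norm_num)))
      · show (0:ℝ) = 0 ∧ (0 ≤ (1 / 3 : ℝ) ∧ (1 / 3 : ℝ) ≤ 1 / 3)
        norm_num
      · show (0:ℝ) = 0 ∧ (0 ≤ (0 : ℝ) ∧ (0 : ℝ) ≤ 1 / 3)
        norm_num
      · show (0 ≤ (0 : ℝ) ∧ (0 : ℝ) ≤ 1 / 2) ∧ (0:ℝ) = 0
        norm_num
    · rintro _ (⟨z, hz, rfl⟩ | ⟨hz1, hz2⟩ | ⟨hz1, hz2⟩)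
      · have := hCO hz
        exact ⟨(this.1.trans this.2).le, this.2⟩
      · exact ⟨by rw [hz1]; norm_num, by linarith⟩
      · exact ⟨hz1.2, by rw [hz2]; norm_num⟩
    · show (0 ≤ (1 / 2 : ℝ) ∧ (1 / 2 : ℝ) ≤ 1 / 2) ∧ (0:ℝ) = 0
      norm_num
  obtain ⟨u, hu, hu0, hu00, hux⟩ := quarter_step S (hq hx) (hq hx') hA hB hD
  refine supp_tri S hx hx' hC hCO hxC hcC (S.sw_inv.1 u hu) (fun z hz => ?_) ?_ ?_
  · exact hu0 (swK z) (by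
      rcases hz with hz | hz
      · exact Or.inr hz
      · exact Or.inl hz)
  · have : swK c00 = c00 := by apply Subtype.ext; rfl
    show u (swK c00) = 0
    rw [this, hu00]
  · intro f hf
    have hff : (f.comp swK).comp swK = f := by
      ext z; show f (swK (swK z)) = f z; rw [swK_swK]
    have := S.sw_inv.2 u hu (f.comp swK) (S.sw_inv.1 f hf)
    rw [hff] at this
    rw [this, hux _ (S.sw_inv.1 f hf)]
    show f (swK (swK x)) - f (swK (swK x')) = f x - f x'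
    rw [swK_swK, swK_swK]

end CarpetLib
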