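import Pool.Agent.Lib.MP_f3090c_an.K.PartDefs
import Pool.Agent.Lib.MP_f3090c_an.K.Digits

/-! K11ab. -/

open Set Filter Topology

namespace CarpetLib

private theorem ext_psi_fst (d : Dig) (z : K) :
    (psiK d z).1.1 = (z.1.1 + ((d.1.1 : ℕ) : ℝ)) / 3 := rfl
private theorem ext_psi_snd (d : Dig) (z : K) :
    (psiK d z).1.2 = (z.1.2 + ((d.1.2 : ℕ) : ℝ)) / 3 := rfl

private theorem ext_bd (z : K) : (0 ≤ z.1.1 ∧ z.1.1 ≤ 1) ∧ (0 ≤ z.1.2 ∧ z.1.2 ≤ 1) :=
  carpet_subset_unitSq z.2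

/-- the folding map of the cell `d` -/
private def extR (d : Dig) : C(K, K) :=
  (if d.1.1 = 2 then rxK else ContinuousMap.id K).comp
    (if d.1.2 = 1 then ryK else ContinuousMap.id K)

/-- the function prescribed on the cell `d` -/
private def extG (f1 f2 : C(K, ℝ)) (d : Dig) : C(K, ℝ) :=
  (if d.1.1 = 0 then f1 else f2).comp (extR d)

private theorem extR_fst (d : Dig) (z : K) :
    (extR d z).1.1 = if d.1.1 = 2 then 1 - z.1.1 else z.1.1 := by
  unfold extR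
  split_ifs <;> simp

private theorem extR_snd (d : Dig) (z : K) :
    (extR d z).1.2 = if d.1.2 = 1 then 1 - z.1.2 else z.1.2 := by
  unfold extR
  split_ifs <;> simp

/-- the eight cells -/
private noncomputable def extPhi : C((_ : Dig) × K, K) :=
  ⟨fun p => psiK p.1 p.2, continuous_sigma fun d => (psiK d).continuous⟩

private theorem extPhi_surj : Function.Surjective extPhi := by
  intro z
  have h := carpet_subset_iUnion z.2
  simp only [mem_iUnion] at h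
  obtain ⟨d, q, hq, h⟩ := h
  exact ⟨⟨d, ⟨q, hq⟩⟩, Subtype.ext h⟩

private theorem extPhi_quot : IsQuotientMap extPhi :=
  (extPhi.continuous.isClosedMap).isQuotientMap extPhi.continuous extPhi_surj

/-- folding in the vertical direction is consistent -/
private theorem ext_tau {j j' : Fin 3} {t t' : ℝ} (h0 : 0 ≤ t) (h1 : t ≤ 1) (h0' : 0 ≤ t')
    (h1' : t' ≤ 1) (h : (t + ((j : ℕ) : ℝ)) / 3 = (t' + ((j' : ℕ) : ℝ)) / 3) :
    (if j = 1 then 1 - t else t) = if j' = 1 then 1 - t' else t' := by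
  fin_cases j <;> fin_cases j' <;> simp at h ⊢ <;> linarith

private theorem ext_sig {i i' : Fin 3} {t t' : ℝ} (h0 : 0 ≤ t) (h1 : t ≤ 1) (h0' : 0 ≤ t')
    (h1' : t' ≤ 1) (h : (t + ((i : ℕ) : ℝ)) / 3 = (t' + ((i' : ℕ) : ℝ)) / 3) :
    ((i = 0 ∧ i' = 0 ∧ t = t') ∨ (i = 0 ∧ i' = 1 ∧ t = 1 ∧ t' = 0) ∨
      (i = 1 ∧ i' = 0 ∧ t = 0 ∧ t' = 1)) ∨ (i ≠ 0 ∧ i' ≠ 0 ∧
        (if i = 2 then 1 - t else t) = if i' = 2 then 1 - t' else t') := by
  fin_cases i <;> fin_cases i' <;> simp at h ⊢ <;> first | linarith | (constructor <;> linarith)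

private theorem ext_factor {f1 f2 : C(K, ℝ)}
    (hm : ∀ z z' : K, z.1.1 = 1 → z'.1.1 = 0 → z.1.2 = z'.1.2 → f1 z = f2 z')
    (d d' : Dig) (w w' : K) (h : psiK d w = psiK d' w') :
    extG f1 f2 d w = extG f1 f2 d' w' := by
  obtain ⟨⟨a1, a2⟩, a3, a4⟩ := ext_bd w
  obtain ⟨⟨b1, b2⟩, b3, b4⟩ := ext_bd w'
  have e1 : (w.1.1 + ((d.1.1 : ℕ) : ℝ)) / 3 = (w'.1.1 + ((d'.1.1 : ℕ) : ℝ)) / 3 := by
    rw [← ext_psi_fst, ← ext_psi_fst, h]
  have e2 : (w.1.2 + ((d.1.2 : ℕ) : ℝ)) / 3 = (w'.1.2 + ((d'.1.2 : ℕ) : ℝ)) / 3 := by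
    rw [← ext_psi_snd, ← ext_psi_snd, h]
  have k2 : (extR d w).1.2 = (extR d' w').1.2 := by
    rw [extR_snd, extR_snd]
    exact ext_tau a3 a4 b3 b4 e2
  unfold extG
  simp only [ContinuousMap.comp_apply]
  rcases ext_sig a1 a2 b1 b2 e1 with (⟨i0, i0', ht⟩ | ⟨i0, i0', ht, ht'⟩ | ⟨i0, i0', ht, ht'⟩) |
    ⟨i0, i0', ht⟩
  · have k1 : (extR d w).1.1 = (extR d' w').1.1 := by
      rw [extR_fst, extR_fst, i0, i0']
      simpa using ht
    rw [i0, i0', if_pos rfl, Subtype.ext (Prod.ext k1 k2)]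
  · rw [i0, i0', if_pos rfl, if_neg (by decide)]
    refine hm _ _ ?_ ?_ k2
    · rw [extR_fst, i0]
      simpa using ht
    · rw [extR_fst, i0']
      simpa using ht'
  · rw [i0, i0', if_neg (by decide), if_pos rfl]
    refine (hm _ _ ?_ ?_ k2.symm).symm
    · rw [extR_fst, i0']
      simpa using ht'
    · rw [extR_fst, i0]
      simpa using ht
  · have k1 : (extR d w).1.1 = (extR d' w').1.1 := by
      rw [extR_fst, extR_fst]
      exact ht
    rw [if_neg i0, if_neg i0', Subtype.ext (Prod.ext k1 k2)]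

private theorem extR_mem (S : SymForm) (d : Dig) {f : C(K, ℝ)} (hf : f ∈ S.dom) :
    f.comp (extR d) ∈ S.dom := by
  unfold extR
  split_ifs
  · exact S.ry_inv.1 _ (S.rx_inv.1 _ hf)
  · exact S.rx_inv.1 _ hf
  · exact S.ry_inv.1 _ hf
  · exact hf

/-- K11a: functions on two adjacent cells matching on the common side extend to the carpet -/
theorem exists_extension (S : SymForm) {f1 f2 : C(K, ℝ)} (h1 : f1 ∈ S.dom) (h2 : f2 ∈ S.dom)
    (hm : ∀ z z' : K, z.1.1 = 1 → z'.1.1 = 0 → z.1.2 = z'.1.2 → f1 z = f2 z') :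
    ∃ f ∈ S.dom, f.comp (psiK d00) = f1 ∧ f.comp (psiK d10) = f2 := by
  let g : C((_ : Dig) × K, ℝ) :=
    ⟨fun p => extG f1 f2 p.1 p.2, continuous_sigma fun d => (extG f1 f2 d).continuous⟩
  have hfac : Function.FactorsThrough g extPhi := by
    rintro ⟨d, w⟩ ⟨d', w'⟩ h
    exact ext_factor hm d d' w w' h
  let f : C(K, ℝ) := extPhi_quot.lift g hfac
  have hf : ∀ d, f.comp (psiK d) = extG f1 f2 d := by
    intro d
    ext w
    have h : f.comp extPhi = g := extPhi_quot.lift_comp g hfac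
    have h' := DFunLike.congr_fun h (⟨d, w⟩ : (_ : Dig) × K)
    exact h'
  refine ⟨f, (S.mem_iff f).2 fun d => ?_, ?_, ?_⟩
  · rw [hf d]
    unfold extG
    split_ifs
    · exact extR_mem S d h1
    · exact extR_mem S d h2
  · rw [hf]
    ext w
    unfold extG extR d00
    simp
  · rw [hf]
    ext w
    unfold extG extR d10
    simp

/-- K11b: a function supported in the open triangle lives on the two bottom cells -/
theorem E_two_cells (S : SymForm) {U f : C(K, ℝ)} (hU : U ∈ S.dom)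
    (hU0 : ∀ z, z ∉ triO → U z = 0) (hf : f ∈ S.dom) :
    S.E U f = S.ρ * (S.E (U.comp (psiK d00)) (f.comp (psiK d00)) +
      S.E (U.comp (psiK d10)) (f.comp (psiK d10))) := by
  rw [S.selfSim U hU f hf]
  congr 1
  rw [Finset.sum_eq_add_of_mem d00 d10 (Finset.mem_univ _) (Finset.mem_univ _) (by
    unfold d00 d10
    decide)]
  rintro d - ⟨hd0, hd1⟩
  have h0 : U.comp (psiK d) = 0 := by
    ext w
    rw [ContinuousMap.comp_apply]
    refine hU0 _ ?_
    rintro ⟨k1, k2⟩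
    rw [ext_psi_fst, ext_psi_snd] at k1
    rw [ext_psi_fst] at k2
    obtain ⟨⟨a1, a2⟩, a3, a4⟩ := ext_bd w
    obtain ⟨⟨i, j⟩, hij⟩ := d
    simp only at k1 k2
    unfold d00 at hd0
    unfold d10 at hd1
    fin_cases i <;> fin_cases j <;> simp at k1 k2 hij hd0 hd1 <;> linarith
  rw [h0, map_zero, LinearMap.zero_apply]

end CarpetLib
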