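import Pool.Agent.Lib.MP_f3090c_an.K.Carpet

/-! full lines. -/

open Set Filter Topology

namespace CarpetLib

/-- `c` is a full abscissa: the whole vertical segment over `c` lies in the carpet. -/
def Full (c : ℝ) : Prop := 0 ≤ c ∧ c ≤ 1 ∧ ∀ y, 0 ≤ y → y ≤ 1 → (c, y) ∈ carpet

theorem Full.mem_left {c x : ℝ} (hc : Full c) (h0 : 0 ≤ x) (h1 : x ≤ 1) : (x, c) ∈ carpet := by
  have := swP_carpet (hc.2.2 x h0 h1)
  simpa [swP] using this

theorem full_zero : Full 0 := ⟨le_rfl, zero_le_one, fun _ h0 h1 => left_mem h0 h1⟩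

theorem full_one : Full 1 := ⟨zero_le_one, le_rfl, fun _ h0 h1 => right_mem h0 h1⟩

end CarpetLib
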