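import Pool.Agent.Lib.MP_f3090c_an.K.CarreCell
import Pool.Agent.Lib.MP_f3090c_an.K.Form
import Pool.Agent.Lib.MP_f3090c_an.K.Words
import Pool.Agent.Lib.MP_f3090c_an.R.Sep

/-! K16bc. -/

open Set Filter Topology MeasureTheory

namespace CarpetLib

private theorem exists_word (n : ℕ) : ∀ x : K, ∃ w : List Dig, w.length = n ∧ ∃ z, psiW w z = x := by
  induction n with
  | zero => exact fun x => ⟨[], rfl, x, rfl⟩
  | succ n ih =>
    intro x
    have hx := carpet_subset_iUnion x.2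
    simp only [mem_iUnion] at hx
    obtain ⟨d, y, hy, hyx⟩ := hx
    obtain ⟨w, hw, z, hz⟩ := ih ⟨y, hy⟩
    refine ⟨d :: w, by simp [hw], z, ?_⟩
    apply Subtype.ext
    rw [← hyx]
    show psi d (psiW w z).1 = psi d y
    rw [hz]

private theorem coord_mem (z : K) : (0 ≤ z.1.1 ∧ z.1.1 ≤ 1) ∧ (0 ≤ z.1.2 ∧ z.1.2 ≤ 1) :=
  carpet_subset_unitSq z.2

/-- K16b: every nonempty open set contains a cell -/
theorem exists_cell {U : Set K} (hU : IsOpen U) (hne : U.Nonempty) :
    ∃ w : List Dig, ∀ z, psiW w z ∈ U := by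
  obtain ⟨x, hx⟩ := hne
  obtain ⟨ε, hε, hball⟩ := Metric.isOpen_iff.1 hU x hx
  obtain ⟨n, hn⟩ := exists_pow_lt_of_lt_one hε (by norm_num : (1 / 3 : ℝ) < 1)
  obtain ⟨w, hw, z0, hz0⟩ := exists_word n x
  refine ⟨w, fun z => hball ?_⟩
  rw [Metric.mem_ball, ← hz0]
  have h1 : dist (psiW w z).1.1 (psiW w z0).1.1 ≤ (1 / 3) ^ n := by
    rw [Real.dist_eq, psiW_fst, psiW_fst, hw, ← sub_div, add_sub_add_right_eq_sub, abs_div,
      abs_of_pos (by positivity : (0:ℝ) < 3 ^ n), one_div_pow]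
    have := (coord_mem z).1
    have := (coord_mem z0).1
    gcongr
    rw [abs_le]; constructor <;> linarith
  have h2 : dist (psiW w z).1.2 (psiW w z0).1.2 ≤ (1 / 3) ^ n := by
    rw [Real.dist_eq, psiW_snd, psiW_snd, hw, ← sub_div, add_sub_add_right_eq_sub, abs_div,
      abs_of_pos (by positivity : (0:ℝ) < 3 ^ n), one_div_pow]
    have := (coord_mem z).2
    have := (coord_mem z0).2
    gcongr
    rw [abs_le]; constructor <;> linarith
  have h3 : dist (psiW w z) (psiW w z0) ≤ (1 / 3) ^ n := by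
    rw [Subtype.dist_eq, Prod.dist_eq]
    exact max_le h1 h2
  exact h3.trans_lt hn

private theorem comp_psiW_mem (S : SymForm) {h : C(K, ℝ)} (hh : h ∈ S.dom) (w : List Dig) :
    h.comp (psiW w) ∈ S.dom := by
  induction w generalizing h with
  | nil => exact hh
  | cons d w ih =>
    have h1 := (S.mem_iff h).1 hh d
    exact ih h1

/-- K16c -/
theorem full_support (S : SymForm) {h : C(K, ℝ)} (hh : h ∈ S.dom)
    (hn : ∀ w : List Dig, ∃ z z' : K, h (psiW w z) ≠ h (psiW w z')) (ν : Measure K)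
    [IsFiniteMeasure ν] (hν : ∀ f ∈ S.dom, ∫ x, f x ∂ν = 2 * S.E (h * f) h - S.E (h * h) f)
    {U : Set K} (hU : IsOpen U) (hne : U.Nonempty) : 0 < ν U := by
  obtain ⟨w, hw⟩ := exists_cell hU hne
  have hB : IsCompact (range (psiW w)) := isCompact_range (psiW w).continuous
  have hd : Disjoint Uᶜ (range (psiW w)) := by
    rw [Set.disjoint_left]
    rintro x hx ⟨z, rfl⟩
    exact hx (hw z)
  obtain ⟨f, hf, hf01, hfA, hfB⟩ := S.toRForm.exists_sep hU.isClosed_compl hB.isClosed hd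
  have hpos : 0 < S.E (h.comp (psiW w)) (h.comp (psiW w)) := by
    refine lt_of_le_of_ne (S.nonneg _) (fun h0 => ?_)
    obtain ⟨z, z', hz⟩ := hn w
    exact hz (S.const_of_zero _ (comp_psiW_mem S hh w) h0.symm z z')
  have hle := carre_cell S hh hf (fun z => (hf01 z).1) w (fun z => hfB _ ⟨z, rfl⟩)
  rw [← hν f hf] at hle
  have hint : 0 < ∫ x, f x ∂ν := by
    refine lt_of_lt_of_le ?_ hle
    have := pow_pos S.ρ_pos w.length
    positivity
  by_contra hcon
  have h0 : ν U = 0 := by simpa using hcon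
  have hae : ∀ᵐ x ∂ν, f x = 0 := by
    rw [ae_iff]
    refine measure_mono_null (fun x hx => ?_) h0
    by_contra hxU
    exact hx (hfA x hxU)
  have : ∫ x, f x ∂ν = 0 := by
    rw [integral_congr_ae (g := fun _ => (0:ℝ)) hae]; simp
  linarith

end CarpetLib
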