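import Pool.Agent.Lib.MP_f3090c_an.K.PartDefs
import Pool.Agent.Lib.MP_f3090c_an.K.Lines
import Pool.Agent.Lib.MP_f3090c_an.P.Half
import Pool.Agent.Lib.MP_f3090c_an.R.MirrorDefs

/-! K06a: mirror data for the left half. -/

open Set Filter Topology

namespace CarpetLib

/-- the map to the half plane `X ≤ 0` -/
private noncomputable def halfF (z : HH) : ℝ × ℝ := (z.1.1.1 - 1 / 2, z.1.1.2)

private theorem halfF_cont : Continuous halfF := by
  unfold halfF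
  exact ((continuous_fst.comp (continuous_subtype_val.comp continuous_subtype_val)).sub
    continuous_const).prodMk
    (continuous_snd.comp (continuous_subtype_val.comp continuous_subtype_val))

private theorem halfF_inj : Function.Injective halfF := by
  intro z w h
  simp only [halfF, Prod.mk.injEq] at h
  exact Subtype.ext (Subtype.ext (Prod.ext (by linarith [h.1]) h.2))

private theorem half_bds (z : HH) :
    0 ≤ z.1.1.1 ∧ z.1.1.1 ≤ 1 / 2 ∧ 0 ≤ z.1.1.2 ∧ z.1.1.2 ≤ 1 := by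
  have h := carpet_subset_unitSq z.1.2
  exact ⟨h.1.1, z.2, h.2.1, h.2.2⟩

private theorem half_key {C C' : Set HH} {P P' : Set (ℝ × ℝ)}
    (h : ((halfF '' C ∪ P) ∩ (halfF '' C' ∪ P')).Nonempty)
    (hP : ∀ w : HH, halfF w ∈ P → w ∈ C) (hP' : ∀ w : HH, halfF w ∈ P' → w ∈ C')
    (hPP : ∀ z ∈ P, z ∉ P') : (C ∩ C').Nonempty := by
  obtain ⟨z, h1, h2⟩ := h
  rcases h1 with ⟨w, hw, rfl⟩ | h1
  · rcases h2 with ⟨w', hw', e⟩ | h2
    · have := halfF_inj e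
      subst this
      exact ⟨w', hw, hw'⟩
    · exact ⟨w, hw, hP' w h2⟩
  · rcases h2 with ⟨w', hw', e⟩ | h2
    · subst e
      exact ⟨w', hP w' h1, hw'⟩
    · exact absurd h2 (hPP z h1)

private theorem half_lift {T : Set (ℝ × ℝ)} (hT : ∀ p ∈ T, p ∈ carpet ∧ p.1 ≤ 1 / 2)
    (hc : IsCompact T) (hp : IsPreconnected T) :
    IsCompact ((fun z : HH => z.1.1) ⁻¹' T) ∧ IsPreconnected ((fun z : HH => z.1.1) ⁻¹' T) := by
  have hemb : Topology.IsEmbedding (fun z : HH => z.1.1) :=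
    Topology.IsEmbedding.subtypeVal.comp Topology.IsEmbedding.subtypeVal
  have himg : (fun z : HH => z.1.1) '' ((fun z : HH => z.1.1) ⁻¹' T) = T := by
    apply Subset.antisymm (image_preimage_subset _ _)
    intro p hp
    exact ⟨⟨⟨p, (hT p hp).1⟩, (hT p hp).2⟩, hp, rfl⟩
  constructor
  · rw [hemb.isCompact_iff, himg]
    exact hc
  · rw [← hemb.isInducing.isPreconnected_image, himg]
    exact hp

private theorem hseg_compact (a b c : ℝ) : IsCompact (Icc a b ×ˢ ({c} : Set ℝ)) :=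
  isCompact_Icc.prod isCompact_singleton

private theorem vseg_compact (a b c : ℝ) : IsCompact (({c} : Set ℝ) ×ˢ Icc a b) :=
  isCompact_singleton.prod isCompact_Icc

private theorem hseg_conn (a b c : ℝ) : IsPreconnected (Icc a b ×ˢ ({c} : Set ℝ)) :=
  isPreconnected_Icc.prod isPreconnected_singleton

private theorem vseg_conn (a b c : ℝ) : IsPreconnected (({c} : Set ℝ) ×ˢ Icc a b) :=
  isPreconnected_singleton.prod isPreconnected_Icc

/-- the corner `(0, 0)` -/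
private noncomputable def hE1 : HH := ⟨⟨(0, 0), left_mem le_rfl zero_le_one⟩, by
  change (0:ℝ) ≤ 1 / 2; norm_num⟩
/-- the corner `(0, 1)` -/
private noncomputable def hE2 : HH := ⟨⟨(0, 1), left_mem zero_le_one le_rfl⟩, by
  change (0:ℝ) ≤ 1 / 2; norm_num⟩
/-- the point `(0, 1/3)` -/
private noncomputable def hB4 : HH := ⟨⟨(0, 1 / 3), left_mem (by norm_num) (by norm_num)⟩, by
  change (0:ℝ) ≤ 1 / 2; norm_num⟩

private theorem half_P1 : ∀ b1 ∈ {z : HH | z.1.1.1 = 1 / 2}, ∀ b2 ∈ {z : HH | z.1.1.1 = 1 / 2},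
    ∀ b3 ∈ {z : HH | z.1.1.1 = 1 / 2}, b1.1.1.2 < b2.1.1.2 → b2.1.1.2 < b3.1.1.2 →
    ∀ C C' : Set HH, IsCompact C → IsPreconnected C → IsCompact C' → IsPreconnected C' →
      b1 ∈ C → b3 ∈ C → b2 ∈ C' → hB4 ∈ C' → (C ∩ C').Nonempty := by
  intro b1 h1 b2 h2 b3 h3 h12 h23 C C' hC hCc hC' hCc' m1 m3 m2 m4
  -- the path of `b4`
  set P : Set (ℝ × ℝ) := (Icc (-3 / 2) (-1 / 2) ×ˢ ({1 / 3} : Set ℝ)) ∪
    ((({-3 / 2} : Set ℝ) ×ˢ Icc (1 / 3) 3) ∪ (Icc (-3 / 2) 0 ×ˢ ({3} : Set ℝ))) with hPdef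
  have hPc : IsCompact P :=
    (hseg_compact _ _ _).union ((vseg_compact _ _ _).union (hseg_compact _ _ _))
  have hPp : IsPreconnected P := by
    refine IsPreconnected.union ((-3 / 2 : ℝ), (1 / 3 : ℝ)) ?_ ?_ (hseg_conn _ _ _)
      (IsPreconnected.union ((-3 / 2 : ℝ), (3 : ℝ)) ?_ ?_ (vseg_conn _ _ _) (hseg_conn _ _ _))
    · exact ⟨⟨by norm_num, by norm_num⟩, rfl⟩
    · exact Or.inl ⟨rfl, ⟨by norm_num, by norm_num⟩⟩
    · exact ⟨rfl, ⟨by norm_num, by norm_num⟩⟩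
    · exact ⟨⟨by norm_num, by norm_num⟩, rfl⟩
  have hPneg : ∀ z ∈ P, z.1 ≤ 0 := by
    rintro z (hz | hz | hz)
    · linarith [hz.1.2]
    · have : z.1 = -3 / 2 := hz.1
      linarith
    · exact hz.1.2
  have hPB : ∀ w : HH, halfF w ∈ P → w = hB4 := by
    intro w hw
    obtain ⟨a1, a2, a3, a4⟩ := half_bds w
    rcases hw with hw | hw | hw
    · have e1 : w.1.1.1 - 1 / 2 ≤ -1 / 2 := hw.1.2
      have e2 : w.1.1.2 = 1 / 3 := hw.2
      exact Subtype.ext (Subtype.ext (Prod.ext (show w.1.1.1 = 0 by linarith) e2))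
    · have e1 : w.1.1.1 - 1 / 2 = -3 / 2 := hw.1
      exfalso; linarith
    · have e2 : w.1.1.2 = 3 := hw.2
      exfalso; linarith
  have hB : halfF hB4 ∈ P := by
    refine Or.inl ⟨⟨?_, ?_⟩, ?_⟩
    · change (-3 / 2 : ℝ) ≤ 0 - 1 / 2; norm_num
    · change (0 : ℝ) - 1 / 2 ≤ -1 / 2; norm_num
    · change (1 / 3 : ℝ) = 1 / 3; rfl
  have e1 : b1.1.1.1 = 1 / 2 := h1
  have e2 : b2.1.1.1 = 1 / 2 := h2
  have e3 : b3.1.1.1 = 1 / 2 := h3
  have hcr := half_crossing (C := halfF '' C) (C' := halfF '' C' ∪ P)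
    (hC.image halfF_cont) (hCc.image _ halfF_cont.continuousOn)
    ((hC'.image halfF_cont).union hPc)
    (IsPreconnected.union (halfF hB4) ⟨hB4, m4, rfl⟩ hB (hCc'.image _ halfF_cont.continuousOn) hPp)
    (by
      rintro z ⟨w, -, rfl⟩
      have := (half_bds w).2.1
      change w.1.1.1 - 1 / 2 ≤ 0
      linarith)
    (by
      rintro z (⟨w, -, rfl⟩ | hz)
      · have := (half_bds w).2.1
        change w.1.1.1 - 1 / 2 ≤ 0
        linarith
      · exact hPneg z hz)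
    (t1 := b1.1.1.2) (t2 := b2.1.1.2) (t3 := b3.1.1.2) (t4 := 3) h12 h23
    (by linarith [(half_bds b3).2.2.2])
    ⟨b1, m1, by simp [halfF, e1]⟩ ⟨b3, m3, by simp [halfF, e3]⟩
    (Or.inl ⟨b2, m2, by simp [halfF, e2]⟩)
    (Or.inr (Or.inr (Or.inr ⟨⟨by norm_num, le_rfl⟩, rfl⟩)))
  refine half_key (P := ∅) (P' := P) (by rw [union_empty]; exact hcr)
    (fun w hw => absurd hw (notMem_empty _)) (fun w hw => ?_)
    (fun z hz => absurd hz (notMem_empty _))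
  rw [hPB w hw]
  exact m4

private theorem half_P2 : ∀ a ∈ {z : HH | z.1.1.1 = 1 / 2}, ∀ b ∈ {z : HH | z.1.1.1 = 1 / 2},
    a.1.1.2 < b.1.1.2 → NoCross a b hE1 hE2 := by
  intro a ha b hb hab C C' hC hCc hC' hCc' ma m2 mb m1
  set P : Set (ℝ × ℝ) := (({-1 / 2} : Set ℝ) ×ˢ Icc 1 2) ∪
    (Icc (-1 / 2) 0 ×ˢ ({2} : Set ℝ)) with hPdef
  set P' : Set (ℝ × ℝ) := (({-1 / 2} : Set ℝ) ×ˢ Icc (-1) 0) ∪
    (Icc (-1 / 2) 0 ×ˢ ({-1} : Set ℝ)) with hPdef'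
  have hPc : IsCompact P := (vseg_compact _ _ _).union (hseg_compact _ _ _)
  have hPc' : IsCompact P' := (vseg_compact _ _ _).union (hseg_compact _ _ _)
  have hPp : IsPreconnected P := by
    refine IsPreconnected.union ((-1 / 2 : ℝ), (2 : ℝ)) ?_ ?_ (vseg_conn _ _ _)
      (hseg_conn _ _ _)
    · exact ⟨rfl, ⟨by norm_num, by norm_num⟩⟩
    · exact ⟨⟨by norm_num, by norm_num⟩, rfl⟩
  have hPp' : IsPreconnected P' := by
    refine IsPreconnected.union ((-1 / 2 : ℝ), (-1 : ℝ)) ?_ ?_ (vseg_conn _ _ _)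
      (hseg_conn _ _ _)
    · exact ⟨rfl, ⟨by norm_num, by norm_num⟩⟩
    · exact ⟨⟨by norm_num, by norm_num⟩, rfl⟩
  have hPneg : ∀ z ∈ P, z.1 ≤ 0 ∧ 1 ≤ z.2 := by
    rintro z (hz | hz)
    · have : z.1 = -1 / 2 := hz.1
      exact ⟨by linarith, hz.2.1⟩
    · have : z.2 = 2 := hz.2
      exact ⟨hz.1.2, by linarith⟩
  have hPneg' : ∀ z ∈ P', z.1 ≤ 0 ∧ z.2 ≤ 0 := by
    rintro z (hz | hz)
    · have : z.1 = -1 / 2 := hz.1
      exact ⟨by linarith, hz.2.2⟩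
    · have : z.2 = -1 := hz.2
      exact ⟨hz.1.2, by linarith⟩
  have hPE : ∀ w : HH, halfF w ∈ P → w = hE2 := by
    intro w hw
    obtain ⟨a1, a2, a3, a4⟩ := half_bds w
    rcases hw with hw | hw
    · have e1 : w.1.1.1 - 1 / 2 = -1 / 2 := hw.1
      have e2 : 1 ≤ w.1.1.2 := hw.2.1
      exact Subtype.ext (Subtype.ext (Prod.ext (show w.1.1.1 = 0 by linarith)
        (show w.1.1.2 = 1 by linarith)))
    · have e2 : w.1.1.2 = 2 := hw.2
      exfalso; linarith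
  have hPE' : ∀ w : HH, halfF w ∈ P' → w = hE1 := by
    intro w hw
    obtain ⟨a1, a2, a3, a4⟩ := half_bds w
    rcases hw with hw | hw
    · have e1 : w.1.1.1 - 1 / 2 = -1 / 2 := hw.1
      have e2 : w.1.1.2 ≤ 0 := hw.2.2
      exact Subtype.ext (Subtype.ext (Prod.ext (show w.1.1.1 = 0 by linarith)
        (show w.1.1.2 = 0 by linarith)))
    · have e2 : w.1.1.2 = -1 := hw.2
      exfalso; linarith
  have hE : halfF hE2 ∈ P := by
    refine Or.inl ⟨?_, ?_, ?_⟩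
    · change (0 : ℝ) - 1 / 2 = -1 / 2; norm_num
    · change (1 : ℝ) ≤ 1; norm_num
    · change (1 : ℝ) ≤ 2; norm_num
  have hE' : halfF hE1 ∈ P' := by
    refine Or.inl ⟨?_, ?_, ?_⟩
    · change (0 : ℝ) - 1 / 2 = -1 / 2; norm_num
    · change (-1 : ℝ) ≤ 0; norm_num
    · change (0 : ℝ) ≤ 0; norm_num
  have ea : a.1.1.1 = 1 / 2 := ha
  have eb : b.1.1.1 = 1 / 2 := hb
  have hneg : ∀ w : HH, (halfF w).1 ≤ 0 := by
    intro w
    have := (half_bds w).2.1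
    change w.1.1.1 - 1 / 2 ≤ 0
    linarith
  have hcr := half_crossing (C := halfF '' C' ∪ P') (C' := halfF '' C ∪ P)
    ((hC'.image halfF_cont).union hPc')
    (IsPreconnected.union (halfF hE1) ⟨hE1, m1, rfl⟩ hE' (hCc'.image _ halfF_cont.continuousOn)
      hPp')
    ((hC.image halfF_cont).union hPc)
    (IsPreconnected.union (halfF hE2) ⟨hE2, m2, rfl⟩ hE (hCc.image _ halfF_cont.continuousOn)
      hPp)
    (by
      rintro z (⟨w, -, rfl⟩ | hz)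
      · exact hneg w
      · exact (hPneg' z hz).1)
    (by
      rintro z (⟨w, -, rfl⟩ | hz)
      · exact hneg w
      · exact (hPneg z hz).1)
    (t1 := -1) (t2 := a.1.1.2) (t3 := b.1.1.2) (t4 := 2)
    (by linarith [(half_bds a).2.2.1]) hab
    (by linarith [(half_bds b).2.2.2])
    (Or.inr (Or.inr ⟨⟨by norm_num, le_rfl⟩, rfl⟩))
    (Or.inl ⟨b, mb, by simp [halfF, eb]⟩)
    (Or.inl ⟨a, ma, by simp [halfF, ea]⟩)
    (Or.inr (Or.inr ⟨⟨by norm_num, le_rfl⟩, rfl⟩))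
  rw [inter_comm] at hcr
  refine half_key hcr (fun w hw => ?_) (fun w hw => ?_) (fun z hz hz' => ?_)
  · rw [hPE w hw]; exact m2
  · rw [hPE' w hw]; exact m1
  · have h1 := (hPneg z hz).2
    have h2 := (hPneg' z hz').2
    linarith

private theorem half_P3 : ∀ a ∈ {z : HH | z.1.1.1 = 1 / 2}, ∀ b ∈ {z : HH | z.1.1.1 = 1 / 2},
    a.1.1.2 < b.1.1.2 → ∃ C1 C2 : Set HH, IsCompact C1 ∧ IsPreconnected C1 ∧
    IsCompact C2 ∧ IsPreconnected C2 ∧ Disjoint C1 C2 ∧ a ∈ C1 ∧ hE1 ∈ C1 ∧ b ∈ C2 ∧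
      hE2 ∈ C2 := by
  intro a ha b hb hab
  have ea : a.1.1.1 = 1 / 2 := ha
  have eb : b.1.1.1 = 1 / 2 := hb
  obtain ⟨-, -, a0, a1⟩ := half_bds a
  obtain ⟨-, -, b0, b1⟩ := half_bds b
  have fa : Full a.1.1.2 := by
    apply full_of_mid
    have h := a.1.2
    have e : a.1.1 = ((1:ℝ) / 2, a.1.1.2) := Prod.ext ea rfl
    rwa [e] at h
  have fb : Full b.1.1.2 := by
    apply full_of_mid
    have h := b.1.2
    have e : b.1.1 = ((1:ℝ) / 2, b.1.1.2) := Prod.ext eb rfl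
    rwa [e] at h
  set T1 : Set (ℝ × ℝ) := (Icc 0 (1 / 2) ×ˢ ({a.1.1.2} : Set ℝ)) ∪
    (({0} : Set ℝ) ×ˢ Icc 0 a.1.1.2) with hT1
  set T2 : Set (ℝ × ℝ) := (Icc 0 (1 / 2) ×ˢ ({b.1.1.2} : Set ℝ)) ∪
    (({0} : Set ℝ) ×ˢ Icc b.1.1.2 1) with hT2
  have c1 : IsCompact T1 := (hseg_compact _ _ _).union (vseg_compact _ _ _)
  have c2 : IsCompact T2 := (hseg_compact _ _ _).union (vseg_compact _ _ _)
  have p1 : IsPreconnected T1 := by
    refine IsPreconnected.union ((0 : ℝ), a.1.1.2) ?_ ?_ (hseg_conn _ _ _) (vseg_conn _ _ _)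
    · exact ⟨⟨le_rfl, by norm_num⟩, rfl⟩
    · exact ⟨rfl, ⟨a0, le_rfl⟩⟩
  have p2 : IsPreconnected T2 := by
    refine IsPreconnected.union ((0 : ℝ), b.1.1.2) ?_ ?_ (hseg_conn _ _ _) (vseg_conn _ _ _)
    · exact ⟨⟨le_rfl, by norm_num⟩, rfl⟩
    · exact ⟨rfl, ⟨le_rfl, b1⟩⟩
  have s1 : ∀ p ∈ T1, (p ∈ carpet ∧ p.1 ≤ 1 / 2) ∧ p.2 ≤ a.1.1.2 := by
    rintro ⟨x, y⟩ (hp | hp)
    · obtain ⟨⟨h1, h2⟩, h3⟩ := hp
      have h3' : y = a.1.1.2 := h3
      dsimp only at h1 h2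
      subst h3'
      exact ⟨⟨fa.mem_left h1 (by linarith), h2⟩, le_rfl⟩
    · obtain ⟨h3, h1, h2⟩ := hp
      have h3' : x = 0 := h3
      dsimp only at h1 h2
      subst h3'
      exact ⟨⟨left_mem h1 (by linarith), by norm_num⟩, h2⟩
  have s2 : ∀ p ∈ T2, (p ∈ carpet ∧ p.1 ≤ 1 / 2) ∧ b.1.1.2 ≤ p.2 := by
    rintro ⟨x, y⟩ (hp | hp)
    · obtain ⟨⟨h1, h2⟩, h3⟩ := hp
      have h3' : y = b.1.1.2 := h3
      dsimp only at h1 h2
      subst h3'
      exact ⟨⟨fb.mem_left h1 (by linarith), h2⟩, le_rfl⟩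
    · obtain ⟨h3, h1, h2⟩ := hp
      have h3' : x = 0 := h3
      dsimp only at h1 h2
      subst h3'
      exact ⟨⟨left_mem (by linarith) h2, by norm_num⟩, h1⟩
  obtain ⟨k1, k2⟩ := half_lift (fun p hp => (s1 p hp).1) c1 p1
  obtain ⟨k3, k4⟩ := half_lift (fun p hp => (s2 p hp).1) c2 p2
  refine ⟨_, _, k1, k2, k3, k4, ?_, ?_, ?_, ?_, ?_⟩
  · rw [Set.disjoint_left]
    intro w h1 h2
    have e1 := (s1 _ h1).2
    have e2 := (s2 _ h2).2
    dsimp only at e1 e2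
    linarith
  · exact Or.inl ⟨⟨by rw [ea]; norm_num, by rw [ea]⟩, rfl⟩
  · exact Or.inr ⟨rfl, ⟨le_rfl, a0⟩⟩
  · exact Or.inl ⟨⟨by rw [eb]; norm_num, by rw [eb]⟩, rfl⟩
  · exact Or.inr ⟨rfl, ⟨b1, le_rfl⟩⟩

theorem exists_halfData : ∃ M : MirrorData HH, M.m = {z : HH | z.1.1.1 = 1 / 2} ∧
    M.e1.1.1 = (0, 0) ∧ M.e2.1.1 = (0, 1) ∧ M.b4.1.1 = (0, 1 / 3) := by
  refine ⟨{
    m := {z : HH | z.1.1.1 = 1 / 2}
    closed := ?_
    nonempty := ?_
    θ := fun z => z.1.1.2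
    inj := ?_
    e1 := hE1
    e2 := hE2
    b4 := hB4
    P1 := half_P1
    P2 := half_P2
    P3 := half_P3 }, rfl, rfl, rfl, rfl⟩
  · exact isClosed_eq (continuous_fst.comp (continuous_subtype_val.comp continuous_subtype_val))
      continuous_const
  · refine ⟨⟨⟨(1 / 2, 0), bot_mem (by norm_num) (by norm_num)⟩, ?_⟩, ?_⟩
    · change (1 / 2 : ℝ) ≤ 1 / 2; exact le_rfl
    · change (1 / 2 : ℝ) = 1 / 2; rfl
  · intro z hz w hw h
    have e1 : z.1.1.1 = 1 / 2 := hz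
    have e2 : w.1.1.1 = 1 / 2 := hw
    exact Subtype.ext (Subtype.ext (Prod.ext (e1.trans e2.symm) h))

end CarpetLib
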