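import Pool.Agent.Lib.MP_f3090c_an.K.Alive
import Pool.Agent.Lib.MP_f3090c_an.K.ToSym
import Pool.Agent.Lib.MP_f3090c_an.K.FullSupp
import Pool.Agent.Lib.MP_f3090c_an.R.Energy
import Pool.Agent.Lib.MP_f3090c_an.R.Harm

/-! K17. -/

open Set Filter Topology MeasureTheory

namespace CarpetLib

theorem LR_closed : IsClosed LR := by
  have h1 : IsClosed {z : K | z.1.1 = 0} :=
    isClosed_eq (continuous_fst.comp continuous_subtype_val) continuous_const
  have h2 : IsClosed {z : K | z.1.1 = 1} :=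
    isClosed_eq (continuous_fst.comp continuous_subtype_val) continuous_const
  exact h1.union h2

/-- K17 -/
theorem main : MainStatement := by
  intro μ hfin hμ 𝓔
  obtain ⟨S, hdom, hE⟩ := exists_symForm hμ 𝓔
  have hmem : ∀ f, f ∈ S.dom ↔ f ∈ 𝓔.dom := fun f => by rw [hdom]
  -- choose inseparable pairs
  have hpairs : ∀ w : List Dig, ∃ z z' : K, ¬ S.Insep LR (psiW w z) (psiW w z') := by
    intro w
    have := not_dead S w
    unfold Dead at this
    push Not at this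
    exact this
  choose a b hab using hpairs
  have hne : LR.Nonempty := ⟨c00, Or.inl rfl⟩
  obtain ⟨h, hh, hsep⟩ := S.toRForm.harm_baire LR_closed hne (fun w => psiW w (a w))
    (fun w => psiW w (b w)) hab
  have hhd : h ∈ 𝓔.dom := (hmem _).1 hh.1
  refine ⟨⟨h, hhd⟩, ?_, ?_, ?_⟩
  · intro v hv
    have hv' : v.1 ∈ S.domZ LR := by
      refine ⟨(hmem _).2 v.2, fun z hz => hv z ?_⟩
      rcases hz with hz | hz
      · exact Or.inl hz
      · exact Or.inr (Or.inl hz)
    have := hh.2 v.1 hv'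
    rw [← hE]
    exact this
  · obtain ⟨ν, hν, hint⟩ := S.toRForm.exists_energyMeasure hh.1
    refine ⟨ν, hν, fun f => ?_⟩
    have hfS : f.1 ∈ S.dom := (hmem _).2 f.2
    have h1 : h * f.1 ∈ 𝓔.dom := (hmem _).1 (S.toRForm.mul_mem hh.1 hfS)
    have h2 : h * h ∈ 𝓔.dom := (hmem _).1 (S.toRForm.mul_mem hh.1 hh.1)
    refine ⟨h1, h2, ?_⟩
    rw [hint f.1 hfS, ← hE, ← hE]
  · intro ν hνfin hν U hU hUne
    refine full_support S hh.1 (fun w => ⟨a w, b w, hsep w⟩) ν (fun f hf => ?_) hU hUne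
    have hfd : f ∈ 𝓔.dom := (hmem _).1 hf
    obtain ⟨h1, h2, heq⟩ := hν ⟨f, hfd⟩
    rw [heq, ← hE, ← hE]

end CarpetLib
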