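import Pool.Agent.Lib.MP_f3090c_an.K.DeadDefs
import Pool.Agent.Lib.MP_f3090c_an.K.CellStep
import Pool.Agent.Lib.MP_f3090c_an.K.Path
import Pool.Agent.Lib.MP_f3090c_an.R.Harm

/-! K14e. -/

open Set Filter Topology

namespace CarpetLib

private theorem tail_left : IsPreconnected {z : K | z.1.1 = 0} := by
  have h : {z : K | z.1.1 = 0} = (fun y : Icc (0 : ℝ) 1 =>
      (⟨((0 : ℝ), y.1), left_mem y.2.1 y.2.2⟩ : K)) '' univ := by
    ext z
    constructor
    · intro hz
      have h1 := carpet_subset_unitSq z.2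
      refine ⟨⟨z.1.2, h1.2.1, h1.2.2⟩, mem_univ _, ?_⟩
      apply Subtype.ext
      exact Prod.ext (Eq.symm hz) rfl
    · rintro ⟨y, -, rfl⟩
      rfl
  rw [h]
  refine IsPreconnected.image ?_ _ ?_
  · haveI : PreconnectedSpace (Icc (0 : ℝ) 1) :=
      isPreconnected_iff_preconnectedSpace.1 isPreconnected_Icc
    exact isPreconnected_univ
  · apply Continuous.continuousOn
    apply Continuous.subtype_mk
    fun_prop

private theorem tail_right : IsPreconnected {z : K | z.1.1 = 1} := by
  have h : {z : K | z.1.1 = 1} = (fun y : Icc (0 : ℝ) 1 =>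
      (⟨((1 : ℝ), y.1), right_mem y.2.1 y.2.2⟩ : K)) '' univ := by
    ext z
    constructor
    · intro hz
      have h1 := carpet_subset_unitSq z.2
      refine ⟨⟨z.1.2, h1.2.1, h1.2.2⟩, mem_univ _, ?_⟩
      apply Subtype.ext
      exact Prod.ext (Eq.symm hz) rfl
    · rintro ⟨y, -, rfl⟩
      rfl
  rw [h]
  refine IsPreconnected.image ?_ _ ?_
  · haveI : PreconnectedSpace (Icc (0 : ℝ) 1) :=
      isPreconnected_iff_preconnectedSpace.1 isPreconnected_Icc
    exact isPreconnected_univ
  · apply Continuous.continuousOn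
    apply Continuous.subtype_mk
    fun_prop

private theorem tail_trans (S : SymForm) {V : Set K} {x y z : K} (h1 : S.Insep V x z)
    (h2 : S.Insep V y z) : S.Insep V x y := by
  obtain ⟨u, hu, hu'⟩ := h1
  obtain ⟨v, hv, hv'⟩ := h2
  refine ⟨u - v, (S.domZ V).sub_mem hu hv, fun f hf => ?_⟩
  rw [map_sub, LinearMap.sub_apply, hu' f hf, hv' f hf]
  ring

/-- K14e: the step for potentials supported in the open triangle -/
theorem tail_of_supp (S : SymForm) {d : Dig} {w : List Dig} (h1 : iy (d :: w) < ix (d :: w))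
    (h2 : 2 * ix (d :: w) + 1 < 3 ^ (d :: w).length)
    (h : ∀ z : K, ∃ U ∈ S.dom, (∀ y, y ∉ triO → U y = 0) ∧
      ∀ f ∈ S.dom, S.E U f = f (psiW (d :: w) z) - f (psiW (d :: w) p0)) :
    Dead S w := by
  have hp0 : psiW w p0 = psiW (w ++ [d10]) c00 := by
    rw [psiW_append]
    rfl
  have hc00 : (c00.1.1 = 0 ∨ c00.1.1 = 1) ∧ (c00.1.2 = 0 ∨ c00.1.2 = 1) :=
    ⟨Or.inl rfl, Or.inl rfl⟩
  have key : ∀ z : K, S.Insep LR (psiW w z) (psiW w p0) := by
    intro z
    obtain ⟨U, hU, hU0, hUx⟩ := h z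
    rcases first_digit h1 h2 with hd | hd
    · have hd' : d = d00 := Subtype.ext hd
      subst hd'
      refine cell_step0 S hU hU0 hUx ?_
      obtain ⟨C, hC, hC1, ⟨z0, hz0, hz0'⟩, hC3⟩ := down_left (w ++ [d10]) c00 hc00
      rw [← hp0] at hC1 hC3
      have hlt : (psiW w p0).1.1 < 1 := by
        rw [hp0, psiW_fst, div_lt_one (by positivity)]
        have := ix_lt (w ++ [d10])
        have h3 : ((ix (w ++ [d10]) : ℕ) : ℝ) < 3 ^ (w ++ [d10]).length := by exact_mod_cast this
        have h4 : c00.1.1 = 0 := rfl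
        rw [h4, zero_add]
        exact h3
      refine ⟨C ∪ {z : K | z.1.1 = 0}, ?_, ?_, Or.inl hC1, Or.inr rfl⟩
      · exact hC.union z0 hz0 hz0' tail_left
      · rintro y (hy | hy)
        · exact ((hC3 y hy).1.trans_lt hlt).ne
        · rw [mem_setOf_eq] at hy
          rw [hy]
          norm_num
    · have hd' : d = d10 := Subtype.ext hd
      subst hd'
      refine cell_step1 S hU hU0 hUx ?_
      obtain ⟨C, hC, hC1, ⟨z0, hz0, hz0'⟩, hC3⟩ := down_right (w ++ [d10]) c00 hc00
      rw [← hp0] at hC1 hC3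
      have hlt : 0 < (psiW w p0).1.1 := by
        rw [psiW_fst]
        have h4 : p0.1.1 = 1 / 3 := by
          change (c00.1.1 + ((d10.1.1 : Fin 3) : ℕ)) / 3 = 1 / 3
          have : c00.1.1 = 0 := rfl
          rw [this]
          simp [d10]
        rw [h4]
        positivity
      refine ⟨C ∪ {z : K | z.1.1 = 1}, ?_, ?_, Or.inl hC1, Or.inr rfl⟩
      · exact hC.union z0 hz0 hz0' tail_right
      · rintro y (hy | hy)
        · exact (hlt.trans_le (hC3 y hy).1).ne'
        · rw [mem_setOf_eq] at hy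
          rw [hy]
          norm_num
  intro z z'
  exact tail_trans S (key z) (key z')

end CarpetLib
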