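import Pool.Agent.Lib.MP_f3090c_an.K.PartDefs
import Pool.Agent.Lib.MP_f3090c_an.K.Lines
import Pool.Agent.Lib.MP_f3090c_an.P.Half
import Pool.Agent.Lib.MP_f3090c_an.R.MirrorDefs

/-! K06c: mirror data for the triangle. -/

open Set Filter Topology

namespace CarpetLib

/-- coordinates of the points of the triangle -/
private def triPt (z : TT) : ℝ × ℝ := z.1.1

private theorem triPt_cont : Continuous triPt :=
  continuous_subtype_val.comp continuous_subtype_val

private theorem triPt_ind : IsInducing triPt :=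
  IsInducing.subtypeVal.comp IsInducing.subtypeVal

private theorem triPt_inj {z w : TT} (h : triPt z = triPt w) : z = w :=
  Subtype.ext (Subtype.ext h)

/-- lifting plane sets to the triangle -/
private theorem tri_lift {S : Set (ℝ × ℝ)} (hc : IsCompact S) (hp : IsPreconnected S)
    (hS : ∀ p ∈ S, p ∈ carpet ∧ p.2 ≤ p.1 ∧ p.1 ≤ 1 / 2) :
    IsCompact (triPt ⁻¹' S) ∧ IsPreconnected (triPt ⁻¹' S) := by
  have himg : triPt '' (triPt ⁻¹' S) = S := by
    ext p
    constructor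
    · rintro ⟨z, hz, rfl⟩
      exact hz
    · intro hpS
      obtain ⟨h1, h2, h3⟩ := hS p hpS
      exact ⟨⟨⟨p, h1⟩, ⟨h2, h3⟩⟩, hpS, rfl⟩
  constructor
  · rw [triPt_ind.isCompact_iff, himg]
    exact hc
  · rw [← triPt_ind.isPreconnected_image, himg]
    exact hp

/-- horizontal segments -/
private def triH (a b c : ℝ) : Set (ℝ × ℝ) := (fun x : ℝ => (x, c)) '' Icc a b
/-- vertical segments -/
private def triV (c a b : ℝ) : Set (ℝ × ℝ) := (fun y : ℝ => (c, y)) '' Icc a b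
/-- diagonal -/
private theorem triH_compact (a b c : ℝ) : IsCompact (triH a b c) :=
  isCompact_Icc.image (by fun_prop)
private theorem triV_compact (a b c : ℝ) : IsCompact (triV a b c) :=
  isCompact_Icc.image (by fun_prop)
private theorem triH_conn (a b c : ℝ) : IsPreconnected (triH a b c) :=
  isPreconnected_Icc.image _ (by fun_prop)
private theorem triV_conn (a b c : ℝ) : IsPreconnected (triV a b c) :=
  isPreconnected_Icc.image _ (by fun_prop)
private theorem mem_triH {a b c : ℝ} {p : ℝ × ℝ} :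
    p ∈ triH a b c ↔ (a ≤ p.1 ∧ p.1 ≤ b) ∧ p.2 = c := by
  constructor
  · rintro ⟨x, hx, rfl⟩
    exact ⟨hx, rfl⟩
  · rintro ⟨h1, h2⟩
    exact ⟨p.1, h1, Prod.ext rfl h2.symm⟩
private theorem mem_triV {c a b : ℝ} {p : ℝ × ℝ} :
    p ∈ triV c a b ↔ p.1 = c ∧ (a ≤ p.2 ∧ p.2 ≤ b) := by
  constructor
  · rintro ⟨x, hx, rfl⟩
    exact ⟨rfl, hx⟩
  · rintro ⟨h1, h2⟩
    exact ⟨p.2, h2, Prod.ext h1.symm rfl⟩

/-- the linear change of coordinates -/
private def triPhi (p : ℝ × ℝ) : ℝ × ℝ := (p.2 - p.1, p.1 + p.2)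

private theorem triPhi_cont : Continuous triPhi := by
  unfold triPhi
  fun_prop

private theorem triPhi_inj {p q : ℝ × ℝ} (h : triPhi p = triPhi q) : p = q := by
  simp only [triPhi, Prod.mk.injEq] at h
  exact Prod.ext (by linarith [h.1, h.2]) (by linarith [h.1, h.2])

/-- crossing of a continuum `C` of the triangle and of a continuum `C'` extended by a path `P`
outside the triangle -/
private theorem tri_cross {C C' : Set TT} (hC : IsCompact C) (hCc : IsPreconnected C)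
    (hC' : IsCompact C') (hCc' : IsPreconnected C') {P : Set (ℝ × ℝ)} (hP : IsCompact P)
    (hPc : IsPreconnected P) (hPx : ∀ p ∈ P, p.2 ≤ p.1) {e : TT} (heC : e ∈ C')
    (heP : triPt e ∈ P) (hPe : ∀ p ∈ P, p.1 ≤ 1 / 2 → p = triPt e) :
    (∀ z ∈ triPhi '' (triPt '' C), z.1 ≤ 0) ∧
    (∀ z ∈ triPhi '' (triPt '' C' ∪ P), z.1 ≤ 0) ∧
    IsCompact (triPhi '' (triPt '' C)) ∧ IsPreconnected (triPhi '' (triPt '' C)) ∧
    IsCompact (triPhi '' (triPt '' C' ∪ P)) ∧ IsPreconnected (triPhi '' (triPt '' C' ∪ P)) ∧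
    ((triPhi '' (triPt '' C) ∩ triPhi '' (triPt '' C' ∪ P)).Nonempty → (C ∩ C').Nonempty) := by
  have hT : ∀ z : TT, (triPt z).2 ≤ (triPt z).1 ∧ (triPt z).1 ≤ 1 / 2 := fun z => z.2
  refine ⟨?_, ?_, ?_, ?_, ?_, ?_, ?_⟩
  · rintro _ ⟨_, ⟨z, -, rfl⟩, rfl⟩
    have := (hT z).1
    simp only [triPhi]
    linarith
  · rintro _ ⟨p, hp, rfl⟩
    rcases hp with ⟨z, -, rfl⟩ | hp
    · have := (hT z).1
      simp only [triPhi]
      linarith
    · have := hPx p hp
      simp only [triPhi]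
      linarith
  · exact (hC.image triPt_cont).image triPhi_cont
  · exact (hCc.image _ triPt_cont.continuousOn).image _ triPhi_cont.continuousOn
  · exact ((hC'.image triPt_cont).union hP).image triPhi_cont
  · refine IsPreconnected.image ?_ _ triPhi_cont.continuousOn
    exact IsPreconnected.union (triPt e) ⟨e, heC, rfl⟩ heP
      (hCc'.image _ triPt_cont.continuousOn) hPc
  · rintro ⟨w, ⟨p, ⟨z, hz, rfl⟩, rfl⟩, ⟨q, hq, hpq⟩⟩
    have h1 := triPhi_inj hpq
    rcases hq with ⟨z', hz', rfl⟩ | hq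
    · have h2 := triPt_inj h1
      subst h2
      exact ⟨z', hz, hz'⟩
    · have h2 : q.1 ≤ 1 / 2 := by
        rw [h1]
        exact (hT z).2
      have h3 := hPe q hq h2
      rw [h3] at h1
      have h4 := triPt_inj h1
      subst h4
      exact ⟨e, hz, heC⟩

theorem exists_triData : ∃ M : MirrorData TT, M.m = {z : TT | z.1.1.1 = z.1.1.2} ∧
    M.e1.1.1 = (0, 0) ∧ M.e2.1.1 = (1 / 2, 1 / 3) ∧ M.b4.1.1 = (1 / 2, 0) := by
  have h13 : Full (1 / 3) := by
    have := full_third 1 (by norm_num)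
    simpa using this
  let e1 : TT := ⟨⟨(0, 0), left_mem le_rfl zero_le_one⟩, ⟨le_rfl, by norm_num⟩⟩
  let e2 : TT := ⟨⟨(1 / 2, 1 / 3), h13.mem_left (by norm_num) (by norm_num)⟩,
    ⟨by norm_num, by norm_num⟩⟩
  let b4 : TT := ⟨⟨(1 / 2, 0), bot_mem (by norm_num) (by norm_num)⟩,
    ⟨by norm_num, by norm_num⟩⟩
  have hT : ∀ z : TT, (triPt z).2 ≤ (triPt z).1 ∧ (triPt z).1 ≤ 1 / 2 := fun z => z.2
  have hK : ∀ z : TT, triPt z ∈ carpet := fun z => z.1.2
  have hpos : ∀ z : TT, 0 ≤ (triPt z).1 := fun z => (carpet_subset_unitSq (hK z)).1.1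
  -- points of the diagonal
  have hm : ∀ z : TT, (triPt z).1 = (triPt z).2 →
      triPt z = ((triPt z).1, (triPt z).1) ∧ Full (triPt z).1 ∧ (triPt z).1 ≤ 1 / 3 := by
    intro z hz
    have h1 : triPt z = ((triPt z).1, (triPt z).1) := Prod.ext rfl hz.symm
    have h2 : ((triPt z).1, (triPt z).1) ∈ carpet := by
      rw [← h1]
      exact hK z
    refine ⟨h1, full_of_diag h2, ?_⟩
    rcases diag_gap h2 with h3 | h3
    · exact h3
    · have := (hT z).2
      linarith
  -- outside paths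
  let P4 : Set (ℝ × ℝ) := triH (1 / 2) 2 0 ∪ triV 2 0 2
  let P2 : Set (ℝ × ℝ) := triH (1 / 2) 1 (1 / 3) ∪ triV 1 (1 / 3) 1
  have hP4 : IsCompact P4 := (triH_compact _ _ _).union (triV_compact _ _ _)
  have hP2 : IsCompact P2 := (triH_compact _ _ _).union (triV_compact _ _ _)
  have hP4c : IsPreconnected P4 := by
    refine IsPreconnected.union ((2 : ℝ), (0 : ℝ)) ?_ ?_ (triH_conn _ _ _) (triV_conn _ _ _)
    · rw [mem_triH]
      norm_num
    · rw [mem_triV]
      norm_num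
  have hP2c : IsPreconnected P2 := by
    refine IsPreconnected.union ((1 : ℝ), (1 / 3 : ℝ)) ?_ ?_ (triH_conn _ _ _) (triV_conn _ _ _)
    · rw [mem_triH]
      norm_num
    · rw [mem_triV]
      norm_num
  have hP4x : ∀ p ∈ P4, p.2 ≤ p.1 := by
    intro p hp
    rcases hp with hp | hp
    · rw [mem_triH] at hp
      linarith [hp.1.1, hp.2]
    · rw [mem_triV] at hp
      linarith [hp.1, hp.2.2]
  have hP2x : ∀ p ∈ P2, p.2 ≤ p.1 := by
    intro p hp
    rcases hp with hp | hp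
    · rw [mem_triH] at hp
      linarith [hp.1.1, hp.2]
    · rw [mem_triV] at hp
      linarith [hp.1, hp.2.2]
  have hP4e : ∀ p ∈ P4, p.1 ≤ 1 / 2 → p = triPt b4 := by
    intro p hp h
    rcases hp with hp | hp
    · rw [mem_triH] at hp
      exact Prod.ext (le_antisymm h hp.1.1) hp.2
    · rw [mem_triV] at hp
      linarith [hp.1]
  have hP2e : ∀ p ∈ P2, p.1 ≤ 1 / 2 → p = triPt e2 := by
    intro p hp h
    rcases hp with hp | hp
    · rw [mem_triH] at hp
      exact Prod.ext (le_antisymm h hp.1.1) hp.2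
    · rw [mem_triV] at hp
      linarith [hp.1]
  have hb4 : triPt b4 ∈ P4 := by
    left
    rw [mem_triH]
    change ((1 / 2 : ℝ) ≤ 1 / 2 ∧ (1 / 2 : ℝ) ≤ 2) ∧ (0 : ℝ) = 0
    norm_num
  have he2 : triPt e2 ∈ P2 := by
    left
    rw [mem_triH]
    change ((1 / 2 : ℝ) ≤ 1 / 2 ∧ (1 / 2 : ℝ) ≤ 1) ∧ (1 / 3 : ℝ) = 1 / 3
    norm_num
  have hphi : ∀ z : TT, (triPt z).1 = (triPt z).2 →
      triPhi (triPt z) = ((0 : ℝ), 2 * (triPt z).1) := by
    intro z hz
    simp only [triPhi]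
    exact Prod.ext (by simp only; linarith) (by simp only; linarith)
  refine ⟨⟨{z : TT | z.1.1.1 = z.1.1.2}, ?_, ⟨e1, rfl⟩, fun z => (triPt z).1, ?_, e1, e2, b4,
    ?_, ?_, ?_⟩, rfl, rfl, rfl, rfl⟩
  · exact isClosed_eq (continuous_fst.comp triPt_cont) (continuous_snd.comp triPt_cont)
  · intro z hz w hw h
    refine triPt_inj (Prod.ext h ?_)
    have h1 : (triPt z).1 = (triPt z).2 := hz
    have h2 : (triPt w).1 = (triPt w).2 := hw
    have h3 : (triPt z).1 = (triPt w).1 := h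
    rw [← h1, ← h2, h3]
  · -- P1
    intro b1 hb1 b2 hb2 b3 hb3 h12 h23 C C' hC hCc hC' hCc' hb1C hb3C hb2C' hb4C'
    have h12' : (triPt b1).1 < (triPt b2).1 := h12
    have h23' : (triPt b2).1 < (triPt b3).1 := h23
    obtain ⟨k1, k2, k3, k4, k5, k6, k7⟩ :=
      tri_cross hC hCc hC' hCc' hP4 hP4c hP4x hb4C' hb4 hP4e
    apply k7
    have hle := (hT b3).2
    refine half_crossing k3 k4 k5 k6 k1 k2 (t1 := 2 * (triPt b1).1) (t2 := 2 * (triPt b2).1)
      (t3 := 2 * (triPt b3).1) (t4 := 4) (by linarith) (by linarith) (by linarith) ?_ ?_ ?_ ?_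
    · rw [← hphi b1 hb1]
      exact ⟨_, ⟨b1, hb1C, rfl⟩, rfl⟩
    · rw [← hphi b3 hb3]
      exact ⟨_, ⟨b3, hb3C, rfl⟩, rfl⟩
    · rw [← hphi b2 hb2]
      exact ⟨_, Or.inl ⟨b2, hb2C', rfl⟩, rfl⟩
    · refine ⟨((2 : ℝ), (2 : ℝ)), Or.inr (Or.inr ?_), ?_⟩
      · rw [mem_triV]
        norm_num
      · simp only [triPhi]
        norm_num
  · -- P2
    intro a ha b hb hab C C' hC hCc hC' hCc' haC he2C hbC' he1C'
    have hab' : (triPt a).1 < (triPt b).1 := hab
    rcases (hpos a).eq_or_lt with h0 | h0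
    · have h1 : a = e1 := by
        refine triPt_inj (Prod.ext h0.symm ?_)
        have h2 : (triPt a).1 = (triPt a).2 := ha
        rw [← h2, ← h0]
        rfl
      subst h1
      exact ⟨e1, haC, he1C'⟩
    · obtain ⟨k1, k2, k3, k4, k5, k6, k7⟩ :=
        tri_cross hC' hCc' hC hCc hP2 hP2c hP2x he2C he2 hP2e
      rw [inter_comm]
      apply k7
      have hle := (hm b hb).2.2
      refine half_crossing k3 k4 k5 k6 k1 k2 (t1 := 0) (t2 := 2 * (triPt a).1)
        (t3 := 2 * (triPt b).1) (t4 := 2) (by linarith) (by linarith) (by linarith) ?_ ?_ ?_ ?_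
      · refine ⟨_, ⟨e1, he1C', rfl⟩, ?_⟩
        change ((0 : ℝ) - 0, (0 : ℝ) + 0) = (0, 0)
        norm_num
      · rw [← hphi b hb]
        exact ⟨_, ⟨b, hbC', rfl⟩, rfl⟩
      · rw [← hphi a ha]
        exact ⟨_, Or.inl ⟨a, haC, rfl⟩, rfl⟩
      · refine ⟨((1 : ℝ), (1 : ℝ)), Or.inr (Or.inr ?_), ?_⟩
        · rw [mem_triV]
          norm_num
        · simp only [triPhi]
          norm_num
  · -- P3
    intro a ha b hb hab
    have hab' : (triPt a).1 < (triPt b).1 := hab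
    obtain ⟨a1, a2, a3⟩ := hm a ha
    obtain ⟨b1, b2, b3⟩ := hm b hb
    have ha0 := hpos a
    have hb0 := hpos b
    let S1 : Set (ℝ × ℝ) := triV (triPt a).1 0 (triPt a).1 ∪ triH 0 (triPt a).1 0
    let S2 : Set (ℝ × ℝ) := (triH (triPt b).1 (4 / 9) (triPt b).1 ∪
      triV (4 / 9) (triPt b).1 (1 / 3)) ∪ triH (4 / 9) (1 / 2) (1 / 3)
    have hS1c : IsCompact S1 := (triV_compact _ _ _).union (triH_compact _ _ _)
    have hS2c : IsCompact S2 :=
      ((triH_compact _ _ _).union (triV_compact _ _ _)).union (triH_compact _ _ _)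
    have hS1p : IsPreconnected S1 := by
      refine IsPreconnected.union ((triPt a).1, (0 : ℝ)) ?_ ?_ (triV_conn _ _ _) (triH_conn _ _ _)
      · rw [mem_triV]
        exact ⟨rfl, le_rfl, ha0⟩
      · rw [mem_triH]
        exact ⟨⟨ha0, le_rfl⟩, rfl⟩
    have hS2p : IsPreconnected S2 := by
      refine IsPreconnected.union ((4 / 9 : ℝ), (1 / 3 : ℝ)) ?_ ?_ ?_ (triH_conn _ _ _)
      · right
        rw [mem_triV]
        exact ⟨rfl, b3, le_rfl⟩
      · rw [mem_triH]
        norm_num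
      · refine IsPreconnected.union ((4 / 9 : ℝ), (triPt b).1) ?_ ?_ (triH_conn _ _ _)
          (triV_conn _ _ _)
        · rw [mem_triH]
          exact ⟨⟨by linarith, le_rfl⟩, rfl⟩
        · rw [mem_triV]
          exact ⟨rfl, le_rfl, b3⟩
    have hS1 : ∀ p ∈ S1, p ∈ carpet ∧ p.2 ≤ p.1 ∧ p.1 ≤ 1 / 2 := by
      rintro ⟨x, y⟩ (hp | hp)
      · rw [mem_triV] at hp
        obtain ⟨h1, h2, h3⟩ := hp
        simp only at h1 h2 h3 ⊢
        subst h1
        exact ⟨a2.2.2 y h2 (by linarith), h3, by linarith⟩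
      · rw [mem_triH] at hp
        obtain ⟨⟨h1, h2⟩, h3⟩ := hp
        simp only at h1 h2 h3 ⊢
        subst h3
        exact ⟨bot_mem h1 (by linarith), h1, by linarith⟩
    have hS2 : ∀ p ∈ S2, p ∈ carpet ∧ p.2 ≤ p.1 ∧ p.1 ≤ 1 / 2 := by
      rintro ⟨x, y⟩ ((hp | hp) | hp)
      · rw [mem_triH] at hp
        obtain ⟨⟨h1, h2⟩, h3⟩ := hp
        simp only at h1 h2 h3 ⊢
        rw [h3]
        exact ⟨b2.mem_left (by linarith) (by linarith), h1, by linarith⟩
      · rw [mem_triV] at hp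
        obtain ⟨h1, h2, h3⟩ := hp
        simp only at h1 h2 h3 ⊢
        subst h1
        exact ⟨four_ninth (by linarith) h3, by linarith, by norm_num⟩
      · rw [mem_triH] at hp
        obtain ⟨⟨h1, h2⟩, h3⟩ := hp
        simp only at h1 h2 h3 ⊢
        rw [h3]
        exact ⟨h13.mem_left (by linarith) (by linarith), by linarith, h2⟩
    obtain ⟨l1, l2⟩ := tri_lift hS1c hS1p hS1
    obtain ⟨l3, l4⟩ := tri_lift hS2c hS2p hS2
    refine ⟨triPt ⁻¹' S1, triPt ⁻¹' S2, l1, l2, l3, l4, ?_, ?_, ?_, ?_, ?_⟩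
    · rw [Set.disjoint_left]
      intro z hz1 hz2
      have h1 : (triPt z).1 ≤ (triPt a).1 := by
        rcases hz1 with h | h
        · rw [mem_triV] at h
          exact h.1.le
        · rw [mem_triH] at h
          exact h.1.2
      have h2 : (triPt b).1 ≤ (triPt z).1 := by
        rcases hz2 with (h | h) | h
        · rw [mem_triH] at h
          exact h.1.1
        · rw [mem_triV] at h
          rw [h.1]
          linarith
        · rw [mem_triH] at h
          linarith [h.1.1]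
      linarith
    · left
      rw [mem_triV]
      have h2 : (triPt a).1 = (triPt a).2 := ha
      exact ⟨rfl, by rw [← h2]; exact ha0, h2.symm.le⟩
    · right
      rw [mem_triH]
      exact ⟨⟨le_rfl, ha0⟩, rfl⟩
    · left
      left
      rw [mem_triH]
      have h2 : (triPt b).1 = (triPt b).2 := hb
      exact ⟨⟨le_rfl, by linarith⟩, h2.symm⟩
    · right
      rw [mem_triH]
      change ((4 / 9 : ℝ) ≤ 1 / 2 ∧ (1 / 2 : ℝ) ≤ 1 / 2) ∧ (1 / 3 : ℝ) = 1 / 3
      norm_num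

end CarpetLib
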